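import Pool.Agent.MP_6a06cd_co.KL.Spec

/-! An upper bound for a renewal sequence whose small steps are known. -/

namespace Pool.Agent.MP_6a06cd_co.KL

open Finset PowerSeries

namespace Adv

theorem cm (A B : ℝ⟦X⟧) (n : ℕ) :
    coeff n (A * B) = ∑ i ∈ range (n + 1), coeff i A * coeff (n - i) B := by
  rw [coeff_mul]
  exact Finset.Nat.sum_antidiagonal_eq_sum_range_succ (fun i j => coeff i A * coeff j B) n

theorem cut (φ : ℕ → ℝ) {d e : ℕ} (h : e ≤ d) :
    ∑ i ∈ range (d + 1), (if 1 ≤ i ∧ i ≤ e then φ i else 0) = ∑ i ∈ Icc 1 e, φ i := by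
  rw [← sum_filter]
  refine sum_congr ?_ fun _ _ => rfl
  ext i
  simp only [mem_filter, mem_range, mem_Icc]
  omega

theorem bd {A B : ℝ⟦X⟧} {U V : ℕ → ℝ} {m : ℕ} (hA : ∀ i ≤ m, 0 ≤ coeff i A ∧ coeff i A ≤ U i)
    (hB : ∀ i ≤ m, 0 ≤ coeff i B ∧ coeff i B ≤ V i) :
    0 ≤ coeff m (A * B) ∧ coeff m (A * B) ≤ ∑ i ∈ range (m + 1), U i * V (m - i) := by
  rw [cm]
  refine ⟨sum_nonneg fun i hi => ?_, sum_le_sum fun i hi => ?_⟩
  all_goals
    have a := hA i (Nat.lt_succ_iff.1 (mem_range.1 hi))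
    have b := hB (m - i) (Nat.sub_le _ _)
  · exact mul_nonneg a.1 b.1
  · exact mul_le_mul a.2 b.2 b.1 (a.1.trans a.2)

theorem fin {a b r aL aH g u y : ℝ} (ha : 0 ≤ a) (hb : 0 ≤ b) (hr : a + b ≤ r) (hH : 0 ≤ aH)
    (hg : 0 ≤ g) (h1 : u + r * aH ≤ y) (h2 : u + r * aL + r ^ 2 * g ≤ y) :
    u + (a * aL + b * aH) + a * (a * g) ≤ y := by
  rcases (show 0 ≤ r by linarith).eq_or_lt with rfl | h
  · obtain rfl : a = 0 := by linarith
    obtain rfl : b = 0 := by linarith
    linarith
  · have e1 := mul_le_mul_of_nonneg_left h1 (show 0 ≤ r - a by linarith)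
    have e2 := mul_le_mul_of_nonneg_left h2 ha
    have e3 : u + a * aL + (r - a) * aH + a * (r * g) ≤ y :=
      le_of_mul_le_mul_left (by linarith) h
    have e4 := mul_le_mul_of_nonneg_right (show b ≤ r - a by linarith) hH
    have e5 := mul_le_mul_of_nonneg_left
      (mul_le_mul_of_nonneg_right (show a ≤ r by linarith) hg) ha
    linarith

end Adv

open Adv in
theorem rowAdv : SAdv := by
  intro h f fl fu U k D r aL aH g y hD1 hD2 h0 hf hh hs hfl hU0 hU hr hH hL hg y1 y2
  let p : ℕ → ℝ := fun j => if k < j then f j else 0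
  have p0 : ∀ j, 0 ≤ p j := fun j => by simp only [p]; split_ifs; exacts [hf j, le_rfl]
  have pz : ∀ j, j ≤ k → p j = 0 := fun j hj => if_neg (not_lt.2 hj)
  obtain ⟨S, hS⟩ : ∃ S : ℝ⟦X⟧, S = mk fun i => if 1 ≤ i ∧ i ≤ k then f i else 0 := ⟨_, rfl⟩
  obtain ⟨P, hP⟩ : ∃ P : ℝ⟦X⟧, P = mk p := ⟨_, rfl⟩
  obtain ⟨u, hu⟩ : ∃ u : ℝ⟦X⟧, (1 - S) * u = 1 :=
    ⟨_, PowerSeries.mul_inv_cancel _ (by simp [hS])⟩
  have e1 : mk h = 1 + (S + P) * mk h := by
    ext d
    rw [map_add, cm, coeff_one, coeff_mk]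
    rcases Nat.eq_zero_or_pos d with rfl | hd
    · simp [hS, hP, p, h0]
    · rw [if_neg hd.ne', zero_add, hh d hd, ← cut _ le_rfl]
      refine sum_congr rfl fun i hi => ?_
      have := mem_range.1 hi
      simp only [hS, hP, p, map_add, coeff_mk]
      split_ifs <;> first | omega | simp
  have e2 : mk h = u + P * (u * u) + P * (P * (u * (u * u))) + P ^ 3 * (u ^ 3 * mk h) := by
    have : mk h = u + u * P * mk h := by linear_combination u * e1 - mk h * hu
    linear_combination (1 + u * P + (u * P) ^ 2) * this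
  have u1 : ∀ d, d ≤ D → 0 ≤ coeff d u ∧ coeff d u ≤ U d := by
    intro d
    induction d using Nat.strong_induction_on with
    | _ d ih =>
      intro hd
      rw [show u = 1 + S * u by linear_combination hu, map_add, cm, coeff_one]
      rcases Nat.eq_zero_or_pos d with rfl | hd0
      · simpa [hS] using hU0
      · have : ∑ i ∈ range (d + 1), coeff i S * coeff (d - i) u =
            ∑ i ∈ Icc 1 (min d k), f i * coeff (d - i) u := by
          rw [← cut _ (min_le_left d k)]
          refine sum_congr rfl fun i hi => ?_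
          have := mem_range.1 hi
          simp only [hS, coeff_mk]
          split_ifs <;> first | omega | simp
        rw [if_neg hd0.ne', zero_add, this]
        refine ⟨sum_nonneg fun i hi => ?_, (sum_le_sum fun i hi => ?_).trans (hU d hd0 hd)⟩
        all_goals
          have hi' := mem_Icc.1 hi
          have b := ih (d - i) (by omega) (by omega)
        · exact mul_nonneg (hf i) b.1
        · have c := (hfl i hi'.1 (by omega)).2
          exact mul_le_mul c b.2 b.1 ((hf i).trans c)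
  have u2 : ∀ m, m ≤ D → 0 ≤ coeff m (u * u) ∧
      coeff m (u * u) ≤ ∑ i ∈ range (m + 1), U i * U (m - i) := fun m hm =>
    bd (fun i hi => u1 i (hi.trans hm)) fun i hi => u1 i (hi.trans hm)
  have u3 : ∀ m, m + 2 * (k + 1) ≤ D → 0 ≤ coeff m (u * (u * u)) ∧ coeff m (u * (u * u)) ≤ g :=
    fun m hm => (bd (V := fun m => ∑ i ∈ range (m + 1), U i * U (m - i))
      (fun i hi => u1 i (by omega)) fun i hi => u2 i (by omega)).imp_right (·.trans (hg m hm))
  have g0 : 0 ≤ g := (u3 0 (by omega)).1.trans (u3 0 (by omega)).2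
  have H0 : 0 ≤ aH := (u2 0 (by omega)).1.trans ((u2 0 (by omega)).2.trans (hH 0 (by omega)))
  let lo : ℕ → ℝ := fun j => if j + k < D then p j else 0
  let hi : ℕ → ℝ := fun j => if j + k < D then 0 else p j
  have lo0 : ∀ j, 0 ≤ lo j := fun j => by simp only [lo]; split_ifs; exacts [p0 j, le_rfl]
  have hi0 : ∀ j, 0 ≤ hi j := fun j => by simp only [hi]; split_ifs; exacts [le_rfl, p0 j]
  have t0 : ∑ j ∈ range (D + 1), lo j + ∑ j ∈ range (D + 1), hi j ≤ r := by
    have a1 := hs D
    have a2 : ∑ i ∈ Icc 1 k, fl i ≤ ∑ i ∈ Icc 1 k, f i :=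
      sum_le_sum fun i hi => (hfl i (mem_Icc.1 hi).1 (mem_Icc.1 hi).2).1
    have a3 : ∑ j ∈ range (D + 1), lo j + ∑ j ∈ range (D + 1), hi j + ∑ i ∈ Icc 1 k, f i =
        ∑ i ∈ Icc 1 D, f i := by
      rw [← cut f (show k ≤ D by omega), ← cut f (le_refl D), ← sum_add_distrib, ← sum_add_distrib]
      refine sum_congr rfl fun i hi' => ?_
      have := mem_range.1 hi'
      simp only [lo, hi, p]
      split_ifs <;> first | omega | simp
    linarith
  have t1 : coeff D (P * (u * u)) ≤
      (∑ j ∈ range (D + 1), lo j) * aL + (∑ j ∈ range (D + 1), hi j) * aH := by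
    rw [cm, sum_mul, sum_mul, ← sum_add_distrib]
    refine sum_le_sum fun j hj => ?_
    have := mem_range.1 hj
    have c := (u2 (D - j) (Nat.sub_le _ _)).2
    rw [hP, coeff_mk]
    by_cases hk : j ≤ k
    · simp [lo, hi, pz j hk]
    simp only [lo, hi]
    split_ifs with h1
    · rw [zero_mul, add_zero]
      exact mul_le_mul_of_nonneg_left (c.trans (hL _ (by omega) (by omega))) (p0 j)
    · rw [zero_mul, zero_add]
      exact mul_le_mul_of_nonneg_left (c.trans (hH _ (by omega))) (p0 j)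
  have t2 : coeff D (P * (P * (u * (u * u)))) ≤
      (∑ j ∈ range (D + 1), lo j) * ((∑ j ∈ range (D + 1), lo j) * g) := by
    rw [cm, sum_mul]
    refine sum_le_sum fun j hj => ?_
    have := mem_range.1 hj
    rw [cm, hP, coeff_mk]
    by_cases hk : j ≤ k
    · simp [lo, pz j hk]
    by_cases h1 : j + k < D
    · rw [show lo j = p j from if_pos h1, sum_mul]
      refine mul_le_mul_of_nonneg_left ((sum_le_sum fun i hi' => ?_).trans
        (sum_le_sum_of_subset_of_nonneg (range_mono (show D - j + 1 ≤ D + 1 by omega))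
          fun i _ _ => mul_nonneg (lo0 i) g0)) (p0 j)
      have := mem_range.1 hi'
      rw [coeff_mk]
      by_cases hk' : i ≤ k
      · simp [lo, pz i hk']
      · rw [show lo i = p i from if_pos (by omega)]
        exact mul_le_mul_of_nonneg_left (u3 _ (by omega)).2 (p0 i)
    · rw [show lo j = 0 from if_neg h1, zero_mul, sum_eq_zero fun i hi' => ?_, mul_zero]
      have := mem_range.1 hi'
      rw [coeff_mk, pz i (by omega), zero_mul]
  have t3 : coeff D (P ^ 3 * (u ^ 3 * mk h)) = 0 := by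
    have : X ^ (k + 1) ∣ P := X_pow_dvd_iff.2 fun m hm => by
      rw [hP, coeff_mk]; exact pz m (by omega)
    have := (pow_dvd_pow_of_dvd this 3).mul_right (u ^ 3 * mk h)
    rw [← pow_mul] at this
    exact X_pow_dvd_iff.1 this D (by omega)
  have e3 := congrArg (coeff D) e2
  rw [map_add, map_add, map_add, coeff_mk, t3] at e3
  have := fin (sum_nonneg fun j _ => lo0 j) (sum_nonneg fun j _ => hi0 j) t0 H0 g0 y1 y2
  linarith [(u1 D le_rfl).2]

end Pool.Agent.MP_6a06cd_co.KL
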