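import Pool.Agent.MP_6a06cd_co.KL.Spec

/-! From the certificate to a lower bound for the strip of 36 lines. -/

namespace Pool.Agent.MP_6a06cd_co.KL

open Finset H45
open scoped NNReal ENNReal Classical

theorem rowBig : OfBig := by
  intro hG hT hL hS x g s h0 h1 hF hs hC
  obtain ⟨M, hM, h⟩ := hS x g s h0 h1 hC
  have a1 := hL x 18 0 45 18 18 M s (by norm_num) (by norm_num) h0 hF hM (h 45 rfl le_rfl)
  have a2 := hL x 18 0 63 18 18 M s (by norm_num) (by norm_num) h0 hF hM (h 63 rfl (by norm_num))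
  have e : B x 36 = gf x {S | Gd 18 0 45 36 S} := hT x 18 0 45 (by norm_num) (by norm_num)
  have hd : Disjoint {S | Gd 18 0 45 18 S} {S | Gd 18 0 63 18 S} :=
    Set.disjoint_left.2 fun S ⟨_, _, _, _, τ, hτ, h2⟩ h3 => by
      have := (h3.2.1 τ hτ).1
      omega
  have a3 := hG.1 ℕ ℕ x ({S | Gd 18 0 45 18 S} ∪ {S | Gd 18 0 63 18 S}) {S | Gd 18 0 45 36 S} id 0
    (fun S hS => ⟨hS.elim
      (fun ⟨h2, h3, h4, h5, τ, hτ, h6⟩ => ⟨h2, h3, h4, h5, τ, hτ, by omega⟩)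
      fun ⟨h2, h3, h4, h5, τ, hτ, h6⟩ => ⟨h2, fun τ hτ => ⟨le_trans (by norm_num) (h3 τ hτ).1,
        (h3 τ hτ).2⟩, h4, h5, τ, hτ, by omega⟩, rfl⟩) (Set.injOn_id _)
  rw [pow_zero, one_mul, hG.2.1 ℕ x _ _ hd] at a3
  rw [two_mul, ENNReal.ofReal_add hs hs, e]
  exact (add_le_add a1 a2).trans a3

end Pool.Agent.MP_6a06cd_co.KL
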