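import Pool.Agent.MP_6a06cd_co.KL.Spec2

/-! Bits of the state after an empty move. -/

namespace Pool.Agent.MP_6a06cd_co.KL

open X

namespace BitE

theorem pw_eq (e : ℕ) : pw e = 2 ^ e := Nat.one_shiftLeft e

theorem ones_succ (n m : ℕ) : ones n (m + 1) = 2 ^ (n * m) * 1 + ones n m := by
  rw [mul_one, add_comm (2 ^ _), ← pw_eq]; rfl

theorem ones_lt {n : ℕ} (hn : 1 ≤ n) (m : ℕ) : ones n m < 2 ^ (n * m) := by
  induction m with
  | zero => exact Nat.two_pow_pos _
  | succ m ih =>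
    have : 2 ^ (n * m + 1) ≤ 2 ^ (n * (m + 1)) :=
      Nat.pow_le_pow_right two_pos (by rw [mul_add, mul_one]; omega)
    rw [ones_succ]
    omega

theorem ones_bit {n : ℕ} (hn : 1 ≤ n) (m k : ℕ) :
    (ones n m).testBit k = true ↔ ∃ i, i < m ∧ k = n * i := by
  induction m with
  | zero => simp [show ones n 0 = 0 from rfl]
  | succ m ih =>
    rw [ones_succ, Nat.two_pow_add_eq_or_of_lt (ones_lt hn m), mul_one, Nat.testBit_or,
      Bool.or_eq_true, ih, Nat.testBit_two_pow, decide_eq_true_iff]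
    constructor
    · rintro (rfl | ⟨i, h, e⟩)
      exacts [⟨m, by omega, rfl⟩, ⟨i, by omega, e⟩]
    · rintro ⟨i, h, e⟩
      rcases Nat.lt_succ_iff_lt_or_eq.1 h with h | rfl
      exacts [Or.inr ⟨i, h, e⟩, Or.inl e.symm]

theorem uniq {n i j i' j' : ℕ} (h : j < n) (h' : j' < n) (e : n * i + j = n * i' + j') :
    i = i' ∧ j = j' := by
  have h1 := congrArg (· % n) e
  simp only [Nat.mul_add_mod, Nat.mod_eq_of_lt h, Nat.mod_eq_of_lt h'] at h1
  subst h1
  exact ⟨Nat.eq_of_mul_eq_mul_left (by omega : 0 < n) (by omega), rfl⟩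

theorem lt_sq {n i j : ℕ} (h : i < n) (h' : j < n) : n * i + j < n * n := by
  have := Nat.mul_le_mul_left n (Nat.succ_le_of_lt h)
  rw [Nat.mul_succ] at this
  omega

theorem cC_bit {n p : ℕ} (hn : 1 ≤ n) (hL : sl n p < n) (k : ℕ) : (cC n p).testBit k = true ↔
    k < n * n + 2 ∧ ¬ ∃ i j, i < n ∧ j < n ∧ k = n * i + j ∧ (i = sl n p ∨ j = sl n p) := by
  have e : cC n p = (2 ^ (n * n + 2) - 1) ^^^ (((2 ^ n - 1) <<< (n * sl n p)) |||
      (ones n n <<< sl n p)) := by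
    rw [← pw_eq, ← pw_eq]; rfl
  have h : (((2 ^ n - 1) <<< (n * sl n p)) ||| (ones n n <<< sl n p)).testBit k = true ↔
      ∃ i j, i < n ∧ j < n ∧ k = n * i + j ∧ (i = sl n p ∨ j = sl n p) := by
    simp only [Nat.testBit_or, Nat.testBit_shiftLeft, Nat.testBit_two_pow_sub_one, Bool.or_eq_true,
      Bool.and_eq_true, decide_eq_true_iff, ones_bit hn]
    constructor
    · rintro (⟨a, b⟩ | ⟨a, i, b, c⟩)
      exacts [⟨_, _, hL, b, by omega, Or.inl rfl⟩, ⟨i, _, b, hL, by omega, Or.inr rfl⟩]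
    · rintro ⟨i, j, a, b, rfl, rfl | rfl⟩
      exacts [Or.inl ⟨by omega, by omega⟩, Or.inr ⟨by omega, i, a, by omega⟩]
  rw [e, Nat.testBit_xor, ← h, Nat.testBit_two_pow_sub_one]
  by_cases h1 : (((2 ^ n - 1) <<< (n * sl n p)) ||| (ones n n <<< sl n p)).testBit k = true
  · obtain ⟨i, j, a, b, rfl, -⟩ := h.1 h1
    have := lt_sq a b
    simp [h1]
    omega
  · simp [h1]

theorem st_bit (n p s k : ℕ) :
    (stE n p s).testBit k = true ↔ s.testBit k = true ∧ (cC n p).testBit k = true := by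
  rw [← Bool.and_eq_true, ← Nat.testBit_and]; rfl

theorem ext_bits {n o o' : ℕ} (hn : 1 ≤ n) (h : o < 2 ^ (n * n + 2)) (h' : o' < 2 ^ (n * n + 2))
    (h1 : ∀ i j, i < n → j < n → o.testBit (n * i + j) = o'.testBit (n * i + j))
    (h2 : o.testBit (n * n) = o'.testBit (n * n))
    (h3 : o.testBit (n * n + 1) = o'.testBit (n * n + 1)) : o = o' := by
  refine Nat.eq_of_testBit_eq fun k => ?_
  rcases lt_or_ge k (n * n) with a | a
  · rw [← Nat.div_add_mod k n]
    exact h1 _ _ (Nat.div_lt_of_lt_mul a) (Nat.mod_lt _ hn)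
  rcases lt_or_ge k (n * n + 2) with b | b
  · obtain rfl | rfl : k = n * n ∨ k = n * n + 1 := by omega
    exacts [h2, h3]
  · have := Nat.pow_le_pow_right two_pos b
    rw [Nat.testBit_lt_two_pow (h.trans_le this), Nat.testBit_lt_two_pow (h'.trans_le this)]

theorem three (e k : ℕ) : (3 * pw e).testBit k = true ↔ k = e ∨ k = e + 1 := by
  rw [pw_eq, show 3 = 2 ^ 2 - 1 from rfl, Nat.testBit_mul_two_pow, Nat.testBit_two_pow_sub_one,
    Bool.and_eq_true, decide_eq_true_iff, decide_eq_true_iff]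
  omega

theorem row_eq {n p : ℕ} (hL : sl n p < n) (s : ℕ) :
    row n p s = cb n p ↔ ∀ j, j < n → (bt n s (sl n p) j ↔ j = sl n p) := by
  have e : ∀ j, (row n p s).testBit j = (s.testBit (n * sl n p + j) && decide (j < n)) := fun j => by
    rw [← Nat.testBit_shiftRight, ← Nat.testBit_two_pow_sub_one, ← Nat.testBit_and, ← pw_eq]; rfl
  rw [cb, pw_eq]
  refine ⟨fun h j hj => ?_, fun h => Nat.eq_of_testBit_eq fun j => ?_⟩
  · have := e j
    rw [h, Nat.testBit_two_pow] at this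
    simp only [hj, decide_true, Bool.and_true] at this
    rw [bt, ← this, decide_eq_true_iff, eq_comm]
  · rw [e, Nat.testBit_two_pow, Bool.eq_iff_iff, Bool.and_eq_true, decide_eq_true_iff,
      decide_eq_true_iff]
    exact ⟨fun a => ((h j a.2).1 a.1).symm, fun a => a ▸ ⟨(h _ hL).2 rfl, hL⟩⟩

theorem se_eq {n p : ℕ} (hL : sl n p < n) (s : ℕ) :
    seE n p s = if row n p s = cb n p then 0 else stE n p s + 1 := by
  have e : seE n p s = (stE n p s + 1) * (((row n p s ^^^ cb n p) + (2 ^ n - 1)) / 2 ^ n) := by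
    rw [← pw_eq]; rfl
  have p0 := Nat.two_pow_pos n
  have h1 : row n p s < 2 ^ n := by
    have : row n p s = (s >>> cS n p) &&& (2 ^ n - 1) := by rw [← pw_eq]; rfl
    rw [this]
    exact Nat.and_lt_two_pow _ (by omega)
  have h2 : cb n p < 2 ^ n := by rw [cb, pw_eq]; exact Nat.pow_lt_pow_right one_lt_two hL
  have h3 := Nat.xor_lt_two_pow h1 h2
  rw [e]
  split_ifs with h
  · rw [h, Nat.xor_self, Nat.div_eq_of_lt (by omega), mul_zero]
  · have h4 : row n p s ^^^ cb n p ≠ 0 := Nat.xor_ne_zero_iff.2 h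
    rw [Nat.div_eq_of_lt_le (k := 1) (by omega) (by omega), mul_one]

end BitE

open BitE in
theorem rowBitE : SBitE := by
  intro n p s hn hL
  have top : ∀ c, c < 2 → (bt n (stE n p s) n c ↔ bt n s n c) := fun c hc => by
    rw [bt, st_bit, cC_bit hn hL]
    refine and_iff_left ⟨by omega, ?_⟩
    rintro ⟨i, j, a, b, e, -⟩
    have := lt_sq a b
    omega
  refine ⟨fun i j hi hj => ?_, top 0 two_pos, top 1 one_lt_two,
    Nat.lt_pow_two_of_testBit _ fun k hk => ?_, ?_, fun o ho => ⟨⟨?_, fun h => ?_⟩, ?_, fun h => ?_⟩⟩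
  · rw [bt, st_bit, cC_bit hn hL]
    refine and_congr_right' ⟨fun h => ⟨fun e => h.2 ⟨i, j, hi, hj, rfl, Or.inl e⟩,
      fun e => h.2 ⟨i, j, hi, hj, rfl, Or.inr e⟩⟩, fun h => ⟨by have := lt_sq hi hj; omega, ?_⟩⟩
    rintro ⟨i', j', -, b, e, c⟩
    obtain ⟨rfl, rfl⟩ := uniq hj b e
    exact c.elim h.1 h.2
  · rw [← Bool.not_eq_true, st_bit, cC_bit hn hL]
    exact fun h => absurd h.2.1 (by omega)
  · rw [se_eq hL, ← row_eq hL]
    split_ifs with h
    exacts [Or.inl ⟨rfl, h⟩, Or.inr ⟨rfl, h⟩]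
  · rintro rfl
    simp only [bt, three]
    exact ⟨fun i j a b => by have := lt_sq a b; omega, by simp, by simp⟩
  · refine ext_bits hn ho (by rw [pw_eq, pow_add]; have := Nat.two_pow_pos (n * n); omega)
      (fun i j a b => ?_) ?_ ?_
    · have := lt_sq a b
      rw [Bool.eq_iff_iff, three]
      exact iff_of_false (h.1 i j a b) (by omega)
    · rw [(three _ _).2 (Or.inl rfl)]; exact h.2.1
    · rw [(three _ _).2 (Or.inr rfl)]; exact h.2.2
  · rintro rfl
    simp [bt]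
  · refine ext_bits hn ho (Nat.two_pow_pos _) (fun i j a b => ?_) ?_ ?_
    · simpa [bt] using h.1 i j a b
    · simpa [bt] using h.2.1
    · simpa [bt] using h.2.2

end Pool.Agent.MP_6a06cd_co.KL
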