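import Pool.Agent.MP_6a06cd_co.KL.Spec2

/-! Bits of the state after an occupied cell. -/

namespace Pool.Agent.MP_6a06cd_co.KL

open Finset H45 X

namespace BitO

theorem pw_eq (e : ℕ) : pw e = 2 ^ e := by
  show 1 <<< e = 2 ^ e
  rw [Nat.shiftLeft_eq, one_mul]

theorem mul_bit {n m : ℕ} (hn : 1 ≤ n) (hm : m < 2 ^ n) {j : ℕ} (hj : j < n) (i : ℕ) :
    ∀ sp : ℕ, (∀ b, sp.testBit b = true → n ∣ b) →
      (sp * m).testBit (n * i + j) = (sp.testBit (n * i) && m.testBit j) := by
  have split : ∀ sp : ℕ, (∀ b, sp.testBit b = true → n ∣ b) →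
      sp * m = 2 ^ n * (sp / 2 ^ n * m) + (if sp.testBit 0 then m else 0) := by
    intro sp h
    have h1 : sp % 2 ^ n = if sp.testBit 0 then 2 ^ 0 else 0 := by
      apply Nat.eq_of_testBit_eq
      intro b
      rw [Nat.testBit_mod_two_pow]
      by_cases hb : b = 0
      · subst hb
        by_cases h0 : sp.testBit 0 = true
        · rw [if_pos h0, h0, Nat.testBit_two_pow_self, decide_eq_true (show 0 < n from hn)]
          rfl
        · rw [if_neg h0, Nat.zero_testBit, Bool.eq_false_iff.2 h0, Bool.and_false]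
      · have h2 : (decide (b < n) && sp.testBit b) = false := by
          rw [Bool.eq_false_iff]
          intro h3
          rw [Bool.and_eq_true, decide_eq_true_eq] at h3
          exact hb (Nat.eq_zero_of_dvd_of_lt (h b h3.2) h3.1)
        rw [h2]
        split_ifs
        · exact (Nat.testBit_two_pow_of_ne (Ne.symm hb)).symm
        · exact (Nat.zero_testBit b).symm
    conv_lhs => rw [← Nat.div_add_mod sp (2 ^ n), h1]
    split_ifs <;> ring
  have small : ∀ c : Bool, (if c then m else 0) < 2 ^ n := by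
    intro c
    split_ifs
    · exact hm
    · positivity
  induction i with
  | zero =>
    intro sp h
    rw [split sp h, Nat.testBit_two_pow_mul_add _ (small _), Nat.mul_zero, Nat.zero_add, if_pos hj]
    cases sp.testBit 0 <;> simp
  | succ i ih =>
    intro sp h
    rw [split sp h, Nat.testBit_two_pow_mul_add _ (small _), if_neg (by rw [Nat.mul_succ]; omega),
      show n * (i + 1) + j - n = n * i + j by rw [Nat.mul_succ]; omega, ih, Nat.testBit_div_two_pow,
      Nat.mul_succ]
    intro b hb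
    rw [Nat.testBit_div_two_pow] at hb
    exact (Nat.dvd_add_left (dvd_refl n)).1 (h _ hb)

theorem ones_bit {n : ℕ} (hn : 1 ≤ n) (m : ℕ) :
    ∀ b, (ones n m).testBit b = true ↔ ∃ i, i < m ∧ b = n * i := by
  induction m with
  | zero =>
    intro b
    show (0 : ℕ).testBit b = true ↔ _
    simp
  | succ m ih =>
    intro b
    have h1 : ones n m < 2 ^ (n * m) := by
      apply Nat.lt_pow_two_of_testBit
      intro c hc
      rw [Bool.eq_false_iff]
      intro h
      obtain ⟨i, hi, rfl⟩ := (ih c).1 h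
      exact absurd (Nat.mul_lt_mul_of_pos_left hi hn) (not_lt.2 hc)
    have h2 : ones n (m + 1) = 2 ^ (n * m) * 1 + ones n m := by
      show ones n m + pw (n * m) = _
      rw [pw_eq]
      ring
    rw [h2, Nat.two_pow_add_eq_or_of_lt h1, mul_one, Nat.testBit_or, Bool.or_eq_true, ih,
      Nat.testBit_two_pow, decide_eq_true_eq]
    constructor
    · rintro (h | ⟨i, hi, h⟩)
      · exact ⟨m, Nat.lt_succ_self m, h.symm⟩
      · exact ⟨i, Nat.lt_succ_of_lt hi, h⟩
    · rintro ⟨i, hi, h⟩
      rcases Nat.lt_succ_iff_lt_or_eq.1 hi with h3 | rfl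
      · exact Or.inr ⟨i, h3, h⟩
      · exact Or.inl h.symm

theorem flag_bit (x h b : ℕ) (hh : h = 0 ∨ h = 1) :
    (x * h).testBit b = true ↔ h = 1 ∧ x.testBit b = true := by
  rcases hh with rfl | rfl <;> simp

/-- the column factor -/
noncomputable def cl (n p s : ℕ) : ℕ :=
  ((s >>> sl n p &&& ones n n) ||| pw (n * sl n p)) ||| (s >>> nb n p &&& ones n n * hn n p)

/-- the row factor -/
noncomputable def rw' (n p s : ℕ) : ℕ :=
  ((s >>> (n * sl n p) &&& (pw n - 1)) ||| pw (sl n p)) |||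
    (s >>> (n * nb n p) &&& (pw n - 1) * hn n p)

theorem stO_eq (n lo p s : ℕ) : stO n lo p s = (s ||| cF n lo p) ||| cl n p s * rw' n p s := rfl

theorem cl_bit {n : ℕ} (h1 : 1 ≤ n) (p s b : ℕ) (hh : hn n p = 0 ∨ hn n p = 1) :
    (cl n p s).testBit b = true ↔ ((s.testBit (b + sl n p) = true ∧ ∃ i, i < n ∧ b = n * i) ∨
      b = n * sl n p) ∨ (s.testBit (b + nb n p) = true ∧ hn n p = 1 ∧ ∃ i, i < n ∧ b = n * i) := by
  unfold cl
  simp only [Nat.testBit_or, Nat.testBit_and, Bool.or_eq_true, Bool.and_eq_true,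
    Nat.testBit_shiftRight, flag_bit _ _ _ hh, ones_bit h1, pw_eq, Nat.testBit_two_pow,
    decide_eq_true_eq, Nat.add_comm b, eq_comm (a := b) (b := n * sl n p)]

theorem rw_bit (n p s b : ℕ) (hh : hn n p = 0 ∨ hn n p = 1) :
    (rw' n p s).testBit b = true ↔ ((s.testBit (n * sl n p + b) = true ∧ b < n) ∨
      b = sl n p) ∨ (s.testBit (n * nb n p + b) = true ∧ hn n p = 1 ∧ b < n) := by
  unfold rw'
  simp only [Nat.testBit_or, Nat.testBit_and, Bool.or_eq_true, Bool.and_eq_true,
    Nat.testBit_shiftRight, flag_bit _ _ _ hh, pw_eq, Nat.testBit_two_pow,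
    Nat.testBit_two_pow_sub_one, decide_eq_true_eq, eq_comm (a := b) (b := sl n p)]

theorem cond_bit (a c e b : ℕ) :
    (cond (Nat.beq a c) (pw e) 0).testBit b = true ↔ a = c ∧ b = e := by
  by_cases h : a = c
  · have : Nat.beq a c = true := by rw [h, Nat.beq_refl]
    rw [this, Bool.cond_true, pw_eq, Nat.testBit_two_pow, decide_eq_true_eq]
    exact ⟨fun h2 => ⟨h, h2.symm⟩, fun h2 => h2.2.symm⟩
  · have : Nat.beq a c = false := by
      rw [Bool.eq_false_iff]
      exact fun h2 => h (Nat.eq_of_beq_eq_true h2)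
    rw [this, Bool.cond_false]
    simp [h]

theorem cF_bit (n lo p b : ℕ) : (cF n lo p).testBit b = true ↔
    (ul n p = lo ∧ b = n * n) ∨ (ul n p = 2 * n - 1 ∧ b = n * n + 1) := by
  have : cF n lo p = cond (Nat.beq (ul n p) lo) (pw (n * n)) 0 |||
      cond (Nat.beq (ul n p) (2 * n - 1)) (pw (n * n + 1)) 0 := rfl
  rw [this, Nat.testBit_or, Bool.or_eq_true, cond_bit, cond_bit]

theorem prop_aux {A A0 A1 A2 B0 B1 B2 H : Prop} :
    (A ∨ ((A1 ∨ A0) ∨ A2 ∧ H) ∧ ((B1 ∨ B0) ∨ B2 ∧ H)) ↔
      A ∨ (A0 ∨ A1 ∨ H ∧ A2) ∧ (B0 ∨ B1 ∨ H ∧ B2) := by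
  rw [or_comm (a := A1), or_comm (a := B1), or_assoc, or_assoc, and_comm (a := A2), and_comm (a := B2)]

end BitO

open BitO in
theorem rowBitO : SBitO := by
  intro n lo p s h1 hsl hnb hs
  have hh : hn n p = 0 ∨ hn n p = 1 := hnb.imp id And.left
  have hcl : ∀ b, (cl n p s).testBit b = true → ∃ i, i < n ∧ b = n * i := by
    intro b hb
    rcases (cl_bit h1 p s b hh).1 hb with (h | h) | h
    · exact h.2
    · exact ⟨_, hsl, h⟩
    · exact h.2.2
  have hrw : rw' n p s < 2 ^ n := by
    apply Nat.lt_pow_two_of_testBit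
    intro b hb
    rw [Bool.eq_false_iff]
    intro h
    rcases (rw_bit n p s b hh).1 h with (h | h) | h <;> omega
  have hmul : ∀ i j, j < n → (cl n p s * rw' n p s).testBit (n * i + j) =
      ((cl n p s).testBit (n * i) && (rw' n p s).testBit j) := fun i j hj =>
    mul_bit h1 hrw hj i _ fun b hb => by
      obtain ⟨i, _, rfl⟩ := hcl b hb
      exact dvd_mul_right n i
  have hhigh : ∀ b, n * n ≤ b → (cl n p s * rw' n p s).testBit b = false := by
    intro b hb
    rw [← Nat.div_add_mod b n, hmul _ _ (Nat.mod_lt b h1), Bool.eq_false_iff]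
    intro h
    rw [Bool.and_eq_true] at h
    obtain ⟨i, hi, h2⟩ := hcl _ h.1
    have h3 : b / n = i := Nat.eq_of_mul_eq_mul_left h1 h2
    have h4 : n ≤ b / n := (Nat.le_div_iff_mul_le h1).2 hb
    omega
  have hbit : ∀ b, (stO n lo p s).testBit b = true ↔ (s.testBit b = true ∨
      (ul n p = lo ∧ b = n * n) ∨ (ul n p = 2 * n - 1 ∧ b = n * n + 1)) ∨
        (cl n p s * rw' n p s).testBit b = true := by
    intro b
    rw [stO_eq, Nat.testBit_or, Nat.testBit_or, Bool.or_eq_true, Bool.or_eq_true, cF_bit]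
  refine ⟨fun i j hi hj => ?_, ?_, ?_, ?_, ?_⟩
  · have hlt : n * i + j < n * n := by nlinarith
    have he : ∃ i', i' < n ∧ n * i = n * i' := ⟨i, hi, rfl⟩
    have hc : n * i = n * sl n p ↔ i = sl n p :=
      ⟨Nat.eq_of_mul_eq_mul_left h1, fun h => by rw [← h]⟩
    unfold bt
    rw [hbit, hmul i j hj, Bool.and_eq_true, cl_bit h1 p s _ hh, rw_bit n p s _ hh, hc]
    have e1 : ¬ n * i + j = n * n := by omega
    have e2 : ¬ n * i + j = n * n + 1 := by omega
    simp only [he, hj, e1, e2, and_true, and_false, or_false]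
    exact prop_aux
  · unfold bt
    rw [hbit, hhigh _ (by omega)]
    simp
  · unfold bt
    rw [hbit, hhigh _ (by omega)]
    simp
  · apply Nat.lt_pow_two_of_testBit
    intro b hb
    rw [Bool.eq_false_iff]
    intro h
    rcases (hbit b).1 h with (h | h | h) | h
    · rw [Nat.testBit_lt_two_pow (lt_of_lt_of_le hs (Nat.pow_le_pow_right (by norm_num) hb))] at h
      exact Bool.false_ne_true h
    · omega
    · omega
    · rw [hhigh b (by omega)] at h
      exact Bool.false_ne_true h
  · have he : seO n lo p s = (stO n lo p s + 1) * cond (Nat.ble lo (ul n p)) 1 0 := rfl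
    by_cases h : lo ≤ ul n p
    · right
      rw [he, Nat.ble_eq_true_of_le h, Bool.cond_true, mul_one]
      exact ⟨rfl, h⟩
    · left
      have : Nat.ble lo (ul n p) = false := by
        rw [Bool.eq_false_iff]
        exact fun h2 => h (Nat.le_of_ble_eq_true h2)
      rw [he, this, Bool.cond_false, mul_zero]
      exact ⟨rfl, not_le.1 h⟩

end Pool.Agent.MP_6a06cd_co.KL
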