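import Pool.Agent.MP_6a06cd_co.KL.Spec3

/-! Size bounds for the integer recursions of the packed checker. -/

set_option autoImplicit false

namespace Pool.Agent.MP_6a06cd_co.KL

open Finset K

namespace Bnd

/-- `|x| ≤ 2 ^ e`. -/
def Le (x : ℤ) (e : ℕ) : Prop := |x| ≤ 2 ^ e

lemma Le.mul {x y : ℤ} {e e' : ℕ} (h : Le x e) (h' : Le y e') : Le (x * y) (e + e') := by
  unfold Le at *
  rw [abs_mul, pow_add]
  exact mul_le_mul h h' (abs_nonneg _) (by positivity)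

lemma Le.cast {x : ℤ} {e e' : ℕ} (h : Le x e) (he : e = e') : Le x e' := he ▸ h

lemma Le.sum {r l e : ℕ} {F : ℕ → ℤ} (hr : r ≤ 2 ^ l) (h : ∀ s, Le (F s) e) :
    Le (∑ s ∈ range r, F s) (l + e) := by
  refine (abs_sum_le_sum_abs _ _).trans ((sum_le_card_nsmul _ _ _ fun s _ => h s).trans ?_)
  rw [card_range, nsmul_eq_mul, pow_add]
  exact mul_le_mul_of_nonneg_right (by exact_mod_cast hr) (by positivity)

lemma Le.nat {x e : ℕ} (h : x ≤ 2 ^ e) : Le x e := by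
  unfold Le
  rw [Nat.abs_cast]
  exact_mod_cast h

lemma Le.oS {n e : ℕ} {F : ℕ → ℤ} (h : ∀ s, Le (F s) e) : Le (oS n F) e := by
  unfold KL.oS
  split_ifs
  · simp [Le]
  · exact h _

lemma Le.off {x e : ℕ} (h : x < 2 ^ (e + 1)) : Le ((x : ℤ) - 2 ^ e) e := by
  have h1 : (x : ℤ) < 2 ^ (e + 1) := by exact_mod_cast h
  rw [pow_succ] at h1
  exact abs_le.2 ⟨by linarith [Int.natCast_nonneg x], by linarith⟩

end Bnd

open Bnd in
theorem rowBnd : OfBnd := by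
  intro hB hL g
  have pc1 : ∀ W Y p, pc W Y p < 2 ^ W := fun W Y p => by
    rw [hB.2.1]; exact Nat.mod_lt _ (by positivity)
  obtain ⟨p, hp⟩ : ∃ p, bP g = p + 1 := ⟨_, rfl⟩
  obtain ⟨p1, hp1⟩ : ∃ p, b1 g = p + 1 := ⟨_, rfl⟩
  obtain ⟨p2, hp2⟩ : ∃ p, b2 g = p + 1 := ⟨_, rfl⟩
  have hM : bM g = eM g + 1 := rfl
  have h2 : ∀ e, e2 g e = b2 g + 5 + e := fun _ => rfl
  have h1 : ∀ e, e1 g e = b1 g + 5 + e2 g e := fun _ => rfl
  have h3 : e3 g = e1 g (eM g) + 31 := rfl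
  have h4 : e4 g = e3 g + bP g + 35 := rfl
  have en1 : ∀ b X i, Le (en (b + 1) X i) b := fun b X i => Le.off (pc1 _ _ _)
  have sw : ∀ {F : ℕ → ℤ} {e : ℕ}, (∀ s, Le (F s) e) → ∀ l s, Le (swS F l s) (l + e) :=
    fun {F e} h l s => by
      unfold Le; rw [pow_add]; exact (hL.1 F _ (by positivity) h).2 l s
  have a4 : ∀ z, r4 g z ≤ 2 ^ 5 := fun _ => (pc1 _ _ _).le
  have a7 : ∀ z, r7 g z ≤ 2 ^ 6 := fun _ => (pc1 _ _ _).le
  have a9 : ∀ z, r9 g z ≤ 2 ^ 6 := fun _ => (pc1 _ _ _).le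
  have aI : ∀ j, Le (phI g j) 8 := fun _ => Le.nat (pc1 _ _ _)
  have aJ : ∀ j, Le (phJ g j) 10 := fun _ => Le.nat (pc1 _ _ _)
  have cI : ∀ j, Le (wI g j) 15 := fun _ => Le.nat (pc1 _ _ _)
  have cJ : ∀ j, Le (wJ g j) 16 := fun _ => Le.nat (pc1 _ _ _)
  have bMx : ∀ k i j, Le (Mx g k i j) (eM g) := fun k i j => Le.off (hM ▸ pc1 _ _ _)
  have bPz : ∀ z t i, Le (Pz g z t i) p := fun z t i => by unfold Pz; rw [hp]; exact en1 _ _ _
  have bB2 : ∀ {m : ℕ → ℤ} {e : ℕ}, (∀ s, Le (m s) e) → ∀ y b t i, Le (sB2 g m y b t i) (e2 g e) :=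
    fun {m e} h y b t i => (Le.sum (a9 b) fun s => Le.mul (e := p2)
      (by unfold Q2; rw [hp2]; exact en1 _ _ _) (h s)).cast (by rw [h2]; omega)
  have bB1 : ∀ {m : ℕ → ℤ} {e : ℕ}, (∀ s, Le (m s) e) → ∀ z y b t2 t1 i,
      Le (sB1 g m z y b t2 t1 i) (e1 g e) :=
    fun {m e} h z y b t2 t1 i => (Le.sum (a7 y) fun s => Le.mul (e := p1)
      (by unfold Q1; rw [hp1]; exact en1 _ _ _) (bB2 h _ _ _ _)).cast (by rw [h1]; omega)
  have bT : ∀ {m : ℕ → ℤ} {e : ℕ}, (∀ s, Le (m s) e) → ∀ (f : ℕ → ℕ) (eI c eJ : ℕ),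
      (∀ j, f j ≤ 2 ^ eI) → c ≤ 2 ^ eJ → ∀ z y b t2 t1 t,
      Le (sT g m f c z y b t2 t1 t) (e1 g e + eJ + eI + bP g + 4) :=
    fun {m e} h f eI c eJ hf hc z y b t2 t1 t => (Le.sum (a4 z) fun i =>
      ((Le.nat (hf _)).mul (bPz _ _ _)).mul ((Le.nat hc).mul (bB1 h _ _ _ _ _ _))).cast (by omega)
  have bD : ∀ cs j b5 z k i u, Le (sD g cs j b5 z k i u) (e3 g) := fun cs j b5 z k i u =>
    ((cJ _).mul (sw (e := 10 + e1 g (eM g)) (fun s => Le.oS fun k => Le.oS fun t2 => Le.oS fun t1 =>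
      (aJ _).mul (bB1 (fun r => bMx k r j) _ _ _ _ _ _)) _ _)).cast (by omega)
  have bI : ∀ cs j b5 u s, Le (sI0 g cs j b5 u s) (8 + (5 + (e3 g + p))) := fun cs j b5 u s =>
    Le.oS fun t => (aI _).mul (Le.sum (a4 _) fun i => (bD _ _ _ _ _ _ _).mul (bPz _ _ _))
  have bU : ∀ cs j b5 u s, Le (sU0 g cs j b5 u s) (15 + (4 + (8 + (5 + (e3 g + p))))) :=
    fun cs j b5 u s => Le.oS fun k => (cI _).mul (sw (bI cs j b5 u) _ _)
  have bX : ∀ cs j b5 k z t u, Le (sX g cs j b5 k z t u) (e4 g) := fun cs j b5 k z t u =>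
    (sw (e := 15 + (4 + (8 + (5 + (e3 g + p)))) + 1) (fun s => by
      unfold Le; rw [pow_succ']
      exact (hL.1 _ _ (by positivity) (bU cs j b5 u)).1 true s) _ _).cast (by omega)
  have bl : ∀ {m : ℕ → ℤ} {e : ℕ}, (∀ s, Le (m s) e) → ∀ w,
      Le (lm g m w) (8 + 10 + (e1 g e + 0 + 0 + bP g + 4)) := fun {m e} h w =>
    ((aI _).mul (aJ _)).mul (Le.oS fun _ => Le.oS fun _ => Le.oS fun _ =>
      bT h _ 0 1 0 (fun _ => le_rfl) le_rfl _ _ _ _ _ _)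
  refine ⟨bMx, fun m e h => ⟨bB2 h, bB1 h, bT h⟩, bD, bX, fun cs j k z J t =>
    (sw (fun s => Le.oS fun p => bX _ _ _ _ _ _ _) _ _).cast (add_comm _ _),
    ⟨_, fun a k b => le_of_abs_le (Le.sum (a9 _) fun j => (bl (e := 0) (fun s => ?_) b).mul
      (bl (fun s => bMx k s j) a))⟩,
    fun j => ⟨pc1 _ _ _, pc1 _ _ _, Nat.succ_pos _, Nat.succ_pos _, Nat.succ_pos _, Nat.succ_pos _⟩,
    fun e => ⟨by rw [h2]; omega, by rw [h1]; omega⟩, h3, h4, by omega, by omega, by omega, hM⟩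
  unfold dl Le
  split_ifs <;> simp

end Pool.Agent.MP_6a06cd_co.KL
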