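import Pool.Agent.MP_6a06cd_co.KL.Tab

/-! Packed checker of the certificate. Integer vectors are packed in slots of `S` bits, `n` columns at a time
(`W = S * n`), modulo the total length. `g` is the data oracle. A state is `k + 64 * q + 2 ^ 31 * p`
(`q` the letters still to read, `p` the letters written, five bits each, head lowest). -/

namespace Pool.Agent.MP_6a06cd_co.KL.K
noncomputable section

def pw (e : Nat) : Nat := Nat.shiftLeft (nat_lit 1) e
def mk (e : Nat) : Nat := Nat.sub (pw e) (nat_lit 1)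
def pc (W Y p : Nat) : Nat := Nat.land (Nat.shiftRight Y (Nat.mul W p)) (mk W)
def px (F : Nat → Nat) (W p t : Nat) : Nat := Nat.land (Nat.shiftRight (F t) (Nat.mul W p)) (mk W)
def ones (W m : Nat) : Nat := Nat.div (mk (Nat.mul W m)) (mk W)
def bo (S N e : Nat) : Nat := Nat.shiftLeft (ones S N) e
def neg (e Y : Nat) : Nat := Nat.sub (pw e) (Nat.land Y (mk e))
def nbo (S N e : Nat) : Nat := neg (Nat.mul S N) (bo S N e)
def dc (S N e Y : Nat) : Nat := Nat.land (Nat.add Y (bo S N e)) (mk (Nat.mul S N))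
def fN (n : Nat) (k : Nat → Nat) : Nat := Nat.rec (nat_lit 0) (fun m _ => k m) (Nat.succ n)
def opt (n : Nat) (k : Nat → Nat) : Nat := Nat.rec (nat_lit 0) (fun m _ => k m) n

def sm (U : Nat → Nat) (r : Nat) : Nat := Nat.rec (nat_lit 0) (fun s ih => Nat.add ih (U s)) r
def kr (U u : Nat → Nat) (r : Nat) : Nat := Nat.rec (nat_lit 0) (fun s ih => Nat.add ih (Nat.mul (U s) (u s))) r
def cor (e o : Nat) (U : Nat → Nat) (r : Nat) : Nat := neg e (Nat.mul (sm U r) o)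
def krc (e o : Nat) (U u : Nat → Nat) (r : Nat) : Nat := Nat.add (kr U u r) (cor e o U r)

def spM (b W m x : Nat) : Nat := Nat.land (Nat.mul x (ones (Nat.sub W b) m)) (Nat.mul (mk b) (ones W m))
def us (b W m x : Nat) : Nat := Nat.add (spM b W m x) (nbo W m (Nat.sub b (nat_lit 1)))

def c8 (W W2 W4 : Nat) (f : Nat → Nat) (d lo : Nat) : Nat :=
  Nat.add (Nat.add (Nat.add (f lo) (Nat.shiftLeft (f (Nat.add lo d)) W))
      (Nat.shiftLeft (Nat.add (f (Nat.add lo (Nat.mul (nat_lit 2) d)))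
        (Nat.shiftLeft (f (Nat.add lo (Nat.mul (nat_lit 3) d))) W)) W2))
    (Nat.shiftLeft (Nat.add (Nat.add (f (Nat.add lo (Nat.mul (nat_lit 4) d)))
        (Nat.shiftLeft (f (Nat.add lo (Nat.mul (nat_lit 5) d))) W))
      (Nat.shiftLeft (Nat.add (f (Nat.add lo (Nat.mul (nat_lit 6) d)))
        (Nat.shiftLeft (f (Nat.add lo (Nat.mul (nat_lit 7) d))) W)) W2)) W4)
def g8 (W : Nat) (f : Nat → Nat) (m lo : Nat) : Nat :=
  cond (Nat.ble m lo) (nat_lit 0) (c8 W (Nat.mul (nat_lit 2) W) (Nat.mul (nat_lit 4) W) f (nat_lit 1) lo)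
def cat (W : Nat) (f : Nat → Nat) (m : Nat) : Nat :=
  Nat.rec (nat_lit 0) (fun j ih => Nat.add ih (Nat.shiftLeft
    (c8 (Nat.mul (nat_lit 8) W) (Nat.mul (nat_lit 16) W) (Nat.mul (nat_lit 32) W) (g8 W f m) (nat_lit 8)
      (Nat.mul (nat_lit 64) j))
    (Nat.mul (Nat.mul (nat_lit 64) j) W))) (Nat.shiftRight (Nat.add m (nat_lit 63)) (nat_lit 6))

def bs (b L c l : Nat) : Nat → Nat :=
  Nat.rec (fun lo => lo) (fun l ih lo => Nat.rec (ih lo) (fun lo' _ => ih lo')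
    (cond (Nat.ble (pc b L (Nat.add lo (mk l))) c) (nat_lit 0) (Nat.add (Nat.add lo (mk l)) (nat_lit 2)))) l
/-- position plus one of the code `c` among the first `m` fields of `L`, or `0` -/
def fnd (b L m c : Nat) : Nat :=
  fN (bs b L c (Nat.succ (Nat.log2 m)) (nat_lit 0)) fun p =>
    cond (Nat.ble m p) (nat_lit 0) (cond (Nat.beq (pc b L p) c) (Nat.succ p) (nat_lit 0))

def fe (T h i : Nat) : Nat :=
  Nat.land (Nat.shiftRight T (Nat.add (Nat.mul (nat_lit 24) i) h)) (nat_lit 4095)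
def tb (T h i : Nat) : Nat :=
  opt (fe T h i) fun m => Nat.succ (Nat.add (Nat.land m (nat_lit 63))
    (Nat.shiftLeft (Nat.shiftRight m (nat_lit 6)) (nat_lit 31)))
def fl (T h i : Nat) : Nat := opt (fe T h i) fun _ => nat_lit 1
def bas (s : Nat) : Nat :=
  Nat.add (Nat.shiftLeft (Nat.land (Nat.shiftRight s (nat_lit 11)) (nat_lit 1048575)) (nat_lit 6))
    (Nat.shiftLeft (Nat.shiftRight s (nat_lit 31)) (nat_lit 36))
def sel (T h s i : Nat) : Nat := Nat.add (tb T h i) (Nat.mul (bas s) (fl T h i))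
def st2 (T : Nat) (f : Nat → Nat) (s i : Nat) : Nat :=
  Nat.rec (Nat.rec (nat_lit 0) (fun s2 _ => f s2) (sel T (nat_lit 12) s i))
    (fun s1 _ => Nat.rec (f s1) (fun s2 _ => Nat.add (f s1) (f s2)) (sel T (nat_lit 12) s i))
    (sel T (nat_lit 0) s i)
def stp (T : Nat) (f : Nat → Nat) (s : Nat) : Nat :=
  Nat.rec (nat_lit 0) (fun i _ => st2 T f s i) (Nat.succ (Nat.land s (nat_lit 511)))
def sw (f : Nat → Nat) (i : Nat) : Nat → Nat := Nat.rec f (fun _ ih => stp T0 ih) i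

def zA (a : Nat) : Nat := pc (nat_lit 4) (nat_lit 0x654324332421065433210) a
def bA (a : Nat) : Nat := pc (nat_lit 4) (nat_lit 0x541113333000022222222) a
def bZ (z : Nat) : Nat := pc (nat_lit 4) (nat_lit 0x5423120) z
def zK (k : Nat) : Nat := pc (nat_lit 4) (nat_lit 0x20332222200006665444515411100656655) k
def bK (k : Nat) : Nat := pc (nat_lit 4) (nat_lit 0x33313233131203313313311205454542020) k
/-- kink after the turn, plus one -/
def tK (k : Nat) : Nat := pc (nat_lit 4) (nat_lit 0x4231650000) k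
def oc (w : Nat) : Nat := Nat.land (Nat.shiftRight (nat_lit 0xf0ff) (Nat.land w (nat_lit 31))) (nat_lit 1)
def noc4 (w : Nat) : Nat :=
  Nat.add (Nat.add (oc w) (oc (Nat.shiftRight w (nat_lit 5))))
    (Nat.add (oc (Nat.shiftRight w (nat_lit 10))) (oc (Nat.shiftRight w (nat_lit 15))))
def noc5 (w : Nat) : Nat := Nat.add (noc4 w) (oc (Nat.shiftRight w (nat_lit 20)))
def lo6 (s : Nat) : Nat := Nat.land s (nat_lit 63)
def hi (s : Nat) : Nat := Nat.shiftRight s (nat_lit 31)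
def st (k q : Nat) : Nat := Nat.add k (Nat.shiftLeft q (nat_lit 6))
def ad (tag i : Nat) : Nat := Nat.add tag (Nat.shiftLeft i (nat_lit 4))
def a2 (tag i j : Nat) : Nat := ad tag (Nat.add i (Nat.shiftLeft j (nat_lit 3)))

section
variable (g : Nat → Nat)
def bP : Nat := Nat.succ (pc (nat_lit 8) (g (nat_lit 0)) (nat_lit 0))
def b1 : Nat := Nat.succ (pc (nat_lit 8) (g (nat_lit 0)) (nat_lit 1))
def b2 : Nat := Nat.succ (pc (nat_lit 8) (g (nat_lit 0)) (nat_lit 2))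
def bM : Nat := Nat.succ (pc (nat_lit 8) (g (nat_lit 0)) (nat_lit 3))
def r4 (z : Nat) : Nat := pc (nat_lit 5) (g (nat_lit 16)) z
def r7 (z : Nat) : Nat := pc (nat_lit 6) (g (nat_lit 32)) z
def r9 (b : Nat) : Nat := pc (nat_lit 6) (g (nat_lit 48)) b
def nI (z : Nat) : Nat := pc (nat_lit 16) (g (nat_lit 64)) z
def n1 (z : Nat) : Nat := pc (nat_lit 16) (g (nat_lit 80)) z
def n2 (b : Nat) : Nat := pc (nat_lit 16) (g (nat_lit 96)) b
def nC (cs b5 : Nat) : Nat := pc (nat_lit 16) (g (nat_lit 112)) (Nat.add b5 (Nat.mul (nat_lit 8) cs))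
def phI (j : Nat) : Nat := Nat.succ (pc (nat_lit 8) (g (nat_lit 128)) j)
def phJ (j : Nat) : Nat := Nat.succ (pc (nat_lit 10) (g (nat_lit 144)) j)
def wI (j : Nat) : Nat := Nat.succ (pc (nat_lit 15) (g (nat_lit 160)) j)
def wJ (j : Nat) : Nat := Nat.succ (pc (nat_lit 16) (g (nat_lit 176)) j)
def psI (j : Nat) : Nat := Nat.succ (pc (nat_lit 24) (g (nat_lit 192)) j)
def psJ (j : Nat) : Nat := Nat.succ (pc (nat_lit 27) (g (nat_lit 208)) j)
def flg (k : Nat) : Nat := pc (nat_lit 1) (g (nat_lit 224)) k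
def il (z t : Nat) : Nat := pc (nat_lit 20) (g (ad (nat_lit 1) z)) t
def prow (z t : Nat) : Nat := pc (Nat.mul (bP g) (r4 g z)) (g (ad (nat_lit 2) z)) t
def j1 (z t : Nat) : Nat := pc (nat_lit 15) (g (ad (nat_lit 3) z)) t
def j2 (b t : Nat) : Nat := pc (nat_lit 10) (g (ad (nat_lit 5) b)) t
def cl (cs b5 u : Nat) : Nat := pc (nat_lit 25) (g (a2 (nat_lit 8) b5 cs)) u
def mx (k i j : Nat) : Nat := pc (bM g) (g (ad (nat_lit 7) k)) (Nat.add (Nat.mul (nat_lit 64) i) j)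
def q1 (z y t s : Nat) : Nat := pc (Nat.mul (b1 g) (r4 g z)) (g (a2 (nat_lit 4) y t)) s
def q2 (y b t s : Nat) : Nat := pc (Nat.mul (b2 g) (r7 g y)) (g (a2 (nat_lit 6) b t)) s
def fI (z c : Nat) : Nat := fnd (nat_lit 20) (g (ad (nat_lit 1) z)) (nI g z) c
def f1 (z c : Nat) : Nat := fnd (nat_lit 15) (g (ad (nat_lit 3) z)) (n1 g z) c
def f2 (b c : Nat) : Nat := fnd (nat_lit 10) (g (ad (nat_lit 5) b)) (n2 g b) c
def fC (cs b5 c : Nat) : Nat := fnd (nat_lit 25) (g (a2 (nat_lit 8) b5 cs)) (nC g cs b5) c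
/-- `k + 1` when the kink carries a value, else `0` -/
def kk (k : Nat) : Nat := cond (Nat.beq k (nat_lit 4)) (nat_lit 0) (Nat.mul (flg g k) (Nat.succ k))

def eM : Nat := Nat.sub (bM g) (nat_lit 1)
def e2 (e : Nat) : Nat := Nat.add (Nat.add (b2 g) (nat_lit 5)) e
def e1 (e : Nat) : Nat := Nat.add (Nat.add (b1 g) (nat_lit 5)) (e2 g e)
def e3 : Nat := Nat.add (e1 g (eM g)) (nat_lit 31)
def e4 : Nat := Nat.add (Nat.add (e3 g) (bP g)) (nat_lit 35)

variable (S n W : Nat)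
def U1 (z y t s : Nat) : Nat := us (b1 g) W (r4 g z) (q1 g z y t s)
def U2 (y b t s : Nat) : Nat := us (b2 g) W (r7 g y) (q2 g y b t s)
def dB2 (u : Nat → Nat) (e y b t : Nat) : Nat :=
  dc S (Nat.mul n (r7 g y)) (e2 g e)
    (krc (Nat.mul W (r7 g y)) (bo S n e) (U2 g W y b t) u (r9 g b))
def fB1 (u : Nat → Nat) (e z y b t2 t1 : Nat) : Nat :=
  krc (Nat.mul W (r4 g z)) (bo S n (e2 g e)) (U1 g W z y t1) (pc W (dB2 g S n W u e y b t2)) (r7 g y)

def ap0 (f : Nat → Nat) (z t : Nat) : Nat := f (noc4 (il g z t))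
def ap1 (f : Nat → Nat) (z i t : Nat) : Nat := Nat.mul (ap0 g f z t) (pc (bP g) (prow g z t) i)
def apN (f : Nat → Nat) (z : Nat) : Nat :=
  neg (Nat.mul W (nI g z)) (Nat.shiftLeft (cat W (ap0 g f z) (nI g z)) (Nat.sub (bP g) (nat_lit 1)))
def AP (f : Nat → Nat) (z i : Nat) : Nat := Nat.add (cat W (ap1 g f z i) (nI g z)) (apN g W f z)
def dY (u : Nat → Nat) (e eJ c z y b t2 t1 : Nat) : Nat :=
  dc S (Nat.mul n (r4 g z)) (Nat.add (e1 g e) eJ) (Nat.mul c (fB1 g S n W u e z y b t2 t1))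
def tg (u : Nat → Nat) (e : Nat) (f : Nat → Nat) (eJ c z y b t2 t1 : Nat) : Nat :=
  krc (Nat.mul W (nI g z)) (bo S n (Nat.add (e1 g e) eJ)) (AP g W f z)
    (pc W (dY g S n W u e eJ c z y b t2 t1)) (r4 g z)
def jw (y b t2 t1 : Nat) : Nat := Nat.add (j2 g b t2) (Nat.shiftLeft (j1 g y t1) (nat_lit 10))
def one1 (u : Nat → Nat) (e : Nat) (f : Nat → Nat) (eJ : Nat) (h : Nat → Nat) (F : Nat → Nat → Nat)
    (y b t2 t1 : Nat) : Nat :=
  fN (jw g y b t2 t1) fun J => fN (zA (Nat.shiftRight J (nat_lit 20))) fun z =>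
    Nat.land (Nat.add (F z J) (tg g S n W u e f eJ (h (noc5 J)) z y b t2 t1))
      (bo S (Nat.mul n (nI g z)) (Nat.sub S (nat_lit 1)))
def one2 (u : Nat → Nat) (e : Nat) (f : Nat → Nat) (eJ : Nat) (h : Nat → Nat) (F : Nat → Nat → Nat)
    (b t2 : Nat) : Nat :=
  fN (zA (Nat.shiftRight (j2 g b t2) (nat_lit 5))) fun y => sm (one1 g S n W u e f eJ h F y b t2) (n1 g y)
def allJ (u : Nat → Nat) (e : Nat) (f : Nat → Nat) (eJ : Nat) (h : Nat → Nat) (F : Nat → Nat → Nat)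
    (b : Nat) : Nat :=
  sm (one2 g S n W u e f eJ h F b) (n2 g b)

variable (c0 cs : Nat)
def mr (k s : Nat) : Nat := sm (fun t => Nat.shiftLeft (mx g k s (Nat.add c0 t)) (Nat.mul S t)) n
def mt (k s : Nat) : Nat :=
  sm (fun t => Nat.shiftLeft (Nat.sub (pw (bM g)) (mx g k (Nat.add c0 t) s)) (Nat.mul S t)) n
def mi (s : Nat) : Nat :=
  sm (fun t => Nat.shiftLeft (cond (Nat.beq s (Nat.add c0 t)) (nat_lit 2) (nat_lit 1)) (Nat.mul S t)) n

def fJ0 (z s : Nat) : Nat :=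
  opt (kk g (lo6 s)) fun k => fN (Nat.land (hi s) (nat_lit 1023)) fun c2 =>
  fN (Nat.shiftRight s (nat_lit 41)) fun c1 => fN (bA (Nat.land c2 (nat_lit 31))) fun b =>
  fN (zA (Nat.shiftRight c2 (nat_lit 5))) fun y => opt (f2 g b c2) fun t2 => opt (f1 g y c1) fun t1 =>
    Nat.mul (phJ g (noc5 (hi s))) (fB1 g S n W (mr g S n c0 k) (eM g) z y b t2 t1)
def dD (b5 z k u : Nat) : Nat :=
  fN (st k (cl g cs b5 u)) fun s => dc S (Nat.mul n (r4 g z)) (e3 g)
    (Nat.mul (wJ g (noc5 (cl g cs b5 u))) (sw (fJ0 g S n W c0 z) (nat_lit 5) s))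
def tN (b5 z k i : Nat) : Nat :=
  Nat.add (cat W (px (dD g S n W c0 cs b5 z k) W i) (nC g cs b5)) (nbo S (Nat.mul n (nC g cs b5)) (e3 g))
def fI0 (b5 s : Nat) : Nat :=
  fN (lo6 s) fun k => fN (zK k) fun z => fN (hi s) fun c => opt (fI g z c) fun t =>
    Nat.mul (phI g (noc4 c)) (krc (Nat.mul W (nC g cs b5)) (pw (Nat.sub (bP g) (nat_lit 1)))
      (tN g S n W c0 cs b5 z k) (pc (bP g) (prow g z t)) (r4 g z))
def fU0 (b5 s : Nat) : Nat :=
  opt (tK (lo6 s)) fun k => fN (st k (hi s)) fun s' =>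
    Nat.mul (wI g (noc4 (hi s))) (sw (fI0 g S n W c0 cs b5) (nat_lit 4) s')
def dX (b5 k z t : Nat) : Nat :=
  fN (st k (il g z t)) fun s => dc S (Nat.mul n (nC g cs b5)) (e4 g)
    (sw (stp T1 (fU0 g S n W c0 cs b5)) (nat_lit 3) s)
def fV0 (z s : Nat) : Nat :=
  fN (lo6 s) fun k => fN (bZ (zK k)) fun b5 => fN (hi s) fun c => opt (fC g cs b5 c) fun p =>
  fN (Nat.shiftRight p (nat_lit 6)) fun p1 =>
  fN (Nat.land (Nat.shiftRight p (nat_lit 3)) (nat_lit 7)) fun p2 => fN (Nat.land p (nat_lit 7)) fun p3 =>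
    Nat.add (cat W (px (px (px (dX g S n W c0 cs b5 k z) (Nat.mul (nat_lit 64) W) p1) (Nat.mul (nat_lit 8) W) p2)
      W p3) (nI g z)) (nbo S (Nat.mul n (nI g z)) (e4 g))
def fV (k z J : Nat) : Nat := fN (st k J) fun s => sw (fV0 g S n W c0 cs z) (nat_lit 5) s
def oneK (msk k : Nat) : Nat :=
  opt (pc (nat_lit 1) msk k) fun _ => fN (bK k) fun b =>
    allJ g S n W (mt g S n c0 k) (eM g) (psI g) (nat_lit 27) (psJ g) (fV g S n W c0 cs k) b

def okW : Bool :=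
  Nat.beq W (Nat.mul S n) && Nat.ble (Nat.mul (nat_lit 32) (b1 g)) W &&
    Nat.beq (sm (fun y => Nat.sub (Nat.mul (Nat.succ (r7 g y)) (b2 g)) W) (nat_lit 16)) (nat_lit 0)
def chkR (msk : Nat) : Bool :=
  cond (okW g S n W && Nat.ble (Nat.add (e4 g) (nat_lit 7)) S)
    (Nat.beq (sm (oneK g S n W c0 cs msk) (nat_lit 35)) (nat_lit 0)) false
def chkA (b : Nat) : Bool :=
  cond (okW g S n W && Nat.ble (Nat.add (Nat.add (e1 g (nat_lit 0)) (bP g)) (nat_lit 6)) S)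
    (Nat.beq (allJ g S n W (mi S n c0) (nat_lit 0) (fun _ => nat_lit 1) (nat_lit 0) (fun _ => nat_lit 1)
      (fun _ _ => nat_lit 0) b) (nat_lit 0)) false
end

inductive BT where
  | lf (x : Nat)
  | nd (l r : BT)

def get (t : BT) : Nat → Nat :=
  BT.rec (fun x _ => x) (fun _ _ l r h => cond (Nat.beq (Nat.land h (nat_lit 1)) (nat_lit 0))
    (l (Nat.shiftRight h (nat_lit 1))) (r (Nat.shiftRight h (nat_lit 1)))) t

end
end Pool.Agent.MP_6a06cd_co.KL.K
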