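import Pool.Agent.MP_6a06cd_co.KL.Spec

/-! Row Cor: the four corner normalisations agree. -/

namespace Pool.Agent.MP_6a06cd_co.KL

open Finset H45
open scoped NNReal ENNReal Classical

namespace Cor

theorem uu_add (p v : Cell) : uu (p + v) = uu p + uu v := by
  simp only [uu, Prod.fst_add, Prod.snd_add]
  ring

theorem ww_add (p v : Cell) : ww (p + v) = ww p + ww v := by
  simp only [ww, Prod.fst_add, Prod.snd_add]
  ring

theorem uu_kk (k : ℤ) : uu (k, k) = 0 := sub_self k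

theorem all_sh {v : Cell} {P : Finset Cell} {φ : Cell → Prop} :
    (∀ p ∈ sh v P, φ p) ↔ ∀ p ∈ P, φ (p + v) := forall_mem_image

theorem mem_sh {v c : Cell} {P : Finset Cell} : c + v ∈ sh v P ↔ c ∈ P := by simp [sh]

theorem cell_eq {a b : Cell} (h : uu a = uu b) (h' : ww a = ww b) : a = b := by
  simp only [uu, ww] at h h'
  exact Prod.ext (by omega) (by omega)

/-- a translation invariant choice of one cell on each occupied line -/
structure Good (T : Cell → Finset Cell → Prop) : Prop where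
  inv : ∀ c v P, T (c + v) (sh v P) ↔ T c P
  ex : ∀ P : Finset Cell, ∀ p ∈ P, ∃ c, uu c = uu p ∧ T c P
  un : ∀ c c' P, uu c = uu c' → T c P → T c' P → c = c'

theorem good_bot : Good Bot where
  inv c v P := by simp only [Bot, mem_sh, all_sh, uu_add, ww_add, add_left_inj, add_le_add_iff_right]
  ex P p hp := by
    obtain ⟨c, h1, h2⟩ := (P.filter fun q => uu q = uu p).exists_min_image ww
      ⟨p, mem_filter.2 ⟨hp, rfl⟩⟩
    rw [mem_filter] at h1
    exact ⟨c, h1.2, h1.1, fun q a b => h2 q (mem_filter.2 ⟨a, b.trans h1.2⟩)⟩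
  un c c' P h a b := cell_eq h (le_antisymm (a.2 c' b.1 h.symm) (b.2 c a.1 h))

theorem good_top : Good Top where
  inv c v P := by simp only [Top, mem_sh, all_sh, uu_add, ww_add, add_left_inj, add_le_add_iff_right]
  ex P p hp := by
    obtain ⟨c, h1, h2⟩ := (P.filter fun q => uu q = uu p).exists_max_image ww
      ⟨p, mem_filter.2 ⟨hp, rfl⟩⟩
    rw [mem_filter] at h1
    exact ⟨c, h1.2, h1.1, fun q a b => h2 q (mem_filter.2 ⟨a, b.trans h1.2⟩)⟩
  un c c' P h a b := cell_eq h (le_antisymm (b.2 c a.1 h) (a.2 c' b.1 h.symm))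

theorem Good.fn {T : Cell → Finset Cell → Prop} (g : Good T) (c : Cell) :
    ∃ f : Finset Cell → ℤ, ∀ P : Finset Cell, (∃ p ∈ P, uu p = uu c) →
      ∀ m : ℤ, f P = m ↔ T (c + (m, m)) P := by
  refine ⟨fun P => if h : ∃ m : ℤ, T (c + (m, m)) P then h.choose else 0, ?_⟩
  rintro P ⟨p, hp, e⟩ m
  obtain ⟨c0, h1, h2⟩ := g.ex P p hp
  have h : ∃ m : ℤ, T (c + (m, m)) P := ⟨c0.1 - c.1, by
    rw [e] at h1
    simp only [uu] at h1
    convert h2 using 1
    exact Prod.ext (by simp) (by simp; omega)⟩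
  simp only [dif_pos h]
  refine ⟨fun k => k ▸ h.choose_spec, fun k => ?_⟩
  have := g.un _ _ P (by rw [uu_add, uu_add, uu_kk, uu_kk]) h.choose_spec k
  exact (Prod.mk.inj (add_left_cancel this)).1

theorem key (H : SHt) (x : ℝ≥0) {T T' : Cell → Finset Cell → Prop} (g : Good T) (g' : Good T')
    (lo hi : ℤ) (R : Finset Cell → Prop) (hR : ∀ P (k : ℤ), R P → R (sh (k, k) P)) (c c' : Cell)
    (h1 : lo ≤ uu c) (h2 : uu c ≤ hi) (h3 : lo ≤ uu c') (h4 : uu c' ≤ hi) :
    gf x {P | P ∈ An lo hi ∧ T c P ∧ R P} = gf x {P | P ∈ An lo hi ∧ T' c' P ∧ R P} := by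
  obtain ⟨f, hf⟩ := g.fn c
  obtain ⟨f', hf'⟩ := g'.fn c'
  have a1 : ∀ P ∈ An lo hi, ∀ k : ℤ, sh (k, k) P ∈ An lo hi := fun P hP k => by
    have := (H.2.2.1 lo hi (k, k) P).2 hP
    rwa [uu_kk, add_zero, add_zero] at this
  have a2 : ∀ {T : Cell → Finset Cell → Prop} (c : Cell) (f : Finset Cell → ℤ), Good T →
      lo ≤ uu c → uu c ≤ hi → (∀ P : Finset Cell, (∃ p ∈ P, uu p = uu c) →
        ∀ m : ℤ, f P = m ↔ T (c + (m, m)) P) →
      (∀ P ∈ An lo hi, ∀ k : ℤ, f (sh (k, k) P) = f P + k) ∧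
        {P | P ∈ An lo hi ∧ T c P ∧ R P} = {P | P ∈ {P | P ∈ An lo hi ∧ R P} ∧ f P = 0} :=
    fun c f g h1 h2 hf => ⟨fun P hP k => by
      refine (hf _ (H.2.2.2 lo hi _ _ (a1 P hP k) h1 h2) _).2 ?_
      rw [← Prod.mk_add_mk, ← add_assoc, g.inv]
      exact (hf _ (H.2.2.2 lo hi _ _ hP h1 h2) _).1 rfl, Set.ext fun P => by
      have e : c + ((0 : ℤ), (0 : ℤ)) = c := add_zero c
      refine ⟨fun h => ⟨⟨h.1, h.2.2⟩, ?_⟩, fun h => ⟨h.1.1, ?_, h.1.2⟩⟩
      · exact (hf _ (H.2.2.2 lo hi _ _ h.1 h1 h2) 0).2 (e.symm ▸ h.2.1)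
      · exact e ▸ (hf _ (H.2.2.2 lo hi _ _ h.1.1 h1 h2) 0).1 h.2⟩
  obtain ⟨b1, b2⟩ := a2 c f g h1 h2 hf
  obtain ⟨b3, b4⟩ := a2 c' f' g' h3 h4 hf'
  rw [b2, b4]
  exact H.1 x _ f f' fun P hP k => ⟨⟨a1 P hP.1 k, hR P k hP.2⟩, b1 P hP.1 k, b3 P hP.1 k⟩

theorem cutU_sh (P : Finset Cell) (k i : ℤ) : CutU (sh (k, k) P) i ↔ CutU P i := by
  simp only [CutU, all_sh, uu_add, ww_add, uu_kk, add_zero, add_lt_add_iff_right]

theorem cutD_sh (P : Finset Cell) (k i : ℤ) : CutD (sh (k, k) P) i ↔ CutD P i := by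
  simp only [CutD, all_sh, uu_add, ww_add, uu_kk, add_zero, add_lt_add_iff_right]

theorem noCut_sh (P : Finset Cell) (k i : ℤ) : NoCut (sh (k, k) P) i ↔ NoCut P i := by
  simp only [NoCut, cutU_sh, cutD_sh]

end Cor

open Cor in
theorem rowCor : OfCor := by
  intro H
  have z : uu (0, 0) = 0 := rfl
  refine ⟨fun x d c hd => ?_, fun x d c hd hc => ?_, fun x d i c hi hd hc => ?_⟩
  · have e1 : gf x {P | P ∈ An (uu c) (uu c + d - 1) ∧ Bot c P} = B x d := by
      rw [← H.2.1 x _ c, B]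
      congr 1
      ext P
      have a := H.2.2.1 0 (d - 1) c P
      have b := good_bot.inv (0, 0) c P
      rw [zero_add, show (d : ℤ) - 1 + uu c = uu c + d - 1 by ring] at a
      rw [show ((0 : ℤ), (0 : ℤ)) + c = c from zero_add c] at b
      exact and_congr a b
    refine ⟨e1, ?_⟩
    have e2 := key H x good_top good_bot (uu c) (uu c + d - 1) (fun _ => True) (fun _ _ h => h) c c
      le_rfl (by omega) le_rfl (by omega)
    simp only [and_true] at e2
    exact e2.trans e1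
  · exact ⟨key H x good_top good_bot 0 (d - 1) (NoCut · d) (fun P k h => (noCut_sh P k _).2 h) c
      (0, 0) (by omega) (by omega) (by omega) (by omega),
      key H x good_bot good_bot 0 (d - 1) (NoCut · d) (fun P k h => (noCut_sh P k _).2 h) c
      (0, 0) (by omega) (by omega) (by omega) (by omega)⟩
  · exact ⟨key H x good_top good_bot 0 (d - 1) (fun P => NoCut P i ∧ CutU P i)
      (fun P k h => ⟨(noCut_sh P k _).2 h.1, (cutU_sh P k _).2 h.2⟩) c
      (0, 0) (by omega) (by omega) (by omega) (by omega),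
      key H x good_bot good_bot 0 (d - 1) (fun P => NoCut P i ∧ CutD P i)
      (fun P k h => ⟨(noCut_sh P k _).2 h.1, (cutD_sh P k _).2 h.2⟩) c
      (0, 0) (by omega) (by omega) (by omega) (by omega)⟩

end Pool.Agent.MP_6a06cd_co.KL
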