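import Pool.Agent.MP_6a06cd_co.KL.Spec3

/-! Reading the digits of a packed vector. -/

namespace Pool.Agent.MP_6a06cd_co.KL

open Finset K

namespace Dc

theorem pk_succ (S N : ℕ) (x : ℕ → ℤ) :
    pk S (N + 1) x = x 0 + 2 ^ S * pk S N fun t => x (t + 1) := by
  rw [pk, sum_range_succ', pk, mul_sum, add_comm]
  simp only [mul_zero, pow_zero, mul_one, mul_add, pow_add]
  exact congrArg _ (sum_congr rfl fun t _ => by ring)

theorem dig (S N : ℕ) : ∀ (Y : ℕ) (x : ℕ → ℤ), Rq S N Y x →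
    (∀ t < N, |((Y / 2 ^ (S * t) % 2 ^ S : ℕ) : ℤ) - x t| < 2 ^ S) →
    ∀ t < N, ((Y / 2 ^ (S * t) % 2 ^ S : ℕ) : ℤ) = x t := by
  induction N with
  | zero => exact fun _ _ _ _ t ht => absurd ht (Nat.not_lt_zero t)
  | succ N ih =>
    intro Y x h hb
    have e : ∀ t, Y / 2 ^ (S * (t + 1)) = Y / 2 ^ S / 2 ^ (S * t) := fun t => by
      rw [Nat.div_div_eq_div_mul, ← pow_add, mul_add, mul_one, add_comm]
    obtain ⟨c, hc⟩ := h.dvd
    have hY : (Y : ℤ) = ((Y % 2 ^ S : ℕ) : ℤ) + 2 ^ S * ((Y / 2 ^ S : ℕ) : ℤ) := by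
      exact_mod_cast (Nat.mod_add_div Y (2 ^ S)).symm
    rw [pk_succ, hY, mul_add S, mul_one, pow_add] at hc
    have h0 := hb 0 N.succ_pos
    rw [mul_zero, pow_zero, Nat.div_one] at h0
    have h1 : ((Y % 2 ^ S : ℕ) : ℤ) - x 0 = 0 := Int.eq_zero_of_abs_lt_dvd
      ⟨pk S N (fun t => x (t + 1)) - ((Y / 2 ^ S : ℕ) : ℤ) - 2 ^ (S * N) * c, by
        linear_combination -hc⟩ h0
    have h2 := ih (Y / 2 ^ S) (fun t => x (t + 1)) (Int.modEq_of_dvd ⟨c, mul_left_cancel₀
      (pow_ne_zero S two_ne_zero) (by linear_combination hc + h1)⟩) fun t ht => by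
        rw [← e]
        exact hb _ (Nat.succ_lt_succ ht)
    intro t ht
    cases t with
    | zero => rw [mul_zero, pow_zero, Nat.div_one, sub_eq_zero.1 h1]
    | succ t =>
      rw [e]
      exact h2 t (Nat.lt_of_succ_lt_succ ht)

theorem pk_bd (S N : ℕ) : ∀ x : ℕ → ℤ, (∀ t < N, 0 ≤ x t ∧ x t < 2 ^ S) →
    0 ≤ pk S N x ∧ pk S N x < 2 ^ (S * N) := by
  induction N with
  | zero => exact fun _ _ => by simp [pk]
  | succ N ih =>
    intro x h
    obtain ⟨a, b⟩ := ih (fun t => x (t + 1)) fun t ht => h _ (Nat.succ_lt_succ ht)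
    obtain ⟨c, d⟩ := h 0 N.succ_pos
    have p : (0 : ℤ) < 2 ^ S := by positivity
    rw [pk_succ, mul_add, mul_one, pow_add]
    exact ⟨by positivity, by nlinarith [mul_le_mul_of_nonneg_left (Int.add_one_le_iff.2 b) p.le]⟩

theorem flat (S n m : ℕ) (x : ℕ → ℤ) :
    pk S (n * m) x = pk (S * n) m fun i => pk S n fun t => x (n * i + t) := by
  induction m with
  | zero => simp [pk]
  | succ m ih =>
    unfold pk at ih ⊢
    rw [mul_add, mul_one, sum_range_add, ih, sum_range_succ, sum_mul]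
    exact congrArg _ (sum_congr rfl fun t _ => by ring)

theorem bo_eq (h : SBas) {S : ℕ} (hS : 1 ≤ S) (N e : ℕ) :
    (bo S N e : ℤ) = pk S N fun _ => 2 ^ e := by
  have e1 : bo S N e = ones S N * 2 ^ e := Nat.shiftLeft_eq _ _
  rw [e1, h.2.2.2.2.2.2.2.1 S N hS, pk, ← mul_sum, mul_comm]
  push_cast
  rfl

end Dc

open Dc in
theorem rowDc : OfDc := by
  intro h
  refine ⟨fun S n m e Y y hY hy he i hi => ?_, fun S n m Y y hY hy hS h0 i t hi ht => ?_,
    fun W ρ D a b hb => ?_⟩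
  · have e1 : dc S (n * m) e Y = (Y + bo S (n * m) e) % 2 ^ (S * n * m) := by
      show (Y + bo S (n * m) e) &&& mk (S * (n * m)) = _
      rw [(h.1 _).2, Nat.and_two_pow_sub_one_eq_mod, mul_assoc]
    have e2 : ∀ i, pk S n (y i) + 2 ^ e * o1 S n = pk S n fun t => y i t + 2 ^ e := fun i => by
      simp only [o1, pk, mul_sum, add_mul, sum_add_distrib, one_mul]
    rw [h.2.1]
    refine dig (S * n) m _ (fun i => pk S n (y i) + 2 ^ e * o1 S n) ?_ (fun j hj => ?_) i hi
    · have e3 : pk (S * n) m (fun i => pk S n (y i) + 2 ^ e * o1 S n) =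
          pk (S * n) m (fun i => pk S n (y i)) + bo S (n * m) e := by
        rw [bo_eq h (by omega), flat]
        simp only [o1, pk, mul_sum, add_mul, sum_add_distrib, one_mul]
      rw [Rq, e3, e1]
      push_cast
      exact (Int.mod_modEq _ _).trans (Int.ModEq.add_right _ hY)
    · obtain ⟨a, b⟩ := pk_bd S n (fun t => y j t + 2 ^ e) fun t ht => by
        have h1 := abs_le.1 (hy j t hj ht)
        have h2 : (2 : ℤ) ^ (e + 2) ≤ 2 ^ S := pow_le_pow_right₀ one_le_two he
        have h3 : (0 : ℤ) < 2 ^ e := by positivity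
        rw [pow_add] at h2
        constructor <;> linarith
      have c : ((dc S (n * m) e Y / 2 ^ (S * n * j) % 2 ^ (S * n) : ℕ) : ℤ) < 2 ^ (S * n) := by
        exact_mod_cast Nat.mod_lt _ (Nat.two_pow_pos _)
      rw [e2, abs_lt]
      constructor <;> linarith [Int.natCast_nonneg (dc S (n * m) e Y / 2 ^ (S * n * j) % 2 ^ (S * n))]
  · obtain ⟨s, rfl⟩ : ∃ s, S = s + 1 := ⟨S - 1, by omega⟩
    rw [Nat.add_sub_cancel] at hy h0
    have p : (0 : ℤ) < 2 ^ s := by positivity
    have n0 : 0 < n := by omega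
    have hx : Rq (s + 1) (n * m) Y fun u => y (u / n) (u % n) := by
      rw [Rq, flat, ← mul_assoc]
      have : (fun j => pk (s + 1) n fun r => y ((n * j + r) / n) ((n * j + r) % n)) =
          fun j => pk (s + 1) n (y j) := funext fun j => sum_congr rfl fun r hr => ?_
      · rw [this]
        exact hY
      show y ((n * j + r) / n) ((n * j + r) % n) * _ = _
      rw [Nat.mul_add_div n0, Nat.mul_add_mod, Nat.div_eq_of_lt (mem_range.1 hr),
        Nat.mod_eq_of_lt (mem_range.1 hr), add_zero]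
    have lt : ∀ Y u : ℕ, ((Y / 2 ^ ((s + 1) * u) % 2 ^ (s + 1) : ℕ) : ℤ) < 2 ^ (s + 1) :=
      fun Y u => by exact_mod_cast Nat.mod_lt _ (Nat.two_pow_pos _)
    have hB := dig (s + 1) (n * m) (bo (s + 1) (n * m) s) (fun _ => 2 ^ s)
      (by rw [Rq, bo_eq h hS]) fun u _ => by
        have a := lt (bo (s + 1) (n * m) s) u
        rw [pow_succ (2 : ℤ)] at a ⊢
        rw [abs_lt]
        constructor <;>
          linarith [Int.natCast_nonneg (bo (s + 1) (n * m) s / 2 ^ ((s + 1) * u) % 2 ^ (s + 1))]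
    have hD := dig (s + 1) (n * m) Y _ hx (fun u hu => by
      have a : bo (s + 1) (n * m) s / 2 ^ ((s + 1) * u) % 2 ^ (s + 1) = 2 ^ s := by
        exact_mod_cast hB u hu
      have b := congrArg (·.testBit s) a
      have c := congrArg (·.testBit (s + (s + 1) * u)) (show Y &&& bo (s + 1) (n * m) s = 0 from h0)
      simp only [Nat.testBit_mod_two_pow, Nat.testBit_div_two_pow, Nat.testBit_two_pow_self,
        Bool.and_eq_true] at b
      simp only [Nat.testBit_and, b.2, Bool.and_true, Nat.zero_testBit] at c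
      have d : Y / 2 ^ ((s + 1) * u) % 2 ^ (s + 1) < 2 ^ s := Nat.lt_pow_two_of_testBit _ fun r hr => by
        rw [Nat.testBit_mod_two_pow, Nat.testBit_div_two_pow]
        rcases hr.eq_or_lt with rfl | hr
        · simp [c]
        · simp [show ¬ r < s + 1 by omega]
      have d' : ((Y / 2 ^ ((s + 1) * u) % 2 ^ (s + 1) : ℕ) : ℤ) < 2 ^ s := by exact_mod_cast d
      have f := abs_lt.1 (hy (u / n) (u % n) (Nat.div_lt_of_lt_mul hu) (Nat.mod_lt _ n0))
      rw [pow_succ (2 : ℤ), abs_lt]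
      constructor <;> linarith [Int.natCast_nonneg (Y / 2 ^ ((s + 1) * u) % 2 ^ (s + 1))])
      (n * i + t) (by nlinarith)
    rw [Nat.mul_add_div n0, Nat.mul_add_mod, Nat.div_eq_of_lt ht, Nat.mod_eq_of_lt ht,
      add_zero] at hD
    exact hD ▸ Int.natCast_nonneg _
  · rw [h.2.1, h.2.1, h.2.1]
    refine Nat.eq_of_testBit_eq fun r => ?_
    simp only [Nat.testBit_mod_two_pow, Nat.testBit_div_two_pow]
    by_cases hr : r < W
    · have : r + W * b < ρ * W := by nlinarith
      simp only [hr, this, decide_true, Bool.true_and]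
      congr 1
      ring
    · simp [hr]

end Pool.Agent.MP_6a06cd_co.KL
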