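import Pool.Agent.MP_6a06cd_co.KL.Spec

/-! The computed connections between the seven nodes are true connections. -/

namespace Pool.Agent.MP_6a06cd_co.KL

open Finset H45

namespace Ed

theorem xocc (c : ℕ) (h : xB (aB c) = true) : occ c = true := by
  rcases lt_or_ge c 21 with k | k
  · interval_cases c <;> first | rfl | exact absurd h (by decide)
  · rw [aB, List.getD_eq_default _ _ (by simpa using k)] at h
    exact absurd h (by decide)

theorem hkeep (c : ℕ) (h : hB (aB c) = true) : keep c = true := by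
  rcases lt_or_ge c 21 with k | k
  · interval_cases c <;> first | rfl | exact absurd h (by decide)
  · rw [aB, List.getD_eq_default _ _ (by simpa using k)] at h
    exact absurd h (by decide)

theorem hr (z : ℕ) (h : hR z = true) : z = 4 ∨ hB (rB z) = true := by
  simp only [hR, Bool.or_eq_true, beq_iff_eq] at h
  rcases h with (rfl | rfl) | rfl <;> simp [hB, rB]

theorem two {R : ℕ → ℕ → Prop} (tr : ∀ a b c, R a b → R b c → R a c) {f : ℕ → ℕ → Bool}
    (h : ∀ i j, f i j = true → R i j) (i j : ℕ) (k : cn2 f i j = true) : R i j := by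
  simp only [cn2, Bool.or_eq_true, List.any_eq_true, Bool.and_eq_true] at k
  rcases k with k | ⟨m, -, k1, k2⟩
  · exact h _ _ k
  · exact tr _ _ _ (h _ _ k1) (h _ _ k2)

end Ed

theorem rowEd : OfEd := by
  rintro ⟨w1, w2, w3, -, w5, w6, -⟩ P τ a k c w αL α' αR oc h1 h2 h3 hA hc ho hw hz hk hj hl
    ⟨l1, l2, l3, -, l5, l6⟩ -
  have sub : P ⊆ if oc then insert τ P else P := by
    split_ifs
    · exact subset_insert _ _
    · exact Subset.rfl
  have up : ∀ {u v}, C P u v → C (if oc then insert τ P else P) u v := w1 _ _ _ _ sub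
  have rf : ∀ {u}, u ∈ P → C (if oc then insert τ P else P) u u := fun h => ⟨sub h, .refl⟩
  have new : ∀ {u}, oc = true → u ∈ P → ET 18 τ u → C (if oc then insert τ P else P) τ u :=
    fun h hu he => ⟨by simp [h], .single ⟨Or.inl he, sub hu⟩⟩
  have key : ∀ i j, ed k c oc i j = true → C (if oc then insert τ P else P)
      (nd τ (τ - 2 * a.length) αL α' αR i) (nd τ (τ - 2 * a.length) αL α' αR j) := by
    intro i j h
    unfold ed at h
    split at h
    · rcases Ed.hr _ h with e | e
      · exact rf (l1 e).1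
      · obtain ⟨y, -, hy⟩ := w6 _ _ _ _ _ hA e
        exact rf hy.1
    · exact rf (w5 _ _ _ _ _ hA h).2.2
    · exact up (l1 (beq_iff_eq.1 h))
    · exact rf (ho (Ed.xocc _ (hc ▸ h)))
    · exact rf (w5 _ _ _ _ _ hw h).2.2
    · rcases Ed.hr _ h with e | e
      · exact rf (hz e).1
      · obtain ⟨y, -, hy⟩ := w6 _ _ _ _ _ hw e
        exact rf hy.1
    · exact rf (w2 _ _ _ (hk (Ed.hkeep _ (hc ▸ h)))).2
    · exact up (hz (beq_iff_eq.1 h))
    · exact up (hk h)
    · exact up (hj h)
    · exact up (hl h)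
    · exact up (l2 (beq_iff_eq.1 h))
    · exact up (l3 (beq_iff_eq.1 h))
    · exact up (l5 h)
    · exact up (l6 h)
    · exact ⟨by simp [h, nd], .refl⟩
    · rw [Bool.and_eq_true] at h
      exact new (u := τ - 2 * a.length - 1) h.1 (ho (Ed.xocc _ (hc ▸ h.2)))
        ⟨by omega, Or.inl (by omega)⟩
    · rw [Bool.and_eq_true] at h
      obtain ⟨a1, -, a2⟩ := w5 _ _ _ _ _ hw h.2
      have := List.length_pos_iff.2 a1
      exact new (u := τ - 2 * a.length - 2) h.1 a2 ⟨by omega, Or.inr (by omega)⟩
    · exact absurd h (by decide)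
  have tr := fun i j l => w3 (if oc then insert τ P else P) (nd τ (τ - 2 * a.length) αL α' αR i)
    (nd τ (τ - 2 * a.length) αL α' αR j) (nd τ (τ - 2 * a.length) αL α' αR l)
  refine Ed.two tr (Ed.two tr fun i j h => ?_)
  rw [cn1, Bool.or_eq_true] at h
  exact h.elim (key i j) fun h => (w2 _ _ _ (key j i h)).1

end Pool.Agent.MP_6a06cd_co.KL
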