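import Pool.Agent.MP_6a06cd_co.KL.Spec

/-! The ends of a row, the start and the end of the sweep. -/

namespace Pool.Agent.MP_6a06cd_co.KL

namespace End

theorem tn_facts (k : ℕ) (h : tn k < 35) : kB (tn k) = rB (kZ k) ∧ rB (kZ (tn k)) = kB k ∧
    kZ (tn k) ≠ 4 ∧ kF (tn k) = 0 ∧ kA (tn k) = false ∧ kS (tn k) = false ∧
    (tn k = 5 ↔ k = 5) ∧ (k = 4 → tn k = 4) := by
  have hk : k < 10 := by
    by_contra hk
    rw [tn, List.getD_eq_default _ _ (by simpa using hk)] at h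
    exact absurd h (lt_irrefl _)
  revert h
  interval_cases k <;> decide

theorem wb_empty (m e α : ℕ) (h : m + 1 ≤ e) : Wb ∅ (List.replicate m 19) e 4 α := by
  induction m generalizing e α with
  | zero => exact Or.inl rfl
  | succ m ih =>
    exact ⟨rfl, by decide, by omega, fun h => absurd h (by decide), α, ih (e - 1) α (by omega),
      fun h => absurd h (by decide), fun h => absurd h (by decide), fun h => absurd h (by decide),
      fun h => absurd h (by decide)⟩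

theorem ar1 {τ l : ℕ} (h2 : l + 0 = 18) (h3 : (τ - l) % 18 = 0) (h4 : 36 + l ≤ τ) :
    0 + l = 18 ∧ (τ - 0) % 18 = 0 ∧ 36 + 0 ≤ τ ∧ (τ - 2 * l) % 36 = τ % 36 := by omega

theorem ar2 {τ l m : ℕ} (h2 : l + m = 18) (h3 : (τ - l) % 18 = 0) (h4 : 36 + l ≤ τ) (h : 0 < m) :
    l ≤ τ ∧ m ≤ τ - 2 * l ∧ (∀ y, y < τ ∧ τ ≤ y + l → Fr 18 τ y) ∧
      ∀ y, y < τ - 2 * l ∧ τ - 2 * l ≤ y + m → Fr 18 τ y :=
  ⟨by omega, by omega, fun y r => ⟨r.1, Or.inl (by omega)⟩,
    fun y r => ⟨by omega, Or.inr ⟨by omega, by omega⟩⟩⟩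

end End

open End in
theorem rowEnd : OfEnd := by
  rintro ⟨-, -, -, -, -, -, w7, -, -, w10⟩
  refine ⟨?_, ?_, ?_, ?_, ?_⟩
  · rintro t0 win τ P a k hk ⟨-, h2, h3, h4, h5, h6, ⟨αL, αR, h7, h8, -⟩, h9, h10⟩
    obtain ⟨f1, f2, f3, f4, f5, f6, f7, f8⟩ := tn_facts k hk
    obtain ⟨a1, a2, a3, a4⟩ := ar1 h2 h3 h4
    refine ⟨hk, a1, a2, a3, h5, h6, ⟨αR, αL, ?_, by rw [f1]; exact h7, fun h => absurd h f3,
      fun h => absurd (f4.symm.trans h) (by decide), fun h => absurd (f4.symm.trans h) (by decide),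
      fun h => absurd (f4.symm.trans h) (by decide),
      fun h => absurd (f5.symm.trans h) (by decide), fun h => absurd (f6.symm.trans h) (by decide)⟩,
      fun h => h9 (f7.1 h), fun h => ?_⟩
    · rw [f2]
      refine Or.imp_right (fun h => ⟨h.1, ?_⟩) h8
      obtain ⟨σ, hσ, e⟩ := h.2
      exact ⟨σ, hσ, e.trans a4⟩
    · obtain ⟨g1, g2⟩ := h10 fun e => h (f7.2 e)
      refine ⟨fun p hp => ?_, g2.imp_right fun e => ⟨f8 e.1, e.2⟩⟩
      obtain ⟨y, hy, hc⟩ := g1 p hp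
      exact ⟨y, Or.inr (hy.resolve_right id), hc⟩
  · intro t0 h1 h2
    have e : (List.replicate 9 19).length = 9 := List.length_replicate
    refine ⟨by decide, by rw [e], by rw [e]; omega, by rw [e]; omega, le_rfl,
      fun p hp => absurd hp (Finset.notMem_empty p),
      ⟨0, 0, wb_empty 9 _ 0 (by omega), wb_empty 9 _ 0 (by rw [e]; omega),
        fun h => absurd h (by decide), fun h => absurd h (by decide), fun h => absurd h (by decide),
        fun h => absurd h (by decide), fun h => absurd h (by decide), fun h => absurd h (by decide)⟩,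
      fun h => absurd h (by decide),
      fun _ => ⟨fun p hp => absurd hp (Finset.notMem_empty p), Or.inr ⟨rfl, trivial⟩⟩⟩
  · rintro t0 win τ P a k b ⟨h1, h2, h3, h4, h5, h6, h7, h9, h10⟩ hk
    exact ⟨h1, h2, h3, h4, h5, h6, h7, h9, fun h =>
      ⟨(h10 h).1, Or.inl ((h10 h).2.resolve_right fun e => hk e.1)⟩⟩
  · rintro t0 τ P a k b ⟨-, h2, h3, h4, -, h6, -, -, h10⟩ hb hk
    obtain ⟨g1, g2⟩ := h10 hk
    obtain ⟨a1, a2, a3, a4⟩ := ar2 h2 h3 h4 (List.length_pos_iff.2 hb)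
    refine ⟨h6, fun p hp => ?_, g2.resolve_right fun e => e.2⟩
    obtain ⟨y, hy, hc⟩ := g1 p hp
    exact ⟨y, hy.elim (fun h => a3 y (w10 a τ y a1 h)) fun h => a4 y (w10 b _ y a2 h), hc⟩
  · rintro t0 win τ P a k b ⟨h1, h2, -, -, -, -, ⟨αL, αR, h7, h8, -⟩, -⟩
    exact ⟨h1, h2, (w7 _ _ _ _ _ h7).1, (w7 _ _ _ _ _ h8).1⟩

end Pool.Agent.MP_6a06cd_co.KL
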