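/-! Exact machine for narrow strips. A state is the `n × n` bit matrix of the connections between the frontier
slots plus two flags; `p` counts the cells left in the period of `2 n` cells after the current one. -/

namespace Pool.Agent.MP_6a06cd_co.KL.X
noncomputable section

def pw (e : Nat) : Nat := Nat.shiftLeft (nat_lit 1) e
def ones (n m : Nat) : Nat := Nat.rec (nat_lit 0) (fun i ih => Nat.add ih (pw (Nat.mul n i))) m
/-- slot written, neighbouring slot, line, flag `1` when the neighbour exists -/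
def sl (n p : Nat) : Nat := cond (Nat.ble n p) (Nat.sub (Nat.sub (Nat.mul (nat_lit 2) n) (nat_lit 1)) p) p
def nb (n p : Nat) : Nat := cond (Nat.ble n p) (Nat.sub (Nat.mul (nat_lit 2) n) p) (Nat.sub p (nat_lit 1))
def ul (n p : Nat) : Nat :=
  cond (Nat.ble n p) (Nat.add (Nat.mul (nat_lit 2) (sl n p)) (nat_lit 1)) (Nat.mul (nat_lit 2) p)
def hn (n p : Nat) : Nat := cond (Nat.beq (Nat.mod p n) (nat_lit 0)) (nat_lit 0) (nat_lit 1)
def cM (n : Nat) : Nat := Nat.sub (pw n) (nat_lit 1)
def cP (n : Nat) : Nat := pw n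
def cO (n : Nat) : Nat := ones n n
def cS (n p : Nat) : Nat := Nat.mul n (sl n p)
def cS2 (n p : Nat) : Nat := Nat.mul n (nb n p)
def cb (n p : Nat) : Nat := pw (sl n p)
def cD (n p : Nat) : Nat := pw (cS n p)
def cM2 (n p : Nat) : Nat := Nat.mul (cM n) (hn n p)
def cO2 (n p : Nat) : Nat := Nat.mul (cO n) (hn n p)
def cC (n p : Nat) : Nat := Nat.xor (Nat.sub (pw (Nat.add (Nat.mul n n) (nat_lit 2))) (nat_lit 1))
  (Nat.lor (Nat.shiftLeft (cM n) (cS n p)) (Nat.shiftLeft (cO n) (sl n p)))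
def cF (n lo p : Nat) : Nat := Nat.lor (cond (Nat.beq (ul n p) lo) (pw (Nat.mul n n)) (nat_lit 0))
  (cond (Nat.beq (ul n p) (Nat.sub (Nat.mul (nat_lit 2) n) (nat_lit 1))) (pw (Nat.add (Nat.mul n n) (nat_lit 1)))
    (nat_lit 0))
def cA (n lo p : Nat) : Nat := cond (Nat.ble lo (ul n p)) (nat_lit 1) (nat_lit 0)

def row (n p s : Nat) : Nat := Nat.land (Nat.shiftRight s (cS n p)) (cM n)
def stE (n p s : Nat) : Nat := Nat.land s (cC n p)
def stO (n lo p s : Nat) : Nat :=
  Nat.lor (Nat.lor s (cF n lo p)) (Nat.mul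
    (Nat.lor (Nat.lor (Nat.land (Nat.shiftRight s (sl n p)) (cO n)) (cD n p))
      (Nat.land (Nat.shiftRight s (nb n p)) (cO2 n p)))
    (Nat.lor (Nat.lor (row n p s) (cb n p)) (Nat.land (Nat.shiftRight s (cS2 n p)) (cM2 n p))))
/-- `0` when the empty move closes a component, else the next state plus one -/
def seE (n p s : Nat) : Nat :=
  Nat.mul (Nat.succ (stE n p s)) (Nat.div (Nat.add (Nat.xor (row n p s) (cb n p)) (cM n)) (cP n))
/-- `0` when the cell may not be occupied, else the next state plus one -/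
def seO (n lo p s : Nat) : Nat := Nat.mul (Nat.succ (stO n lo p s)) (cA n lo p)

/-- the value one in both halves -/
def one (den p : Nat) : Nat :=
  Nat.mul (Nat.mul (pw (nat_lit 36)) (Nat.pow den p)) (Nat.succ (pw (nat_lit 320)))
def tE (n den p s : Nat) : Nat :=
  cond (Nat.beq (stE n p s) (Nat.mul (nat_lit 3) (pw (Nat.mul n n)))) (one den (Nat.succ p)) (nat_lit 0)

def ph (n lo num den p : Nat) (f : Nat → Nat) (s : Nat) : Nat :=
  Nat.rec
    (Nat.rec (tE n den p s) (fun o _ => Nat.add (tE n den p s) (Nat.mul num (f o))) (seO n lo p s))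
    (fun e _ => Nat.rec (Nat.mul den (f e)) (fun o _ => Nat.add (Nat.mul den (f e)) (Nat.mul num (f o)))
      (seO n lo p s))
    (seE n p s)

def val (n lo num den : Nat) (lk : Nat → Nat) (p : Nat) : Nat → Nat :=
  Nat.rec lk (fun p ih => ph n lo num den p ih) p

inductive BT where
  | lf (x : Nat)
  | nd (l r : BT)

def key (x : Nat) : Nat := Nat.land x (nat_lit 4722366482869645213695)
def vlo (x : Nat) : Nat := Nat.land (Nat.shiftRight x (nat_lit 72)) (nat_lit 17592186044415)
def vhi (x : Nat) : Nat := Nat.land (Nat.shiftRight x (nat_lit 116)) (nat_lit 17592186044415)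
def big (n den : Nat) : Nat := Nat.mul (pw (nat_lit 44)) (Nat.pow den (Nat.mul (nat_lit 2) n))
def pk (a b : Nat) : Nat := Nat.add a (Nat.shiftLeft b (nat_lit 320))

def scan (miss s : Nat) (fuel : Nat) : Nat → Nat :=
  Nat.rec (fun _ => miss) (fun _ ih x => cond (Nat.beq (key x) s) (pk (vlo x) (vhi x))
    (ih (Nat.shiftRight x (nat_lit 160)))) fuel
def find (miss s : Nat) (t : BT) : Nat → Nat :=
  BT.rec (fun x _ => scan miss s (nat_lit 40) x) (fun _ _ il ir h =>
    cond (Nat.beq (Nat.land h (nat_lit 1)) (nat_lit 0)) (il (Nat.shiftRight h (nat_lit 1)))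
      (ir (Nat.shiftRight h (nat_lit 1)))) t
def lk (n den : Nat) (t : BT) (s : Nat) : Nat :=
  cond (Nat.beq s (nat_lit 0)) (nat_lit 0) (find (pk (nat_lit 0) (big n den)) s t (Nat.mod s (nat_lit 1000003)))

def ok2 (n den v a b : Nat) : Bool :=
  cond (Nat.ble (Nat.mul a (Nat.pow den (Nat.mul (nat_lit 2) n)))
      (Nat.land v (Nat.sub (pw (nat_lit 320)) (nat_lit 1))))
    (Nat.ble (Nat.shiftRight v (nat_lit 320)) (Nat.mul b (Nat.pow den (Nat.mul (nat_lit 2) n)))) false
def okE (n den : Nat) (v : Nat → Nat) (x : Nat) : Bool :=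
  Nat.rec true (fun s _ => ok2 n den (v s) (vlo x) (vhi x)) (Nat.succ (key x))
def okL (f : Nat → Bool) (fuel : Nat) : Nat → Bool :=
  Nat.rec (fun _ => true) (fun _ ih x => cond (Nat.beq x (nat_lit 0)) true
    (cond (f x) (ih (Nat.shiftRight x (nat_lit 160))) false)) fuel
def okT (f : Nat → Bool) (t : BT) : Bool :=
  BT.rec (fun x => okL f (nat_lit 40) x) (fun _ _ a b => cond a b false) t

/-- the whole check: `a / 2^36 ≤ B (2 n - lo) ≤ b / 2^36` at `x = num / den` -/
def chk (n lo num den : Nat) (t : BT) (a b : Nat) : Bool :=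
  cond (okT (okE n den (val n lo num den (lk n den t) (Nat.mul (nat_lit 2) n))) t)
    (cond (Nat.ble (Nat.succ b) (pw (nat_lit 44)))
      (ok2 n den (val n lo num den (lk n den t) (Nat.mul (nat_lit 2) n) (nat_lit 0)) a b) false) false

end
end Pool.Agent.MP_6a06cd_co.KL.X
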