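import Pool.Agent.MP_6a06cd_co.KL.Spec2

/-! The frontier cells of a narrow strip. -/

namespace Pool.Agent.MP_6a06cd_co.KL

open Finset H45 X

namespace Fc

theorem sl_eq (n p : ℕ) : sl n p = if n ≤ p then 2 * n - 1 - p else p := by
  simp only [sl, Bool.cond_eq_ite, Nat.ble_eq]
  rfl

theorem nb_eq (n p : ℕ) : nb n p = if n ≤ p then 2 * n - p else p - 1 := by
  simp only [nb, Bool.cond_eq_ite, Nat.ble_eq]
  rfl

theorem ul_eq (n p : ℕ) : ul n p = if n ≤ p then 2 * sl n p + 1 else 2 * p := by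
  simp only [ul, Bool.cond_eq_ite, Nat.ble_eq]
  rfl

theorem hn_eq (n p : ℕ) : hn n p = if p % n = 0 then 0 else 1 := by
  simp only [hn, Bool.cond_eq_ite, Nat.beq_eq]
  rfl

theorem dm {n r i : ℕ} (h : i < n) : (n * r + i) / n = r ∧ (n * r + i) % n = i :=
  ⟨by rw [Nat.mul_add_div (by omega), Nat.div_eq_of_lt h, add_zero],
    by rw [Nat.mul_add_mod, Nat.mod_eq_of_lt h]⟩

theorem mod2 {n : ℕ} (hn : 1 ≤ n) (τ : ℕ) :
    (τ / n % 2 = 0 ∧ τ % (2 * n) = τ % n) ∨ (τ / n % 2 = 1 ∧ τ % (2 * n) = n + τ % n) := by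
  have h := Nat.mod_mul (x := τ) (a := n) (b := 2)
  rw [mul_comm n 2] at h
  rcases Nat.mod_two_eq_zero_or_one (τ / n) with e | e <;> rw [e] at h <;> omega

theorem succ {n : ℕ} (hn : 1 ≤ n) (τ : ℕ) :
    (τ % n + 1 < n ∧ (τ + 1) / n = τ / n ∧ (τ + 1) % n = τ % n + 1) ∨
      (τ % n + 1 = n ∧ (τ + 1) / n = τ / n + 1 ∧ (τ + 1) % n = 0) := by
  have h1 := Nat.div_add_mod τ n
  have h2 := Nat.mod_lt τ hn
  by_cases h : τ % n + 1 < n
  · have := dm (r := τ / n) h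
    rw [← add_assoc, h1] at this
    exact Or.inl ⟨h, this⟩
  · have := dm (n := n) (r := τ / n + 1) (i := 0) hn
    rw [show n * (τ / n + 1) + 0 = τ + 1 by rw [Nat.mul_add_one]; omega] at this
    exact Or.inr ⟨by omega, this⟩

theorem pm {n p : ℕ} (h : p < 2 * n) : (n ≤ p ∧ p % n + n = p) ∨ (p < n ∧ p % n = p) := by
  by_cases k : n ≤ p
  · refine Or.inl ⟨k, ?_⟩
    rw [Nat.mod_eq_sub_mod k, Nat.mod_eq_of_lt (by omega)]
    omega
  · exact Or.inr ⟨by omega, Nat.mod_eq_of_lt (by omega)⟩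

theorem rows {n τ τ' : ℕ} (h : τ ≤ τ') : n * (τ' / n) = n * (τ / n) ∨
    n * (τ' / n) = n * (τ / n) + n ∨ n * (τ / n) + 2 * n ≤ n * (τ' / n) := by
  have h1 : τ / n ≤ τ' / n := Nat.div_le_div_right h
  rcases (by omega : τ' / n = τ / n ∨ τ' / n = τ / n + 1 ∨ τ / n + 2 ≤ τ' / n) with e | e | e
  · exact Or.inl (by rw [e])
  · exact Or.inr (Or.inl (by rw [e, Nat.mul_add_one]))
  · refine Or.inr (Or.inr ?_)
    have := Nat.mul_le_mul_left n e
    rw [Nat.mul_add] at this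
    omega

end Fc

open Fc in
theorem rowFc : SFc := by
  intro n τ p h1 h2 h3
  have a1 := Nat.div_add_mod τ n
  have a2 := Nat.mod_lt τ h1
  have a3 : n ≤ n * (τ / n) := Nat.le_mul_of_pos_right n (Nat.div_pos h2 h1)
  have a4 := mod2 h1 τ
  have a5 := succ h1 τ
  have a6 := pm (n := n) (p := p) (by omega)
  have b1 := sl_eq n p
  have b2 := nb_eq n p
  have b3 := ul_eq n p
  have b4 := hn_eq n p
  have c : (τ / n % 2 = 0 ∧ sl n p = τ % n ∧ nb n p = τ % n + 1 ∧ ul n p = 2 * (τ % n) + 1 ∨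
      τ / n % 2 = 1 ∧ sl n p = n - 1 - τ % n ∧ nb n p = n - 2 - τ % n ∧
        ul n p = 2 * n - 2 - 2 * (τ % n)) ∧
      (hn n p = 0 ∧ τ % n + 1 = n ∨ hn n p = 1 ∧ τ % n + 1 < n) := by
    split_ifs at b1 b2 b3 b4 <;> omega
  clear a4 a6 b1 b2 b3 b4 h3
  obtain ⟨c1, c2⟩ := c
  refine ⟨by omega, by omega, ?_, fun i hi => ?_, fun i hi => ?_, fun i j hi hj => ?_,
    fun σ hσ => ?_, fun y => ⟨fun h => ?_, ?_⟩, fun σ τ' k1 k2 k3 => ?_, ?_⟩
  · unfold uT
    split_ifs <;> omega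
  · unfold fc
    split_ifs <;> omega
  · unfold fc
    split_ifs <;> omega
  · unfold fc
    split_ifs <;> omega
  · unfold E ET fc
    split_ifs <;> omega
  · unfold Fr at h
    by_cases e : τ / n % 2 = 0
    · by_cases k : τ ≤ y + τ % n
      · exact ⟨y - n * (τ / n), by omega, by unfold fc; split_ifs <;> omega⟩
      · exact ⟨n * (τ / n) - 1 - y, by omega, by unfold fc; split_ifs <;> omega⟩
    · by_cases k : τ ≤ y + τ % n
      · exact ⟨n - 1 - (y - n * (τ / n)), by omega, by unfold fc; split_ifs <;> omega⟩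
      · exact ⟨y + n - n * (τ / n), by omega, by unfold fc; split_ifs <;> omega⟩
  · rintro ⟨i, hi, rfl⟩
    unfold Fr fc
    split_ifs <;> omega
  · have d1 := Nat.div_add_mod τ' n
    have d2 := Nat.mod_lt τ' h1
    have d3 := rows (n := n) k2
    unfold E ET at k3
    unfold Fr
    omega
  · unfold E ET
    omega

end Pool.Agent.MP_6a06cd_co.KL
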