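import Pool.Agent.MP_6a06cd_co.KL.Spec

/-! Below the inverse growth constant the generating function of rooted animals is finite. -/

namespace Pool.Agent.MP_6a06cd_co.KL

open Finset H45 Filter Topology
open scoped NNReal ENNReal Classical

namespace Fin

theorem poly {P : Finset Cell} (h : Con Adj P) : IsPolyomino P.card P := by
  refine ⟨rfl, fun p hp q hq => ?_⟩
  obtain ⟨-, h1⟩ := h p hp q hq
  have : q ∈ P ∧ Relation.ReflTransGen (fun a b => a ∈ P ∧ b ∈ P ∧ Adj a b) p q := by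
    clear hq
    induction h1 with
    | refl => exact ⟨hp, .refl⟩
    | tail _ h2 ih => exact ⟨h2.2, ih.2.tail ⟨ih.1, h2.2, h2.1⟩⟩
  exact this.2

theorem cnt {n : ℕ} (hf : (Rep n).Finite) (c : Cell) (G : Finset (Finset Cell))
    (hG : ∀ P ∈ G, Con Adj P ∧ c ∈ P ∧ P.card = n) : G.card ≤ n * t n := by
  rcases Nat.eq_zero_or_pos n with rfl | hn
  · rw [eq_empty_of_forall_notMem (s := G) fun P hP => ?_]
    · simp
    · obtain ⟨-, h1, h2⟩ := hG P hP
      rw [card_eq_zero.1 h2] at h1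
      simp at h1
  have sub : G ⊆ hf.toFinset.biUnion fun R => R.image fun r => R.image fun p => p + (c - r) := by
    intro P hP
    obtain ⟨h1, h2, h3⟩ := hG P hP
    obtain ⟨u, hu, h4⟩ := exists_lexmax ⟨c, h2⟩
    refine mem_biUnion.2 ⟨P.image fun p => p + -u, hf.mem_toFinset.2 ⟨(h3 ▸ poly h1).translate _,
      mem_image.2 ⟨u, hu, by simp⟩, fun p hp => ?_⟩, mem_image.2 ⟨c + -u, mem_image_of_mem _ h2, ?_⟩⟩
    · obtain ⟨a, ha, rfl⟩ := mem_image.1 hp
      have := h4 a ha
      simp only [Prod.fst_add, Prod.snd_add, Prod.fst_neg, Prod.snd_neg]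
      omega
    · rw [image_image]
      convert image_id (s := P) using 2
      ext1 p
      simp
  refine (card_le_card sub).trans ((card_biUnion_le_card_mul _ _ n fun R hR => ?_).trans ?_)
  · exact card_image_le.trans (hf.mem_toFinset.1 hR).1.1.le
  · rw [t_eq hn, Set.ncard_eq_toFinset_card _ hf, mul_comm]

theorem summ {x lam : ℝ} (x0 : 0 ≤ x)
    (hl : Tendsto (fun n : ℕ => (t n : ℝ) ^ ((1 : ℝ) / n)) atTop (𝓝 lam)) (h : lam * x < 1) :
    Summable fun n : ℕ => (n * t n : ℝ) * x ^ n := by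
  obtain ⟨q, q1, q2⟩ := exists_between (max_lt h one_pos)
  have q0 : 0 < q := (le_max_right _ _).trans_lt q1
  have s := summable_pow_mul_geometric_of_norm_lt_one (R := ℝ) 1 (r := q)
    (by rwa [Real.norm_eq_abs, abs_of_pos q0])
  refine s.of_norm_bounded_eventually_nat ?_
  filter_upwards [(hl.mul_const x).eventually (gt_mem_nhds ((le_max_left _ _).trans_lt q1)),
    eventually_ne_atTop 0] with n a b
  have e : ((t n : ℝ) ^ ((1 : ℝ) / n)) ^ n = t n := by
    rw [one_div, Real.rpow_inv_natCast_pow (Nat.cast_nonneg _) b]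
  have := pow_le_pow_left₀ (by positivity) a.le n
  rw [mul_pow, e] at this
  rw [Real.norm_eq_abs, abs_of_nonneg (by positivity), mul_assoc, pow_one]
  gcongr

end Fin

theorem rowFin : OfFin := by
  intro hg x lam hf hl h c
  have s := Fin.summ x.coe_nonneg hl h
  refine ne_top_of_le_ne_top (ENNReal.ofReal_ne_top (r := ∑' n : ℕ, (n * t n : ℝ) * x ^ n))
    (hg.2.2.2.2.1 _ x _ _ fun G hG => ?_)
  have e : ∑ P ∈ G, (x : ℝ≥0∞) ^ P.card = ENNReal.ofReal (∑ P ∈ G, (x : ℝ) ^ P.card) := by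
    rw [ENNReal.ofReal_sum_of_nonneg fun _ _ => by positivity]
    refine sum_congr rfl fun P _ => ?_
    rw [ENNReal.ofReal_pow x.coe_nonneg, ENNReal.ofReal_coe_nnreal]
  rw [e]
  refine ENNReal.ofReal_le_ofReal ?_
  rw [← sum_fiberwise_of_maps_to (t := G.image card) (g := card) fun P hP => mem_image_of_mem _ hP]
  refine le_trans (sum_le_sum fun n _ => ?_) (s.sum_le_tsum (G.image card) fun n _ => by positivity)
  rw [sum_congr rfl (g := fun _ => (x : ℝ) ^ n) fun P hP => by rw [(mem_filter.1 hP).2], sum_const,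
    nsmul_eq_mul]
  have := Fin.cnt (hf n) c (G.filter fun P => P.card = n) fun P hP =>
    ⟨(hG P (mem_filter.1 hP).1).1, (hG P (mem_filter.1 hP).1).2, (mem_filter.1 hP).2⟩
  gcongr
  exact_mod_cast this

end Pool.Agent.MP_6a06cd_co.KL
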