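import Pool.Agent.MP_6a06cd_co.KL.Spec

/-! Geometry of the swept strip. -/

namespace Pool.Agent.MP_6a06cd_co.KL

open Finset H45
open scoped Classical

namespace Geo

theorem dm {n r i : ℕ} (h : i < n) : (n * r + i) / n = r ∧ (n * r + i) % n = i :=
  ⟨by rw [Nat.mul_add_div (by omega), Nat.div_eq_of_lt h, add_zero],
    by rw [Nat.mul_add_mod, Nat.mod_eq_of_lt h]⟩

theorem et {n : ℕ} (hn : 1 ≤ n) (τ σ : ℕ) :
    ET n τ σ ↔ τ / n = σ / n + 1 ∧ (τ % n + σ % n + 1 = n ∨ τ % n + σ % n + 2 = n) := by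
  have h1 := Nat.div_add_mod τ n
  have h2 := Nat.mod_lt τ hn
  unfold ET
  constructor
  · rintro ⟨h3, h4⟩
    obtain ⟨r, hr⟩ := Nat.exists_eq_add_one_of_ne_zero (Nat.div_pos h3 hn).ne'
    rw [hr, Nat.mul_add_one] at h1
    rcases h4 with h4 | h4
    · have h5 := dm (n := n) (r := r) (i := n - 1 - τ % n) (by omega)
      rw [show n * r + (n - 1 - τ % n) = σ by omega] at h5
      omega
    · have h5 := dm (n := n) (r := r) (i := n - 2 - τ % n) (by omega)
      rw [show n * r + (n - 2 - τ % n) = σ by omega] at h5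
      omega
  · rintro ⟨h3, h4⟩
    have h5 := Nat.div_add_mod σ n
    rw [h3, Nat.mul_add_one] at h1
    omega

theorem uw {n : ℕ} (hn : 1 ≤ n) (τ : ℕ) :
    uu (cell n τ) = uT n τ ∧ ww (cell n τ) = ((τ / n : ℕ) : ℤ) + 1 ∧ uT n τ < 2 * n := by
  have h2 := Nat.mod_lt τ hn
  simp only [uu, ww, cell, uT]
  generalize τ / n = r at *
  generalize τ % n = j at *
  split_ifs <;> omega

theorem ext_uw {p q : Cell} (h1 : uu p = uu q) (h2 : ww p = ww q) : p = q := by
  unfold uu at h1
  unfold ww at h2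
  exact Prod.ext (by omega) (by omega)

theorem adj (p q : Cell) : Adj p q ↔
    (uu p = uu q + 1 ∨ uu q = uu p + 1) ∧ (ww p = ww q + 1 ∨ ww q = ww p + 1) := by
  unfold Adj uu ww
  rcases abs_cases (p.1 - q.1) with h | h <;> rcases abs_cases (p.2 - q.2) with h' | h' <;> omega

theorem inj {n : ℕ} (hn : 1 ≤ n) : Function.Injective (cell n) := by
  intro a b h
  have h1 := uw hn a
  have h2 := uw hn b
  rw [h] at h1
  have h3 : a / n = b / n := by omega
  have h4 : uT n a = uT n b := by omega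
  have h5 := Nat.mod_lt a hn
  have h6 := Nat.mod_lt b hn
  have h7 : a % n = b % n := by
    unfold uT at h4
    rw [h3] at h4
    split_ifs at h4 <;> omega
  rw [← Nat.div_add_mod a n, h3, h7, Nat.div_add_mod]

theorem adj_iff {n : ℕ} (hn : 1 ≤ n) (a b : ℕ) : Adj (cell n a) (cell n b) ↔ E n a b := by
  have h5 := Nat.mod_lt a hn
  have h6 := Nat.mod_lt b hn
  rw [adj, E, et hn, et hn, (uw hn a).1, (uw hn a).2.1, (uw hn b).1, (uw hn b).2.1]
  unfold uT
  generalize a / n = r at *
  generalize a % n = j at *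
  generalize b / n = r' at *
  generalize b % n = j' at *
  split_ifs <;> omega

end Geo

open Geo in
theorem rowGeo : SGeo := by
  intro n hn
  refine ⟨inj hn, adj_iff hn, uw hn, fun τ => ?_, fun p h1 h2 h3 => ?_, fun S => ?_⟩
  · have h1 : (τ + 2 * n) / n = τ / n + 2 := Nat.add_mul_div_right τ 2 hn
    have h2 : uT n (τ + 2 * n) = uT n τ := by
      unfold uT
      rw [h1, Nat.add_mul_mod_self_right, Nat.add_mod_right]
    have h3 := uw hn τ
    have h4 := uw hn (τ + 2 * n)
    rw [h1, h2] at h4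
    refine ext_uw (h4.1.trans ?_) (h4.2.1.trans ?_)
    · rw [← h3.1]
      simp only [uu, Prod.fst_add, Prod.snd_add]
      ring
    · have := h3.2.1
      simp only [ww, Prod.fst_add, Prod.snd_add] at this ⊢
      omega
  · obtain ⟨r, hr⟩ := Int.eq_ofNat_of_zero_le (show 0 ≤ ww p - 1 by omega)
    obtain ⟨u, hu⟩ := Int.eq_ofNat_of_zero_le h1
    have h4 : (u + r) % 2 = 1 := by
      unfold uu at hu
      unfold ww at hr
      omega
    obtain ⟨j, hj, h5⟩ : ∃ j < n, u = if r % 2 = 0 then 2 * j + 1 else 2 * n - 2 - 2 * j := by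
      by_cases h : r % 2 = 0
      · exact ⟨u / 2, by omega, by rw [if_pos h]; omega⟩
      · exact ⟨n - 1 - u / 2, by omega, by rw [if_neg h]; omega⟩
    have h6 := uw hn (n * r + j)
    unfold uT at h6
    rw [(dm hj).1, (dm hj).2, ← h5] at h6
    exact ⟨n * r + j, ext_uw (by omega) (by omega)⟩
  · constructor
    · intro h a ha b hb
      have key : ∀ q, Relation.ReflTransGen (fun u v => Adj u v ∧ v ∈ S.image (cell n))
          (cell n a) q → ∀ c, q = cell n c →
          Relation.ReflTransGen (fun u v => E n u v ∧ v ∈ S) a c := by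
        intro q hq
        induction hq with
        | refl => intro c hc; rw [inj hn hc]
        | @tail q q' h1 h2 ih =>
          rintro c rfl
          obtain ⟨d, rfl⟩ : ∃ d, q = cell n d := by
            rcases h1.cases_tail with e | ⟨_, -, h3⟩
            · exact ⟨a, e⟩
            · obtain ⟨d, -, e⟩ := mem_image.1 h3.2
              exact ⟨d, e.symm⟩
          obtain ⟨c', h3, e⟩ := mem_image.1 h2.2
          exact (ih d rfl).tail ⟨(adj_iff hn _ _).1 h2.1, inj hn e ▸ h3⟩
      exact ⟨ha, key _ (h _ (mem_image_of_mem _ ha) _ (mem_image_of_mem _ hb)).2 b rfl⟩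
    · intro h p hp q hq
      obtain ⟨a, ha, rfl⟩ := mem_image.1 hp
      obtain ⟨b, hb, rfl⟩ := mem_image.1 hq
      exact ⟨hp, (h a ha b hb).2.lift (cell n) fun u v e =>
        ⟨(adj_iff hn _ _).2 e.1, mem_image_of_mem _ e.2⟩⟩

end Pool.Agent.MP_6a06cd_co.KL
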