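import Pool.Agent.MP_6a06cd_co.KL.Spec

/-! Basic facts on the generating functions. -/

namespace Pool.Agent.MP_6a06cd_co.KL

open Finset
open scoped NNReal ENNReal Classical

namespace Gf

theorem gf_eq {α : Type} (x : ℝ≥0) (A : Set (Finset α)) :
    gf x A = ∑' P, A.indicator (fun P : Finset α => (x : ℝ≥0∞) ^ P.card) P :=
  tsum_subtype A fun P : Finset α => (x : ℝ≥0∞) ^ P.card

end Gf

open Gf in
theorem rowGf : SGf := by
  refine ⟨?_, ?_, ?_, ?_, ?_, ?_⟩
  · intro α β x A A' f c h hi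
    let g : A → A' := fun P => ⟨f P, (h P P.2).1⟩
    have hg : Function.Injective g := fun P R e =>
      Subtype.ext (hi P.2 R.2 (congrArg Subtype.val e))
    have h1 := ENNReal.tsum_comp_le_tsum_of_injective hg
      fun P : A' => (x : ℝ≥0∞) ^ (P : Finset β).card
    refine le_trans (le_of_eq ?_) h1
    rw [gf, ← ENNReal.tsum_mul_left]
    refine tsum_congr fun P => ?_
    change _ = (x : ℝ≥0∞) ^ (f P).card
    rw [(h P P.2).2, pow_add, mul_comm]
  · intro α x A A' h
    simp only [gf_eq]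
    rw [Set.indicator_union_of_disjoint h, ENNReal.tsum_add]
  · intro α x A h
    simp only [gf_eq]
    rw [ENNReal.tsum_comm]
    refine tsum_congr fun P => ?_
    by_cases hP : P ∈ ⋃ i, A i
    · obtain ⟨i, hi⟩ := Set.mem_iUnion.1 hP
      rw [Set.indicator_of_mem hP, tsum_eq_single i, Set.indicator_of_mem hi]
      intro j hj
      exact Set.indicator_of_notMem (fun hj' => Set.disjoint_left.1 (h hj) hj' hi) _
    · rw [Set.indicator_of_notMem hP]
      symm
      exact ENNReal.tsum_eq_zero.2 fun i =>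
        Set.indicator_of_notMem (fun hi => hP (Set.mem_iUnion.2 ⟨i, hi⟩)) _
  · intro α x A1 A2 A f h hi hs
    let g : A1 × A2 → A := fun p => ⟨f p.1 p.2, (h _ p.1.2 _ p.2.2).1⟩
    have hg : Function.Bijective g := by
      refine ⟨fun p q e => ?_, fun S => ?_⟩
      · obtain ⟨e1, e2⟩ := hi _ p.1.2 _ p.2.2 _ q.1.2 _ q.2.2 (congrArg Subtype.val e)
        exact Prod.ext (Subtype.ext e1) (Subtype.ext e2)
      · obtain ⟨P, hP, R, hR, e⟩ := hs S S.2
        exact ⟨(⟨P, hP⟩, ⟨R, hR⟩), Subtype.ext e⟩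
    rw [gf, ← (Equiv.ofBijective g hg).tsum_eq, ENNReal.tsum_prod', gf, gf,
      ← ENNReal.tsum_mul_right]
    refine tsum_congr fun P => ?_
    rw [← ENNReal.tsum_mul_left]
    refine tsum_congr fun R => ?_
    change (x : ℝ≥0∞) ^ (f P R).card = _
    rw [(h _ P.2 _ R.2).2, pow_add]
  · intro α x A y h
    rw [gf_eq, ENNReal.tsum_eq_iSup_sum]
    refine iSup_le fun G => le_trans (le_of_eq ?_)
      (h (G.filter (· ∈ A)) fun P hP => (mem_filter.1 hP).2)
    rw [sum_filter]
    exact sum_congr rfl fun P _ => Set.indicator_apply _ _ _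
  · intro α x A G h
    rw [gf_eq]
    refine le_trans (le_of_eq ?_) (ENNReal.sum_le_tsum G)
    exact sum_congr rfl fun P hP => by rw [Set.indicator_of_mem (h P hP)]

end Pool.Agent.MP_6a06cd_co.KL
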