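import Pool.Agent.MP_6a06cd_co.KL.Spec

/-! Translations and the choice of normalisation do not change the generating functions. -/

namespace Pool.Agent.MP_6a06cd_co.KL

open Finset H45 Filter Topology
open scoped NNReal ENNReal Classical

namespace Ht

theorem sh_sh (v w : Cell) (P : Finset Cell) : sh w (sh v P) = sh (v + w) P := by
  unfold sh
  rw [Finset.image_image]
  congr 1
  funext p
  simp [add_assoc]

theorem sh_zero (P : Finset Cell) : sh 0 P = P := by
  unfold sh
  simp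

theorem sh_inj (v : Cell) {P R : Finset Cell} (h : sh v P = sh v R) : P = R := by
  have := congrArg (sh (-v)) h
  rwa [sh_sh, sh_sh, add_neg_cancel, sh_zero, sh_zero] at this

theorem card_sh (v : Cell) (P : Finset Cell) : (sh v P).card = P.card := by
  unfold sh
  exact Finset.card_image_of_injective _ (add_left_injective v)

theorem mem_sh {v p : Cell} {P : Finset Cell} (h : p ∈ P) : p + v ∈ sh v P :=
  Finset.mem_image_of_mem _ h

theorem uu_add (p v : Cell) : uu (p + v) = uu p + uu v := by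
  unfold uu
  simp only [Prod.fst_add, Prod.snd_add]
  ring

theorem adj_add {p q : Cell} (v : Cell) (h : Adj p q) : Adj (p + v) (q + v) := by
  unfold Adj at h ⊢
  simp only [Prod.fst_add, Prod.snd_add, add_sub_add_right_eq_sub]
  exact h

theorem con_sh (v : Cell) {P : Finset Cell} (h : Con Adj P) : Con Adj (sh v P) := by
  intro a ha b hb
  obtain ⟨a', ha', rfl⟩ := Finset.mem_image.1 ha
  obtain ⟨b', hb', rfl⟩ := Finset.mem_image.1 hb
  refine ⟨ha, ?_⟩
  have key : ∀ c : Cell, Relation.ReflTransGen (fun u w => Adj u w ∧ w ∈ P) a' c →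
      Relation.ReflTransGen (fun u w => Adj u w ∧ w ∈ sh v P) (a' + v) (c + v) := by
    intro c hc
    induction hc with
    | refl => exact Relation.ReflTransGen.refl
    | tail _ hcd ih => exact ih.tail ⟨adj_add v hcd.1, mem_sh hcd.2⟩
  exact key b' (h a' ha' b' hb').2

theorem an_sh (lo hi : ℤ) (v : Cell) {P : Finset Cell} (h : P ∈ An lo hi) :
    sh v P ∈ An (lo + uu v) (hi + uu v) := by
  obtain ⟨h1, h2, ⟨p, hp, hp'⟩, q, hq, hq'⟩ := h
  refine ⟨con_sh v h1, ?_, ⟨p + v, mem_sh hp, by rw [uu_add, hp']⟩, q + v, mem_sh hq,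
    by rw [uu_add, hq']⟩
  intro r hr
  obtain ⟨r', hr', rfl⟩ := Finset.mem_image.1 hr
  have := h2 r' hr'
  rw [uu_add]
  constructor <;> linarith [this.1, this.2]

theorem uu_neg (v : Cell) : uu (-v) = - uu v := by
  unfold uu
  simp only [Prod.fst_neg, Prod.snd_neg]
  ring

theorem adj_uu {a b : Cell} (h : Adj a b) : uu b ≤ uu a + 1 := by
  unfold Adj at h
  unfold uu
  have h1 := le_abs_self (a.2 - b.2)
  have h2 := neg_abs_le (a.1 - b.1)
  linarith

theorem ivt {P : Finset Cell} {a b : Cell} (ha : a ∈ P)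
    (h : Relation.ReflTransGen (fun u w => Adj u w ∧ w ∈ P) a b) (j : ℤ) (h1 : uu a ≤ j) :
    j ≤ uu b → ∃ p ∈ P, uu p = j := by
  induction h with
  | refl => intro h2; exact ⟨a, ha, le_antisymm h1 h2⟩
  | @tail c d _ hcd ih =>
    intro h2
    by_cases hc : j ≤ uu c
    · exact ih hc
    · have := adj_uu hcd.1
      exact ⟨d, hcd.2, by omega⟩

theorem half (H : SGf) (x : ℝ≥0) (A : Set (Finset Cell)) (f g : Finset Cell → ℤ)
    (h : ∀ P ∈ A, ∀ k : ℤ,
      sh (k, k) P ∈ A ∧ f (sh (k, k) P) = f P + k ∧ g (sh (k, k) P) = g P + k) :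
    gf x {P | P ∈ A ∧ f P = 0} ≤ gf x {P | P ∈ A ∧ g P = 0} := by
  have := H.1 Cell Cell x {P | P ∈ A ∧ f P = 0} {P | P ∈ A ∧ g P = 0}
    (fun P => sh (-g P, -g P) P) 0 ?_ ?_
  · simpa using this
  · intro P hP
    have hk := h P hP.1 (-g P)
    refine ⟨⟨hk.1, ?_⟩, by rw [card_sh, add_zero]⟩
    rw [hk.2.2]
    ring
  · intro P hP R hR hPR
    have h1 := (h P hP.1 (-g P)).2.1
    have h2 := (h R hR.1 (-g R)).2.1
    have hPR' : sh (-g P, -g P) P = sh (-g R, -g R) R := hPR
    rw [hPR', h2, hP.2, hR.2] at h1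
    have h3 : g R = g P := by linarith
    rw [h3] at hPR'
    exact sh_inj _ hPR'

end Ht

theorem rowHt : OfHt := by
  intro H
  refine ⟨?_, ?_, ?_, ?_⟩
  · intro x A f g h
    exact le_antisymm (Ht.half H x A f g h)
      (Ht.half H x A g f fun P hP k => ⟨(h P hP k).1, (h P hP k).2.2, (h P hP k).2.1⟩)
  · intro x A v
    apply le_antisymm
    · have := H.1 Cell Cell x {P | sh v P ∈ A} A (sh v) 0
        (fun P hP => ⟨hP, by rw [Ht.card_sh, add_zero]⟩) (fun P _ R _ h => Ht.sh_inj v h)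
      simpa using this
    · have := H.1 Cell Cell x A {P | sh v P ∈ A} (sh (-v)) 0
        (fun P hP => ⟨by
          show sh v (sh (-v) P) ∈ A
          rw [Ht.sh_sh, neg_add_cancel, Ht.sh_zero]
          exact hP, by rw [Ht.card_sh, add_zero]⟩) (fun P _ R _ h => Ht.sh_inj (-v) h)
      simpa using this
  · intro lo hi v P
    refine ⟨fun h => ?_, Ht.an_sh lo hi v⟩
    have := Ht.an_sh _ _ (-v) h
    rw [Ht.sh_sh, add_neg_cancel, Ht.sh_zero, Ht.uu_neg] at this
    simpa using this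
  · intro lo hi j P h h1 h2
    obtain ⟨hc, _, ⟨p, hp, hp'⟩, q, hq, hq'⟩ := h
    exact Ht.ivt hp (hc p hp q hq).2 j (by rw [hp']; exact h1) (by rw [hq']; exact h2)

end Pool.Agent.MP_6a06cd_co.KL
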