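import Pool.Agent.MP_6a06cd_co.KL.Spec3

/-! The packed values after the turn. -/

namespace Pool.Agent.MP_6a06cd_co.KL

open Finset K

theorem rowI : OfI := by
  rintro ⟨hpw, -, -, hfN, hopt, -, -, -, hlo, hst, -⟩
    ⟨-, -, -, hcq, -, hkr, -, -, -, hsm, h0, -, hsum⟩ ⟨hdc, -⟩ ⟨-, -, hstp⟩ hBnd hB hJ
    g S n W c0 cs b5 k z t u hW hS hu
  obtain rfl : W = S * n := ((hB g S n W).1 hW).1
  have s1 : ∀ s, Rp S n (nC g cs b5) (fI0 g S n (S * n) c0 cs b5 s)
      fun u j => sI0 g cs (c0 + j) b5 u s := fun s => by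
    simp only [fI0, hfN, hopt, (hlo s).1, (hlo s).2, sI0, oS]
    split_ifs with h
    · exact h0 _ _ _
    · refine hsm _ _ _ _ _ _ (hcq _ _ _ _ _ (fun i _ => ?_) (hkr (S * n) (nC g cs b5) _ _ _ _
        (fun l i => pk S n fun j => sD g cs (c0 + j) b5 (zK (s % 64)) (s % 64) l i)
        (Pz g (zK (s % 64)) (fI g (zK (s % 64)) (s / 2 ^ 31) - 1))
        (fun l hl => hJ g S n _ c0 cs b5 _ _ l hW hS hl) fun l _ => ?_))
      · simp only [mul_comm (pk S n _)]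
        rw [hsum]
        simp only [mul_comm (Pz g _ _ _)]
      · rw [(hpw _).1, Pz, en]
        push_cast
        exact (sub_add_cancel _ _).symm
  have s2 : ∀ s, Rp S n (nC g cs b5) (fU0 g S n (S * n) c0 cs b5 s)
      fun u j => sU0 g cs (c0 + j) b5 u s := fun s => by
    simp only [fU0, hfN, hopt, (hlo s).1, (hlo s).2, hst, sU0, oS]
    split_ifs with h
    · exact h0 _ _ _
    · exact hsm _ _ _ _ _ _ ((hstp S n _ _ (fun u j => sI0 g cs (c0 + j) b5 u) s1).2 4 _)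
  have s3 := (hstp S n _ _ (fun u j => stS true (sU0 g cs (c0 + j) b5 u))
    (hstp S n _ _ (fun u j => sU0 g cs (c0 + j) b5 u) s2).1).2 3 (k + 64 * il g z t)
  rw [dX, hfN, hst]
  exact hdc S n _ _ _ _ s3 (fun i j _ _ => (hBnd g).2.2.2.1 cs (c0 + j) b5 k z t i) (by omega) u hu

end Pool.Agent.MP_6a06cd_co.KL
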