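import Pool.Agent.MP_6a06cd_co.KL.Spec3

/-! The packed function `tN` represents the integer recursion `sD`. -/

namespace Pool.Agent.MP_6a06cd_co.KL

open Finset K

namespace J

theorem l1023 (x : ℕ) : Nat.land x (nat_lit 1023) = x % 1024 :=
  Nat.and_two_pow_sub_one_eq_mod x 10

theorem l31 (x : ℕ) : Nat.land x (nat_lit 31) = x % 32 :=
  Nat.and_two_pow_sub_one_eq_mod x 5

theorem s41 (x : ℕ) : Nat.shiftRight x (nat_lit 41) = x / 2 ^ 41 := Nat.shiftRight_eq_div_pow x 41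

theorem s5 (x : ℕ) : Nat.shiftRight x (nat_lit 5) = x / 32 := Nat.shiftRight_eq_div_pow x 5

theorem fJ0_eq (bs : SBas) (g : ℕ → ℕ) (S n W c0 z s : ℕ) : fJ0 g S n W c0 z s =
    opt (kk g (s % 64)) fun k => opt (f2 g (bA (s / 2 ^ 31 % 32)) (s / 2 ^ 31 % 1024)) fun t2 =>
      opt (f1 g (zA (s / 2 ^ 36 % 32)) (s / 2 ^ 41)) fun t1 => phJ g (noc5 (s / 2 ^ 31)) *
        fB1 g S n W (mr g S n c0 k) (eM g) z (zA (s / 2 ^ 36 % 32)) (bA (s / 2 ^ 31 % 32)) t2 t1 := by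
  obtain ⟨-, -, -, hN, -, -, -, -, hl, -⟩ := bs
  have e1 : s / 2 ^ 31 % 1024 % 32 = s / 2 ^ 31 % 32 := by omega
  have e2 : s / 2 ^ 31 % 1024 / 32 = s / 2 ^ 36 % 32 := by omega
  unfold fJ0
  simp only [hN, (hl s).1, (hl s).2, l1023, l31, s41, s5, e1, e2, Nat.mul_eq]

theorem rp_opt (bs : SBas) (rq : SRq) (S n m a : ℕ) (f : ℕ → ℕ) (F : ℕ → ℕ → ℕ → ℤ)
    (h : ∀ k, Rp S n m (f k) fun i t => F i t k) :
    Rp S n m (opt a f) fun i t => oS a (F i t) := by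
  obtain ⟨-, -, -, -, hO, -⟩ := bs
  obtain ⟨-, -, -, -, -, -, -, -, -, -, h0, -⟩ := rq
  rw [hO]
  unfold oS
  split_ifs
  · exact h0 S n m
  · exact h _

end J

open J in
theorem rowJ : OfJ := by
  intro bs tb rq hdc cat' stp bnd b12 g S n W c0 cs b5 z k i ok hS hi
  obtain ⟨w1, w2, -, -, w5⟩ := b12 g S n W
  obtain ⟨hW, -⟩ := w1 ok
  obtain ⟨-, -, d3, -, -, -, -, d8, d9, d10, -⟩ := bnd g
  have he := d8 (eM g)
  have r10 := rq.2.2.2.2.2.2.2.2.2.1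
  have h1 : ∀ s, Rp S n (r4 g z) (fJ0 g S n W c0 z s) fun i t => sJ0 g (c0 + t) z i s := fun s => by
    rw [fJ0_eq bs]
    unfold sJ0
    refine rp_opt bs rq _ _ _ _ _ _ fun k => rp_opt bs rq _ _ _ _ _ _ fun t2 =>
      rp_opt bs rq _ _ _ _ _ _ fun t1 => r10 _ _ _ _ _ _ ?_
    exact w5 _ _ _ z _ _ t2 t1 ok (w2 c0 k) (by omega) (tb.1 _).2
  have h2 := (stp.2.2 S n (r4 g z) _ (fun i t => sJ0 g (c0 + t) z i) h1).2
  have h3 : ∀ u, (px (dD g S n W c0 cs b5 z k) W i u : ℤ) =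
      pk S n (fun t => sD g cs (c0 + t) b5 z k i u) + 2 ^ e3 g * o1 S n := fun u => by
    obtain ⟨-, -, hx, hN, -, -, -, -, -, hst, -⟩ := bs
    rw [hx, dD, hN, hst, hW]
    subst hW
    exact hdc.1 S n (r4 g z) (e3 g) _ (fun i t => sD g cs (c0 + t) b5 z k i u)
      (r10 _ _ _ (wJ g (noc5 (cl g cs b5 u))) _ _ (h2 5 (k + 64 * cl g cs b5 u)))
      (fun i t _ _ => d3 _ _ _ _ _ _ _) (by omega) i hi
  obtain ⟨q1, -, -, q4, -, -, -, q8, -⟩ := rq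
  have h4 := q1 _ _ _ _ _ _ (cat' (S * n) (px (dD g S n W c0 cs b5 z k) W i) (nC g cs b5))
    (q8 S n (nC g cs b5) (e3 g) (by omega))
  subst hW
  exact q4 _ _ _ _ _ (fun u _ => by rw [h3, add_neg_cancel_right]) h4

end Pool.Agent.MP_6a06cd_co.KL
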