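import Pool.Agent.MP_6a06cd_co.KL.Spec

/-! A crude bound gives finiteness and the existence of the limit. -/

namespace Pool.Agent.MP_6a06cd_co.KL

open Finset H45 Filter Topology
open scoped NNReal ENNReal Classical

namespace Lim

theorem multi {x y : ℝ} (hx : 0 ≤ x) (hy : 0 ≤ y) {N : ℕ} (H : ∀ c F, Bd x N {c} F y)
    (T : Finset Cell) : ∀ F, Bd x N T F (y ^ T.card) := by
  induction T using Finset.induction_on with
  | empty => exact fun F => by simpa using Bd.empty (by simp)
  | insert c T hc ih =>
    intro F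
    refine Bd.split hx (O1 := {c}) (O2 := T) (fun p hp _ => by simpa using hp)
      (fun p hp => by rw [Set.mem_singleton_iff.1 hp]; simpa using hc) (fun _ => y ^ T.card)
      (fun Q _ => ih _) fun G hG => ?_
    rw [← sum_mul, card_insert_of_notMem hc, pow_succ']
    exact mul_le_mul_of_nonneg_right (H c _ G hG) (pow_nonneg hy _)

theorem one (N : ℕ) : ∀ c F, Bd (1 / 16) N {c} F (11 / 10) := by
  induction N with
  | zero => exact fun c F => Bd.zero (by norm_num)
  | succ N ih =>
    intro c F
    have h1 := multi (by norm_num) (by norm_num) ih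
      {(c.1 + 1, c.2), (c.1 - 1, c.2), (c.1, c.2 + 1), (c.1, c.2 - 1)} F
    have h2 := h1.mono_val (pow_le_pow_right₀ (by norm_num) card_le_four)
    refine (Bd.single (by norm_num) c (fun p hp _ => hp) (fun p hp => ?_) (fun p hp => Or.inl hp)
      h2).mono_val (by norm_num)
    obtain ⟨a, b⟩ := p
    unfold Adj at hp
    simp only [coe_insert, coe_singleton, Set.mem_insert_iff, Set.mem_singleton_iff, Prod.mk.injEq]
    dsimp only at hp
    rcases abs_cases (c.1 - a) with h | h <;> rcases abs_cases (c.2 - b) with h' | h' <;> omega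

end Lim

theorem rowLim : SLim := by
  have h := fun N => Lim.one N 0 ∅
  have hx : (0 : ℝ) < 1 / 16 := by norm_num
  have hF : ∀ p ∈ (∅ : Set Cell), p = (0, 1) ∨ p = (1, 0) := fun _ hp => hp.elim
  obtain ⟨lam, hl, -⟩ := exists_limit hx (Set.mem_singleton 0) hF h
  exact ⟨rep_finite hx (Set.mem_singleton 0) hF h, lam, hl⟩

end Pool.Agent.MP_6a06cd_co.KL
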