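import Pool.Agent.MP_6a06cd_co.KL.Spec3

/-! Row Lin: bounds and linearity of the integer recursions. -/

namespace Pool.Agent.MP_6a06cd_co.KL

open Finset K

namespace Lin

theorem fld_len (m : ℕ) : (fld m).length ≤ 1 := by
  unfold fld
  split_ifs <;> simp

theorem mvs_len (fin : Bool) (k c : ℕ) : (mvs fin k c).length ≤ 2 := by
  unfold mvs
  rw [List.length_append]
  have h1 := fld_len (ent fin k c % 4096)
  have h2 := fld_len (ent fin k c / 4096)
  omega

theorem list_abs {β : Type} (G : β → ℤ) (B : ℤ) (h : ∀ x, |G x| ≤ B) (l : List β) :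
    |(l.map G).sum| ≤ l.length * B := by
  induction l with
  | nil => simp
  | cons a l ih =>
    rw [List.map_cons, List.sum_cons, List.length_cons]
    have := abs_add_le (G a) (l.map G).sum
    have := h a
    push_cast
    linarith

theorem st_abs (F : ℕ → ℤ) (B : ℤ) (hB : 0 ≤ B) (h : ∀ s, |F s| ≤ B) (fin : Bool) (s : ℕ) :
    |stS fin F s| ≤ 2 * B := by
  unfold stS
  refine (list_abs _ B (fun x => h _) _).trans ?_
  have : ((mvs fin (s % 64) (s / 64 % 32)).length : ℤ) ≤ 2 := by exact_mod_cast mvs_len _ _ _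
  exact mul_le_mul_of_nonneg_right this hB

theorem sw_abs (F : ℕ → ℤ) (B : ℤ) (hB : 0 ≤ B) (h : ∀ s, |F s| ≤ B) (l : ℕ) :
    ∀ s, |swS F l s| ≤ 2 ^ l * B := by
  induction l with
  | zero => intro s; simpa [swS] using h s
  | succ l ih =>
    intro s
    have := st_abs (swS F l) (2 ^ l * B) (by positivity) ih false s
    rw [pow_succ]
    simp only [swS]
    linarith

theorem list_lin {β ι : Type} (T : Finset ι) (L : ι → ℝ) (G : ι → β → ℤ) (l : List β) :
    (l.map fun x => ∑ j ∈ T, L j * (G j x : ℝ)).sum = ∑ j ∈ T, L j * (((l.map (G j)).sum : ℤ) : ℝ) := by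
  induction l with
  | nil => simp
  | cons a l ih =>
    simp only [List.map_cons, List.sum_cons, ih, Int.cast_add, mul_add, Finset.sum_add_distrib]

theorem st_lin {ι : Type} (T : Finset ι) (L : ι → ℝ) (F : ι → ℕ → ℤ) (fin : Bool) (s : ℕ) :
    stS fin (fun s => ∑ j ∈ T, L j * (F j s : ℝ)) s = ∑ j ∈ T, L j * ((stS fin (F j) s : ℤ) : ℝ) := by
  unfold stS
  exact list_lin T L (fun j (m : ℕ × ℕ) => F j (nx s m.1 m.2)) _

theorem sw_lin {ι : Type} (T : Finset ι) (L : ι → ℝ) (F : ι → ℕ → ℤ) (l : ℕ) :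
    ∀ s, swS (fun s => ∑ j ∈ T, L j * (F j s : ℝ)) l s = ∑ j ∈ T, L j * ((swS (F j) l s : ℤ) : ℝ) := by
  induction l with
  | zero => intro s; simp only [swS]
  | succ l ih =>
    intro s
    simp only [swS]
    rw [show swS (fun s => ∑ j ∈ T, L j * (F j s : ℝ)) l =
      fun s => ∑ j ∈ T, L j * ((swS (F j) l s : ℤ) : ℝ) from funext ih]
    exact st_lin T L (fun j => swS (F j) l) false s

variable (g : ℕ → ℕ)

theorem sB2_dl (y b t i s : ℕ) (hs : s ∈ range (r9 g b)) : sB2 g (dl s) y b t i = Q2 g y b t s i := by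
  unfold sB2 dl
  simp only [mul_ite, mul_one, mul_zero]
  rw [Finset.sum_ite_eq' , if_pos hs]

theorem sB2_lin (m : ℕ → ℤ) (y b t i : ℕ) :
    sB2 g m y b t i = ∑ s ∈ range (r9 g b), m s * sB2 g (dl s) y b t i := by
  rw [sB2]
  refine Finset.sum_congr rfl fun s hs => ?_
  rw [sB2_dl g y b t i s hs, mul_comm]

theorem sB1_lin (m : ℕ → ℤ) (z y b t2 t1 i : ℕ) :
    sB1 g m z y b t2 t1 i = ∑ s ∈ range (r9 g b), m s * sB1 g (dl s) z y b t2 t1 i := by
  unfold sB1
  simp only [Finset.mul_sum]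
  rw [Finset.sum_comm]
  refine Finset.sum_congr rfl fun r _ => ?_
  rw [sB2_lin g m, Finset.mul_sum]
  refine Finset.sum_congr rfl fun s _ => ?_
  ring

theorem sT_lin (m : ℕ → ℤ) (f : ℕ → ℕ) (c z y b t2 t1 t : ℕ) :
    sT g m f c z y b t2 t1 t = ∑ s ∈ range (r9 g b), m s * sT g (dl s) f c z y b t2 t1 t := by
  unfold sT
  simp only [Finset.mul_sum]
  rw [Finset.sum_comm]
  refine Finset.sum_congr rfl fun r _ => ?_
  rw [sB1_lin g m, Finset.mul_sum, Finset.mul_sum]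
  refine Finset.sum_congr rfl fun s _ => ?_
  ring

theorem oS_lin (n : ℕ) (T : Finset ℕ) (m : ℕ → ℤ) (F : ℕ → ℤ) (G : ℕ → ℕ → ℤ)
    (h : ∀ t, F t = ∑ s ∈ T, m s * G s t) : oS n F = ∑ s ∈ T, m s * oS n (G s) := by
  unfold oS
  split_ifs
  · simp
  · exact h _

theorem lh_lin (m : ℕ → ℤ) (c : ℕ) :
    lh g m c = ∑ s ∈ range (r9 g (bA (c % 32))), m s * lh g (dl s) c := by
  unfold lh
  refine oS_lin _ _ _ _ _ fun t2 => ?_
  refine oS_lin _ _ _ _ _ fun t1 => ?_
  refine oS_lin _ _ _ _ _ fun t => ?_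
  exact sT_lin g m _ _ _ _ _ _ _ _

theorem lm_lin (m : ℕ → ℤ) (w : List ℕ) :
    lm g m w = ∑ s ∈ range (r9 g (bA (cd w % 32))), m s * lm g (dl s) w := by
  unfold lm
  rw [lh_lin g m, Finset.mul_sum]
  refine Finset.sum_congr rfl fun s _ => ?_
  ring

theorem gI_sym (a : List ℕ) (k : ℕ) (b : List ℕ) : gI g a k b =
    ∑ i ∈ range (r9 g (bA (cd a % 32))), lm g (dl i) a * lm g (fun s => Mx g k i s) b := by
  unfold gI
  have h1 : ∀ j, lm g (dl j) b * lm g (fun s => Mx g k s j) a =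
      ∑ i ∈ range (r9 g (bA (cd a % 32))), lm g (dl j) b * (Mx g k i j * lm g (dl i) a) := by
    intro j
    rw [lm_lin g (fun s => Mx g k s j) a, Finset.mul_sum]
  have h2 : ∀ i, lm g (dl i) a * lm g (fun s => Mx g k i s) b =
      ∑ j ∈ range (r9 g (bA (cd b % 32))), lm g (dl i) a * (Mx g k i j * lm g (dl j) b) := by
    intro i
    rw [lm_lin g (fun s => Mx g k i s) b, Finset.mul_sum]
  simp only [h1, h2]
  rw [Finset.sum_comm]
  refine Finset.sum_congr rfl fun i _ => Finset.sum_congr rfl fun j _ => ?_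
  ring

theorem sB2_neg (m : ℕ → ℤ) (y b t i : ℕ) : sB2 g (fun s => - m s) y b t i = - sB2 g m y b t i := by
  unfold sB2
  simp only [mul_neg, Finset.sum_neg_distrib]

theorem sB1_neg (m : ℕ → ℤ) (z y b t2 t1 i : ℕ) :
    sB1 g (fun s => - m s) z y b t2 t1 i = - sB1 g m z y b t2 t1 i := by
  unfold sB1
  simp only [sB2_neg, mul_neg, Finset.sum_neg_distrib]

theorem sT_neg (m : ℕ → ℤ) (f : ℕ → ℕ) (c z y b t2 t1 t : ℕ) :
    sT g (fun s => - m s) f c z y b t2 t1 t =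
      - ((f (noc4 (il g z t)) : ℤ) * c * sT g m (fun _ => 1) 1 z y b t2 t1 t) := by
  unfold sT
  rw [Finset.mul_sum, ← Finset.sum_neg_distrib]
  refine Finset.sum_congr rfl fun i _ => ?_
  rw [sB1_neg]
  push_cast
  ring

end Lin

theorem rowLin : SLin :=
  ⟨fun F B hB h => ⟨Lin.st_abs F B hB h, Lin.sw_abs F B hB h⟩,
   fun _ T L F => ⟨Lin.st_lin T L F, Lin.sw_lin T L F⟩,
   Lin.lh_lin, Lin.gI_sym, Lin.sT_neg⟩

end Pool.Agent.MP_6a06cd_co.KL
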