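import Pool.Agent.MP_6a06cd_co.KL.Spec

/-! Lower bounds for the generating function of the strip from finite sums. -/

namespace Pool.Agent.MP_6a06cd_co.KL

open Finset H45 Filter Topology
open scoped NNReal ENNReal Classical

namespace Low

theorem fin_le (hg : SGf) (x : ℝ≥0) (A : Finset ℕ → Prop) (T : Finset (Finset ℕ)) :
    ENNReal.ofReal (∑ F ∈ T, (x : ℝ) ^ F.card * if A F then 1 else 0) ≤ gf x {S | A S} := by
  refine le_trans (le_of_eq ?_) (hg.2.2.2.2.2 ℕ x {S | A S} (T.filter A) fun P hP =>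
    (mem_filter.1 hP).2)
  simp only [mul_ite, mul_one, mul_zero]
  rw [← sum_filter, ENNReal.ofReal_sum_of_nonneg fun _ _ => by positivity]
  refine sum_congr rfl fun F _ => ?_
  rw [ENNReal.ofReal_pow x.coe_nonneg, ENNReal.ofReal_coe_nnreal]

end Low

theorem rowLow : OfLow := by
  intro hg hv ht x n lo t0 len per M y hn hper hx hfin hM h
  have h1 : ∀ N, 1 ≤ N → ENNReal.ofReal y ≤ gf x {S | Gd n lo t0 len S} +
      ENNReal.ofReal M * gf x {S | Alive n t0 len (t0 + per * N) S} := by
    intro N hN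
    have h2 := h N hN
    rw [hv.1] at h2
    have h3 : ∀ F : Finset ℕ, (x : ℝ) ^ F.card * φL n lo t0 len (t0 + per * N) M (∅ ∪ F) =
        ((x : ℝ) ^ F.card * if Gd n lo t0 len F then 1 else 0) +
          M * ((x : ℝ) ^ F.card * if Alive n t0 len (t0 + per * N) F then 1 else 0) := by
      intro F
      rw [empty_union, φL]
      split_ifs <;> ring
    simp only [h3] at h2
    rw [sum_add_distrib, ← mul_sum] at h2
    refine (ENNReal.ofReal_le_ofReal h2).trans (ENNReal.ofReal_add_le.trans ?_)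
    rw [ENNReal.ofReal_mul hM]
    exact add_le_add (Low.fin_le hg x _ _) (mul_le_mul_right (Low.fin_le hg x _ _) _)
  have h4 : Tendsto (fun N : ℕ => t0 + per * N) atTop atTop :=
    tendsto_atTop_mono (fun N => le_add_left (Nat.le_mul_of_pos_left N hper)) tendsto_id
  have h5 := (ENNReal.Tendsto.const_mul (a := ENNReal.ofReal M)
    ((ht x n t0 len hn hx hfin).comp h4) (Or.inr ENNReal.ofReal_ne_top)).const_add
      (gf x {S | Gd n lo t0 len S})
  rw [mul_zero, add_zero] at h5
  exact ge_of_tendsto h5 (eventually_atTop.2 ⟨1, h1⟩)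

end Pool.Agent.MP_6a06cd_co.KL
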