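import Pool.Agent.MP_6a06cd_co.KL.Spec

/-! One move of the lazy machine keeps the invariant. -/

namespace Pool.Agent.MP_6a06cd_co.KL

open Finset

namespace Mv

theorem arc (s : SW) {P : Finset ℕ} {w : List ℕ} {e z α : ℕ} (h : Wb P w e (rB z) α)
    (h4 : z = 4 → C P α (e - 1)) (hz : hR z = true) : ∃ y, Rec w e y ∧ C P α y := by
  simp only [hR, Bool.or_eq_true, beq_iff_eq] at hz
  rcases hz with (rfl | rfl) | rfl
  · exact s.2.2.2.2.2.1 P w e _ α h rfl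
  · exact s.2.2.2.2.2.1 P w e _ α h rfl
  · exact ⟨_, (s.2.2.2.2.1 P w e _ α h rfl).2.1, h4 rfl⟩

theorem ar {τ n m t0 : ℕ} (len : n + (m + 1) = 18) (md : (τ - n) % 18 = 0) (ge : 36 + n ≤ τ)
    (h : t0 ≤ τ) : (n + 1 + m = 18 ∧ (τ + 1 - (n + 1)) % 18 = 0 ∧ 36 + (n + 1) ≤ τ + 1 ∧
      t0 ≤ τ + 1) ∧ 2 ≤ τ + 1 ∧ 18 ≤ τ - n ∧ τ + 1 - 2 * (n + 1) = τ - 2 * n - 1 ∧
      τ - 2 * n - 1 - m = τ - n - 18 ∧ (m = 0 → (τ + 1) % 36 = (τ - 2 * n - 1) % 36) := by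
  omega

theorem five (s : SW) {P : Finset ℕ} {w : List ℕ} {e α : ℕ} (h : Wb P w e 5 α) :
    (∀ y, ¬ Rec w e y) ∧ Tch P (e - w.length) := by
  obtain ⟨h1, -, h2⟩ := s.2.2.2.2.2.2.1 P w e 5 α h
  refine ⟨fun y => ?_, h2 rfl⟩
  rw [(s.2.2.2.2.2.2.2.1 w).2 h1]
  exact (s.2.2.2.2.2.2.2.2.1 _ e y).2

theorem occ_x {c : ℕ} (h : occ c = true) : xB (aB c) = true := by
  have : c ≤ 15 := by
    simp only [occ, Bool.or_eq_true, Bool.and_eq_true, decide_eq_true_eq] at h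
    omega
  revert h
  interval_cases c <;> decide

theorem ends {P : Finset ℕ} {m : ℕ} (h0 : m % 18 = 0) (h1 : 18 ≤ m) (h2 : Tch P m)
    (h3 : Tch P (m - 18)) : (∃ τ ∈ P, uT 18 τ = 0) ∧ ∃ τ ∈ P, uT 18 τ = 2 * 18 - 1 := by
  obtain ⟨p, p1, p2⟩ := h2
  obtain ⟨q, q1, q2⟩ := h3
  have a : ∀ p, (p + 1) % 36 = 0 → uT 18 p = 0 := fun p h => by
    unfold uT
    split_ifs <;> omega
  have b : ∀ p, (p + 1) % 36 = 18 → uT 18 p = 2 * 18 - 1 := fun p h => by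
    unfold uT
    split_ifs <;> omega
  by_cases h : m % 36 = 0
  · exact ⟨⟨p, p1, a p (by omega)⟩, q, q1, b q (by omega)⟩
  · exact ⟨⟨q, q1, a q (by omega)⟩, p, p1, b p (by omega)⟩

end Mv

open Mv in
theorem rowMv : OfMv := by
  intro s ed t0 win τ P a k c w y k' hw hI ok
  obtain ⟨k35, len, md, ge, t0τ, rg, ⟨αL, αR, Wa, ⟨c1, -, -, c4, α', Ww, c5, c6, c7, c8⟩, L⟩,
    g5, gn⟩ := hI
  obtain ⟨⟨r1, r2, r3, r4⟩, r5, r6, e1, r7, r8⟩ := ar len md ge t0τ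
  replace e1 : τ + 1 - 2 * (y :: a).length = τ - 2 * a.length - 1 := e1
  have H := ed P τ a k c w αL α' αR (occ y) len md ge Wa c1 c4 Ww c5 c6 c7 c8 L k35
  obtain ⟨P', hP⟩ : ∃ P', P' = if occ y = true then insert τ P else P := ⟨_, rfl⟩
  rw [← hP] at H ⊢
  have sub : P ⊆ P' := by
    rw [hP]
    split_ifs
    exacts [subset_insert _ _, Subset.rfl]
  have new : occ y = true → τ ∈ P' := fun h => by simp [hP, h]
  have old : ∀ p ∈ P', p ∈ P ∨ (occ y = true ∧ p = τ) := fun p hp => by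
    rw [hP] at hp
    split_ifs at hp with h
    exacts [(mem_insert.1 hp).symm.imp_right fun e => ⟨h, e⟩, .inl hp]
  have mo := fun u v => s.1 P P' u v sub
  have tr := s.2.2.1 P'
  generalize τ - 2 * a.length = e at *
  have aN : ∀ i, anN k c (occ y) i = true →
      ∃ z, Rec (y :: a) (τ + 1) z ∧ C P' (nd τ e αL α' αR i) z := fun i h => by
    simp only [anN, Bool.or_eq_true, Bool.and_eq_true, beq_iff_eq] at h
    rcases h with ((h | h) | h) | h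
    · obtain ⟨z, z1, z2⟩ := arc s Wa L.1 h.2
      exact ⟨z, .inr z1, tr _ _ _ (H i 0 h.1) (mo _ _ z2)⟩
    · exact ⟨_, .inr (s.2.2.2.2.1 P a τ _ αL Wa h.2).2.1, H i 1 h.1⟩
    · obtain ⟨z, z1, z2⟩ := L.2.2.2.1 h.2
      exact ⟨z, .inr z1, tr _ _ _ (H i 2 h.1) (mo _ _ z2)⟩
    · exact ⟨τ, .inl ⟨h.2, rfl⟩, H i 6 h.1⟩
  have aO : ∀ i, anO k c (occ y) i = true →
      ∃ z, Rec w (e - 1) z ∧ C P' (nd τ e αL α' αR i) z := fun i h => by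
    simp only [anO, Bool.or_eq_true, Bool.and_eq_true] at h
    rcases h with h | h
    · exact ⟨_, (s.2.2.2.2.1 P w _ _ α' Ww h.2).2.1, H i 3 h.1⟩
    · obtain ⟨z, z1, z2⟩ := arc s Ww c5 h.2
      exact ⟨z, z1, tr _ _ _ (H i 4 h.1) (mo _ _ z2)⟩
  simp only [okMv, Bool.and_eq_true, Bool.or_eq_true, decide_eq_true_eq, beq_iff_eq, bne_iff_ne,
    ne_eq, Bool.not_eq_true', ← Bool.not_eq_true, ← imp_iff_not_or, and_assoc] at ok
  obtain ⟨o1, o2, o3, o4, o5, o6, o7, o8, o9, o10, o11, o12, o13, o14, o15⟩ := ok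
  refine ⟨o1, r1, r2, r3, r4, fun p hp => ?_,
    ⟨nd τ e αL α' αR (if kZ k' = 4 then 6 else 0), α',
      ⟨o3, o3 ▸ o4, r5, new, αL, o2 ▸ s.2.2.2.1 P P' a τ _ αL sub Wa,
        fun h => mo _ _ (L.1 (o2 ▸ h)), fun h => H _ _ (o6 h), fun h => H _ _ (o7 h),
        fun h => H _ _ (o8 h)⟩, ?_, ?_⟩, fun h5 => ?_, fun h5 => ?_⟩
  · rcases old p hp with h | ⟨-, rfl⟩
    · exact ⟨(rg p h).1, (rg p h).2.trans (Nat.lt_succ_self _)⟩
    · exact ⟨t0τ, Nat.lt_succ_self _⟩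
  · rw [e1]
    rcases o9 with h | ⟨rfl, h1, -, h2⟩
    · exact h ▸ s.2.2.2.1 P P' w _ _ α' sub Ww
    · exact .inr ⟨h2, τ, new h1, r8 rfl⟩
  · rw [e1]
    refine ⟨fun h => ?_, fun h => H _ _ (o10 h), fun h => H _ _ (o11 h), fun h => aN 3 (o12 h),
      fun h => H _ _ (o13 h), fun h => H _ _ (o14 h)⟩
    rw [if_pos h]
    exact ⟨new (o5 h), .refl⟩
  · rw [if_pos h5] at o15
    simp only [Bool.and_eq_true, Bool.or_eq_true, beq_iff_eq, bne_iff_ne, ne_eq,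
      Bool.not_eq_true'] at o15
    obtain rfl : P' = P := by simp [hP, o15.1]
    by_cases k5 : k = 5
    · exact g5 k5
    obtain ⟨⟨k4, z1⟩, z2⟩ := o15.2.resolve_left k5
    rw [z1] at Wa
    rw [z2] at Ww
    obtain ⟨a1, a2⟩ := five s Wa
    obtain ⟨b1, b2⟩ := five s Ww
    have cn : ∀ p ∈ P', C P' p (e - 1) := fun p hp => by
      obtain ⟨z, h | h | h, hz⟩ := (gn k5).1 p hp
      exacts [(a1 z h).elim, h.2 ▸ hz, (b1 z h).elim]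
    obtain ⟨u1, u2⟩ := ends md r6 a2 (r7 ▸ b2)
    exact ⟨fun p hp q hq => tr _ _ _ (cn p hp) (s.2.1 _ _ _ (cn q hq)).1,
      fun p hp => ⟨(rg p hp).1, Nat.zero_le _⟩, u1, u2, (gn k5).2.resolve_right fun h => k4 h.1⟩
  · rw [if_neg h5] at o15
    simp only [Bool.and_eq_true, Bool.or_eq_true, beq_iff_eq, bne_iff_ne, ne_eq,
      Bool.not_eq_true'] at o15
    obtain ⟨⟨k5, x1⟩, x2⟩ := o15
    rw [e1]
    refine ⟨fun p hp => ?_, ?_⟩
    · rcases old p hp with h | ⟨h, rfl⟩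
      · obtain ⟨z, h | ⟨h, rfl⟩ | h, hz⟩ := (gn k5).1 p h
        · exact ⟨z, .inl (.inr h), mo _ _ hz⟩
        · rcases x1 with (x | x) | x
          · rw [← c1, occ_x h] at x
            cases x
          · obtain ⟨z, z1, z2⟩ := aN 2 x
            exact ⟨z, .inl z1, tr _ _ _ (mo _ _ hz) z2⟩
          · obtain ⟨z, z1, z2⟩ := aO 2 x
            exact ⟨z, .inr z1, tr _ _ _ (mo _ _ hz) z2⟩
        · exact ⟨z, .inr h, mo _ _ hz⟩
      · exact ⟨p, .inl (.inl ⟨h, rfl⟩), hp, .refl⟩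
    · rcases (gn k5).2 with ⟨p, p1, p2⟩ | ⟨k4, wn⟩
      · exact .inl ⟨p, sub p1, p2⟩
      · rcases x2 with (x | x) | x
        exacts [(x k4).elim, .inl ⟨τ, new x, hw wn⟩, .inr ⟨x, wn⟩]

end Pool.Agent.MP_6a06cd_co.KL
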