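import Pool.Agent.MP_6a06cd_co.KL.Spec

/-! The partition of the animals by their first cut. -/

namespace Pool.Agent.MP_6a06cd_co.KL

open Finset H45 Filter Topology
open scoped NNReal ENNReal Classical

namespace Ren1

theorem nocut_succ (P : Finset Cell) {m : ℤ} (hm : 1 ≤ m) :
    NoCut P (m + 1) ↔ NoCut P m ∧ ¬ CutU P m ∧ ¬ CutD P m := by
  refine ⟨fun h => ⟨fun j h1 h2 => h j h1 (by omega), h m hm (by omega)⟩, fun h j h1 h2 => ?_⟩
  rcases (show j < m ∨ j = m by omega) with h3 | rfl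
  exacts [h.1 j h1 h3, h.2]

theorem step (hG : SGf) (hH : SHt) (x : ℝ≥0) {d m : ℕ} (h1 : 1 ≤ m) (h2 : m < d) :
    gf x {P | P ∈ An 0 (d - 1) ∧ Bot (0, 0) P ∧ NoCut P m} =
      gf x {P | P ∈ An 0 (d - 1) ∧ Bot (0, 0) P ∧ NoCut P (m + 1 : ℕ)} + (FU x d m + FD x d m) := by
  have hm : (1 : ℤ) ≤ m := by exact_mod_cast h1
  unfold FU FD
  rw [← hG.2.1 _ x _ _ (Set.disjoint_left.2 fun P a b => ?_),
    ← hG.2.1 _ x _ _ (Set.disjoint_left.2 fun P a b => ?_)]
  · congr 1
    ext P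
    simp only [Set.mem_setOf_eq, Set.mem_union, Nat.cast_add, Nat.cast_one, nocut_succ P hm]
    tauto
  · simp only [Set.mem_setOf_eq, Set.mem_union, Nat.cast_add, Nat.cast_one, nocut_succ P hm] at a b
    tauto
  · obtain ⟨p, hp, e⟩ := hH.2.2.2 0 (d - 1) (m - 1) P a.1 (by omega) (by omega)
    obtain ⟨q, hq, e'⟩ := hH.2.2.2 0 (d - 1) m P a.1 (by omega) (by omega)
    exact lt_asymm (a.2.2.2 p hp q hq e e') (b.2.2.2 p hp q hq e e')

end Ren1

theorem rowRen1 : OfRen1 := by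
  intro hG hH x d hd
  have key : ∀ m, 1 ≤ m → m ≤ d → B x d =
      gf x {P | P ∈ An 0 (d - 1) ∧ Bot (0, 0) P ∧ NoCut P m} +
        ∑ i ∈ Ico 1 m, (FU x d i + FD x d i) := by
    intro m h1
    induction m, h1 using Nat.le_induction with
    | base =>
      intro _
      rw [Ico_self, sum_empty, add_zero, B]
      congr 1
      ext P
      exact and_congr_right' (and_iff_left fun j h1 h2 => by omega).symm
    | succ m h1 ih =>
      intro h2
      rw [ih (by omega), Ren1.step hG hH x h1 h2, sum_Ico_succ_top h1, add_assoc,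
        add_comm (FU x d m + FD x d m)]
  exact key d hd le_rfl

end Pool.Agent.MP_6a06cd_co.KL
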