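import Pool.Agent.MP_6a06cd_co.KL.Spec

/-! Renewal at a downward cut. -/

namespace Pool.Agent.MP_6a06cd_co.KL

open Finset H45
open scoped Classical

namespace RenD

theorem adj_symm {p q : Cell} (h : Adj p q) : Adj q p := by
  unfold Adj at *
  rwa [abs_sub_comm q.1, abs_sub_comm q.2]

theorem Cn.trans' {S : Finset Cell} {a b c : Cell} (h : Cn Adj S a b) (k : Cn Adj S b c) :
    Cn Adj S a c := ⟨h.1, h.2.trans k.2⟩

theorem symm' {S : Finset Cell} {a b : Cell} (h : Cn Adj S a b) : Cn Adj S b a := by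
  obtain ⟨h1, h2⟩ := h
  induction h2 with
  | refl => exact ⟨h1, .refl⟩
  | tail _ k ih => exact ⟨k.2, .head ⟨adj_symm k.1, ih.1⟩ ih.2⟩

theorem mono' {S T : Finset Cell} (h : S ⊆ T) {a b : Cell} (k : Cn Adj S a b) : Cn Adj T a b :=
  ⟨h k.1, Relation.ReflTransGen.mono (fun _ _ e => ⟨e.1, h e.2⟩) _ _ k.2⟩

theorem con_of {S : Finset Cell} {c : Cell} (h : ∀ b ∈ S, Cn Adj S c b) : Con Adj S :=
  fun a ha b hb => Cn.trans' (symm' (h a ha)) (h b hb)

/-- a part that can be entered at one cell only is connected -/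
theorem part {S : Finset Cell} (h : Con Adj S) {π : Cell → Prop} [DecidablePred π] {c : Cell}
    (hc : c ∈ S) (hπ : π c) (e : ∀ a ∈ S, ∀ b ∈ S, Adj a b → ¬ π a → π b → b = c) :
    Con Adj (S.filter π) := by
  have key : ∀ b, Relation.ReflTransGen (fun u v => Adj u v ∧ v ∈ S) c b →
      b ∈ S ∧ (π b → Cn Adj (S.filter π) c b) := fun b k => by
    induction k with
    | refl => exact ⟨hc, fun _ => ⟨mem_filter.2 ⟨hc, hπ⟩, .refl⟩⟩
    | @tail a b _ k ih =>
      refine ⟨k.2, fun hb => ?_⟩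
      by_cases ha : π a
      · exact ⟨(ih.2 ha).1, (ih.2 ha).2.tail ⟨k.1, mem_filter.2 ⟨k.2, hb⟩⟩⟩
      · rw [e a ih.1 b k.2 k.1 ha hb]
        exact ⟨mem_filter.2 ⟨hc, hπ⟩, .refl⟩
  exact con_of fun b hb => (key b (h c hc b (mem_filter.1 hb).1).2).2 (mem_filter.1 hb).2

/-- the only edge through the cut -/
theorem edge {S : Finset Cell} {i : ℤ} (hb : Bot (i - 1, 0) S) (hc : CutD S i) {a b : Cell}
    (ha : a ∈ S) (hb' : b ∈ S) (e : Adj a b) (h1 : uu a < i) (h2 : i ≤ uu b) :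
    a = (i - 1, 0) ∧ b = (i - 1, -1) := by
  have k1 := hb.2 a ha
  have k2 := hc a ha b hb'
  have k3 := hc _ hb.1 b hb'
  obtain ⟨a1, a2⟩ := a
  obtain ⟨b1, b2⟩ := b
  simp only [Adj, uu, ww, Prod.mk.injEq] at *
  rcases abs_cases (a1 - b1) with u | u <;> rcases abs_cases (a2 - b2) with v | v <;> omega

theorem filt {P R : Finset Cell} {i : ℤ} (hP : ∀ p ∈ P, uu p ≤ i - 1) (hR : ∀ p ∈ R, i ≤ uu p) :
    (P ∪ R).filter (fun p => uu p < i) = P ∧ (P ∪ R).filter (fun p => i ≤ uu p) = R := by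
  constructor <;> ext p <;> have := hP p <;> have := hR p <;> rw [mem_filter, mem_union]
  · exact ⟨fun h => h.1.resolve_right fun k => by have := hR p k; omega,
      fun h => ⟨Or.inl h, by have := hP p h; omega⟩⟩
  · exact ⟨fun h => h.1.resolve_left fun k => by have := hP p k; omega,
      fun h => ⟨Or.inr h, hR p h⟩⟩

end RenD

open RenD

theorem rowRenD : OfRenD := by
  rintro ⟨-, -, -, g, -⟩ - ⟨c1, c2, c3⟩ x d i hi hd
  have u1 : uu ((i : ℤ) - 1, 0) = i - 1 := by simp [uu]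
  have u2 : uu ((i : ℤ) - 1, -1) = i := by simp [uu]
  have w1 : ww ((i : ℤ) - 1, 0) = i - 1 := by simp [ww]
  have w2 : ww ((i : ℤ) - 1, -1) = i - 2 := by simp only [ww]; ring
  have e1 := (c1 x (d - i) ((i : ℤ) - 1, -1) (by omega)).2
  rw [u2, show (i : ℤ) + (d - i : ℕ) - 1 = d - 1 by omega] at e1
  rw [← e1, ← (c2 x i _ hi u1).2, ← (c3 x d i _ hi hd u1).2]
  refine g _ x _ _ _ (· ∪ ·) ?_ ?_ ?_
  · rintro P ⟨⟨p1, p2, p3, -⟩, p5, p6⟩ R ⟨⟨r1, r2, -, r4⟩, r5⟩
    have inP : ∀ p ∈ P ∪ R, uu p = i - 1 → p ∈ P := fun p hp e =>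
      (mem_union.1 hp).resolve_right fun k => by have := r2 p k; omega
    have inR : ∀ p ∈ P ∪ R, uu p = i → p ∈ R := fun p hp e =>
      (mem_union.1 hp).resolve_left fun k => by have := p2 p k; omega
    refine ⟨⟨⟨con_of (c := ((i : ℤ) - 1, 0)) fun b hb => ?_, fun p hp => ?_,
      p3.imp fun p h => ⟨mem_union_left _ h.1, h.2⟩, r4.imp fun p h => ⟨mem_union_right _ h.1, h.2⟩⟩,
      ⟨mem_union_left _ p5.1, fun p hp e => p5.2 p (inP p hp (e.trans u1)) e⟩,
      fun j j1 j2 => ⟨fun k => (p6 j j1 j2).1 fun p hp q hq =>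
        k p (mem_union_left _ hp) q (mem_union_left _ hq), fun k => (p6 j j1 j2).2 fun p hp q hq =>
        k p (mem_union_left _ hp) q (mem_union_left _ hq)⟩, fun p hp q hq e e' => ?_⟩,
      card_union_of_disjoint (disjoint_left.2 fun p hp hq => ?_)⟩
    · rcases mem_union.1 hb with hb | hb
      · exact mono' subset_union_left (p1 _ p5.1 b hb)
      · exact ⟨mem_union_left _ p5.1, .head ⟨by simp [Adj], mem_union_right _ r5.1⟩
          (mono' subset_union_right (r1 _ r5.1 b hb)).2⟩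
    · rcases mem_union.1 hp with hp | hp
      · have := p2 p hp
        omega
      · have := r2 p hp
        omega
    · have := p5.2 p (inP p hp e) (e.trans u1.symm)
      have := r5.2 q (inR q hq e') (e'.trans u2.symm)
      omega
    · have := p2 p hp
      have := r2 p hq
      omega
  · rintro P ⟨⟨-, p2, -⟩, -⟩ R ⟨⟨-, r2, -⟩, -⟩ P' ⟨⟨-, p2', -⟩, -⟩ R' ⟨⟨-, r2', -⟩, -⟩ e
    have a := filt (fun p h => (p2 p h).2) fun p h => (r2 p h).1
    have b := filt (fun p h => (p2' p h).2) fun p h => (r2' p h).1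
    rw [show P ∪ R = P' ∪ R' from e] at a
    exact ⟨a.1.symm.trans b.1, a.2.symm.trans b.2⟩
  · rintro S ⟨⟨s1, s2, ⟨p, hp, s3⟩, q, hq, s4⟩, s5, s6, s7⟩
    have hc : ((i : ℤ) - 1, (-1 : ℤ)) ∈ S := by
      have key : ∀ b, Relation.ReflTransGen (fun u v => Adj u v ∧ v ∈ S) ((i : ℤ) - 1, 0) b →
          b ∈ S ∧ (i ≤ uu b → ((i : ℤ) - 1, (-1 : ℤ)) ∈ S) := fun b k => by
        induction k with
        | refl => exact ⟨s5.1, fun h => by omega⟩
        | @tail a b _ k ih =>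
          refine ⟨k.2, fun hb => ?_⟩
          by_cases ha : uu a < i
          · exact (edge s5 s7 ih.1 k.2 k.1 ha hb).2 ▸ k.2
          · exact ih.2 (not_lt.1 ha)
      exact (key q (s1 _ s5.1 q hq).2).2 (by omega)
    have m1 : ((i : ℤ) - 1, (0 : ℤ)) ∈ S.filter fun p => uu p < i := mem_filter.2 ⟨s5.1, by omega⟩
    have m2 : ((i : ℤ) - 1, (-1 : ℤ)) ∈ S.filter fun p => i ≤ uu p := mem_filter.2 ⟨hc, by omega⟩
    refine ⟨S.filter fun p => uu p < i, ⟨⟨part s1 s5.1 (by omega) fun a ha b hb e h1 h2 =>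
        (edge s5 s7 hb ha (adj_symm e) h2 (not_lt.1 h1)).1, fun p hp => ?_,
        ⟨p, mem_filter.2 ⟨hp, by omega⟩, s3⟩, _, m1, u1⟩,
        ⟨m1, fun p hp => s5.2 p (mem_filter.1 hp).1⟩, fun j j1 j2 =>
        ⟨fun k => (s6 j j1 j2).1 fun p hp q hq e e' =>
          k p (mem_filter.2 ⟨hp, by omega⟩) q (mem_filter.2 ⟨hq, by omega⟩) e e',
        fun k => (s6 j j1 j2).2 fun p hp q hq e e' =>
          k p (mem_filter.2 ⟨hp, by omega⟩) q (mem_filter.2 ⟨hq, by omega⟩) e e'⟩⟩,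
      S.filter fun p => i ≤ uu p, ⟨⟨part s1 hc (by omega) fun a ha b hb e h1 h2 =>
        (edge s5 s7 ha hb e (not_le.1 h1) h2).2, fun p hp => ?_, ⟨_, m2, u2⟩,
        q, mem_filter.2 ⟨hq, by omega⟩, s4⟩, m2, fun p hp e => ?_⟩, ?_⟩
    · have := mem_filter.1 hp
      have := s2 p this.1
      omega
    · exact ⟨(mem_filter.1 hp).2, (s2 p (mem_filter.1 hp).1).2⟩
    · have := s7 _ s5.1 p (mem_filter.1 hp).1 u1 (e.trans u2)
      omega
    · simp only [← not_lt]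
      exact filter_union_filter_not_eq _ S

end Pool.Agent.MP_6a06cd_co.KL
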