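import Pool.Agent.MP_6a06cd_co.KL.Spec

/-! Splitting an animal at its first upward cut. -/

namespace Pool.Agent.MP_6a06cd_co.KL

open Finset H45
open scoped NNReal ENNReal Classical

namespace RenU

theorem adj_symm {p q : Cell} (h : Adj p q) : Adj q p := by
  unfold Adj at *
  rwa [abs_sub_comm q.1, abs_sub_comm q.2]

theorem cn_symm {S : Finset Cell} {a b : Cell} (h : Cn Adj S a b) : Cn Adj S b a := by
  obtain ⟨ha, h⟩ := h
  induction h with
  | refl => exact ⟨ha, .refl⟩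
  | tail _ h2 ih => exact ⟨h2.2, .head ⟨adj_symm h2.1, ih.1⟩ ih.2⟩

theorem con_of {S : Finset Cell} (c : Cell) (h : ∀ a ∈ S, Cn Adj S a c) : Con Adj S :=
  fun a ha b hb => ⟨ha, (h a ha).2.trans (cn_symm (h b hb)).2⟩

theorem cn_mono {S T : Finset Cell} (hs : S ⊆ T) {a b : Cell} (h : Cn Adj S a b) : Cn Adj T a b :=
  ⟨hs h.1, Relation.ReflTransGen.mono (fun _ _ h' => ⟨h'.1, hs h'.2⟩) _ _ h.2⟩

/-- a part that can only be left through one cell is connected -/
theorem con_filter {S : Finset Cell} (hS : Con Adj S) (φ : Cell → Prop) [DecidablePred φ] {c : Cell}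
    (hc : c ∈ S) (h : ∀ p ∈ S, ∀ q ∈ S, Adj p q → φ p → ¬φ q → p = c) : Con Adj (S.filter φ) := by
  refine con_of c fun a ha => ⟨ha, ?_⟩
  have h1 := (hS a (mem_filter.1 ha).1 c hc).2
  induction h1 using Relation.ReflTransGen.head_induction_on with
  | refl => exact .refl
  | @head a b h2 _ ih =>
    by_cases hb : φ b
    · exact .head ⟨h2.1, mem_filter.2 ⟨h2.2, hb⟩⟩ (ih (mem_filter.2 ⟨h2.2, hb⟩))
    · rw [h a (mem_filter.1 ha).1 b h2.2 h2.1 (mem_filter.1 ha).2 hb]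

theorem cross {S : Finset Cell} (φ : Cell → Prop) {a b : Cell} (h : Cn Adj S a b) (ha : φ a)
    (hb : ¬φ b) : ∃ p ∈ S, ∃ q ∈ S, Adj p q ∧ φ p ∧ ¬φ q := by
  obtain ⟨h0, h⟩ := h
  induction h with
  | refl => exact absurd ha hb
  | @tail p q h1 h2 ih =>
    by_cases hp : φ p
    · exact ⟨p, (cn_symm ⟨h0, h1⟩).1, q, h2.2, h2.1, hp, hb⟩
    · exact ih hp

theorem edge {S : Finset Cell} {i : ℤ} (ht : Top (i - 1, 0) S) (hc : CutU S i) {p q : Cell}
    (hp : p ∈ S) (hq : q ∈ S) (h : Adj p q) (h1 : uu p < i) (h2 : ¬uu q < i) :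
    p = (i - 1, 0) ∧ q = (i, 0) := by
  have h3 := ht.2 p hp
  have h4 := hc _ ht.1 q hq
  obtain ⟨p1, p2⟩ := p
  obtain ⟨q1, q2⟩ := q
  simp only [Adj, uu, ww, Prod.mk.injEq, Int.abs_eq_natAbs, sub_zero, add_zero, true_imp_iff] at *
  omega

end RenU

open RenU in
theorem rowRenU : OfRenU := by
  intro hG _ hC x d i h1 h2
  have u1 : uu ((i : ℤ) - 1, 0) = i - 1 := sub_zero _
  have u2 : uu ((i : ℤ), 0) = i := sub_zero _
  have h3 : ((d - i : ℕ) : ℤ) = d - i := Nat.cast_sub h2.le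
  rw [← (hC.2.2 x d i _ h1 h2 u1).1, ← (hC.2.1 x i _ h1 u1).1,
    ← (hC.1 x (d - i) ((i : ℤ), 0) (by omega)).1, u2, h3, add_sub_cancel]
  have hs : ∀ P ∈ An 0 ((i : ℤ) - 1), ∀ R ∈ An (i : ℤ) (d - 1), (P ∪ R).filter (uu · < i) = P ∧
      (P ∪ R).filter (¬uu · < i) = R := fun P hP R hR => by
    constructor
    all_goals
      ext p
      have := hP.2.1 p
      have := hR.2.1 p
      simp only [mem_filter, mem_union]
      by_cases p ∈ P <;> by_cases p ∈ R <;> simp only [*, true_imp_iff, true_or, or_true,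
        true_and, iff_true, iff_false, false_or, or_false, false_and] at * <;> omega
  refine hG.2.2.2.1 Cell x _ _ _ (· ∪ ·) ?_ ?_ ?_
  · rintro P ⟨hP, tP, nP⟩ R ⟨hR, bR⟩
    refine ⟨⟨⟨con_of ((i : ℤ) - 1, 0) fun a ha => ?_, fun p hp => ?_, ?_, ?_⟩,
      ⟨mem_union_left _ tP.1, fun p hp e => ?_⟩, fun j j1 j2 => ?_, fun p hp q hq e1 e2 => ?_⟩, ?_⟩
    · rcases mem_union.1 ha with h | h
      · exact cn_mono subset_union_left (hP.1 a h _ tP.1)
      · exact ⟨ha, (cn_mono subset_union_right (hR.1 a h _ bR.1)).2.tail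
          ⟨by simp [Adj], mem_union_left _ tP.1⟩⟩
    · rcases mem_union.1 hp with h | h
      · have := hP.2.1 p h
        omega
      · have := hR.2.1 p h
        omega
    · exact hP.2.2.1.imp fun p hp => ⟨mem_union_left _ hp.1, hp.2⟩
    · exact hR.2.2.2.imp fun p hp => ⟨mem_union_right _ hp.1, hp.2⟩
    · refine tP.2 p ((mem_union.1 hp).resolve_right fun h => ?_) e
      have := hR.2.1 p h
      omega
    · exact (nP j j1 j2).imp
        (mt fun h p hp q hq => h p (mem_union_left _ hp) q (mem_union_left _ hq))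
        (mt fun h p hp q hq => h p (mem_union_left _ hp) q (mem_union_left _ hq))
    · have h4 := tP.2 p ((mem_union.1 hp).resolve_right fun h => by
        have := hR.2.1 p h
        omega) (e1.trans u1.symm)
      have h5 := bR.2 q ((mem_union.1 hq).resolve_left fun h => by
        have := hP.2.1 q h
        omega) (e2.trans u2.symm)
      simp only [ww] at h4 h5 ⊢
      omega
    · refine card_union_of_disjoint (disjoint_left.2 fun p hp hq => ?_)
      have := hP.2.1 p hp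
      have := hR.2.1 p hq
      omega
  · intro P hP R hR P' hP' R' hR' e
    have e' : P ∪ R = P' ∪ R' := e
    exact ⟨by rw [← (hs P hP.1 R hR.1).1, e', (hs P' hP'.1 R' hR'.1).1],
      by rw [← (hs P hP.1 R hR.1).2, e', (hs P' hP'.1 R' hR'.1).2]⟩
  · rintro S ⟨⟨hS, hb, ⟨a, ha, ea⟩, b, hb', eb⟩, tS, nS, cS⟩
    obtain ⟨p, hp, q, hq, h4, h5, h6⟩ := cross (uu · < i) (hS a ha b hb') (by omega) (by omega)
    obtain ⟨-, rfl⟩ := edge tS cS hp hq h4 h5 h6
    have m1 : ((i : ℤ) - 1, (0 : ℤ)) ∈ S.filter (uu · < i) := mem_filter.2 ⟨tS.1, by omega⟩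
    have m2 : ((i : ℤ), (0 : ℤ)) ∈ S.filter (¬uu · < i) := mem_filter.2 ⟨hq, h6⟩
    refine ⟨S.filter (uu · < i), ⟨⟨con_filter hS _ tS.1 fun p hp q hq h e1 e2 =>
      (edge tS cS hp hq h e1 e2).1, fun p hp => ?_, ⟨a, mem_filter.2 ⟨ha, by omega⟩, ea⟩, _, m1, u1⟩,
      ⟨m1, fun p hp => tS.2 p (mem_filter.1 hp).1⟩, fun j j1 j2 => ?_⟩, S.filter (¬uu · < i),
      ⟨⟨con_filter hS _ hq fun p hp q hq h e1 e2 =>
        (edge tS cS hq hp (adj_symm h) (not_not.1 e2) e1).2, fun p hp => ?_, ⟨_, m2, u2⟩,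
        b, mem_filter.2 ⟨hb', by omega⟩, eb⟩, m2, fun p hp e => ?_⟩,
      filter_union_filter_not_eq _ _⟩
    · have := hb p (mem_filter.1 hp).1
      have := (mem_filter.1 hp).2
      omega
    · exact (nS j j1 j2).imp
        (mt fun h p hp q hq e1 e2 => h p (mem_filter.2 ⟨hp, by omega⟩) q
          (mem_filter.2 ⟨hq, by omega⟩) e1 e2)
        (mt fun h p hp q hq e1 e2 => h p (mem_filter.2 ⟨hp, by omega⟩) q
          (mem_filter.2 ⟨hq, by omega⟩) e1 e2)
    · have := hb p (mem_filter.1 hp).1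
      have := (mem_filter.1 hp).2
      omega
    · have := cS _ tS.1 p (mem_filter.1 hp).1 u1 (e.trans u2)
      simp only [ww] at this ⊢
      omega

end Pool.Agent.MP_6a06cd_co.KL
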