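import Pool.Agent.MP_6a06cd_co.KL.Spec3

/-! Row `Rq`: the algebra of packed representations. -/

namespace Pool.Agent.MP_6a06cd_co.KL

open Finset K

namespace RqA

theorem pk_add (W m : ℕ) (v v' : ℕ → ℤ) :
    pk W m (fun i => v i + v' i) = pk W m v + pk W m v' := by
  unfold pk
  rw [← sum_add_distrib]
  exact sum_congr rfl fun i _ => by ring

theorem pk_mul (W m : ℕ) (c : ℤ) (v : ℕ → ℤ) :
    pk W m (fun i => c * v i) = c * pk W m v := by
  unfold pk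
  rw [mul_sum]
  exact sum_congr rfl fun i _ => by ring

theorem pk_neg (W m : ℕ) (v : ℕ → ℤ) : pk W m (fun i => - v i) = - pk W m v := by
  unfold pk
  rw [← sum_neg_distrib]
  exact sum_congr rfl fun i _ => by ring

theorem pk_zero (W m : ℕ) : pk W m (fun _ => 0) = 0 := by
  unfold pk
  exact sum_eq_zero fun i _ => zero_mul _

theorem pk_congr (W m : ℕ) (v v' : ℕ → ℤ) (h : ∀ i, i < m → v i = v' i) :
    pk W m v = pk W m v' := by
  unfold pk
  exact sum_congr rfl fun i hi => by rw [h i (mem_range.1 hi)]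

theorem pk_sum (S n r : ℕ) (a : ℕ → ℤ) (y : ℕ → ℕ → ℤ) :
    ∑ s ∈ range r, a s * pk S n (y s) = pk S n fun t => ∑ s ∈ range r, a s * y s t := by
  unfold pk
  simp only [mul_sum, sum_mul]
  rw [sum_comm]
  exact sum_congr rfl fun t _ => sum_congr rfl fun s _ => by ring

theorem rq_add (W m Y Y' : ℕ) (v v' : ℕ → ℤ) (h : Rq W m Y v) (h' : Rq W m Y' v') :
    Rq W m (Y + Y') fun i => v i + v' i := by
  unfold Rq at *
  rw [pk_add, Nat.cast_add]
  exact h.add h'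

theorem rq_mul (W m c Y : ℕ) (v : ℕ → ℤ) (h : Rq W m Y v) :
    Rq W m (c * Y) fun i => (c : ℤ) * v i := by
  unfold Rq at *
  rw [pk_mul, Nat.cast_mul]
  exact h.mul_left _

theorem rq_zero (W m : ℕ) : Rq W m 0 fun _ => 0 := by
  unfold Rq
  rw [pk_zero, Nat.cast_zero]

theorem rq_congr (W m Y : ℕ) (v v' : ℕ → ℤ) (hv : ∀ i, i < m → v i = v' i) (h : Rq W m Y v) :
    Rq W m Y v' := by
  unfold Rq at *
  rwa [← pk_congr W m v v' hv]

theorem neg_modEq (hp : ∀ e, pw e = 2 ^ e ∧ mk e = 2 ^ e - 1) (e Y : ℕ) :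
    ((neg e Y : ℕ) : ℤ) ≡ - (Y : ℤ) [ZMOD 2 ^ e] := by
  have h1 : neg e Y = 2 ^ e - Y % 2 ^ e := by
    have h0 : neg e Y = pw e - (Y &&& mk e) := rfl
    rw [h0, (hp e).1, (hp e).2, Nat.and_two_pow_sub_one_eq_mod]
  have h2 : Y % 2 ^ e ≤ 2 ^ e := (Nat.mod_lt _ (Nat.two_pow_pos e)).le
  rw [h1, Nat.cast_sub h2]
  have h3 : ((Y % 2 ^ e : ℕ) : ℤ) ≡ (Y : ℤ) [ZMOD 2 ^ e] := by
    push_cast
    exact Int.mod_modEq _ _
  have h4 : ((2 ^ e : ℕ) : ℤ) ≡ 0 [ZMOD 2 ^ e] := by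
    push_cast
    exact Int.modEq_zero_iff_dvd.2 dvd_rfl
  have h5 := h4.sub h3
  rwa [zero_sub] at h5

theorem rq_neg (hp : ∀ e, pw e = 2 ^ e ∧ mk e = 2 ^ e - 1) (W m Y : ℕ) (v : ℕ → ℤ)
    (h : Rq W m Y v) : Rq W m (neg (W * m) Y) fun i => - v i := by
  unfold Rq at *
  rw [pk_neg]
  exact (neg_modEq hp _ _).trans h.neg

theorem modEq_sum (M : ℤ) (r : ℕ) (a b : ℕ → ℤ) (h : ∀ s, s < r → a s ≡ b s [ZMOD M]) :
    ∑ s ∈ range r, a s ≡ ∑ s ∈ range r, b s [ZMOD M] := by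
  induction r with
  | zero => simp only [range_zero, sum_empty, Int.ModEq.refl]
  | succ r ih =>
    rw [sum_range_succ, sum_range_succ]
    exact (ih fun s hs => h s (Nat.lt_succ_of_lt hs)).add (h r (Nat.lt_succ_self r))

theorem rq_krc (hp : ∀ e, pw e = 2 ^ e ∧ mk e = 2 ^ e - 1)
    (hsm : ∀ U r, sm U r = ∑ s ∈ range r, U s)
    (hkr : ∀ U u r, kr U u r = ∑ s ∈ range r, U s * u s)
    (W m o r : ℕ) (U u : ℕ → ℕ) (A : ℕ → ℕ → ℤ) (v : ℕ → ℤ)
    (hU : ∀ s, s < r → Rq W m (U s) (A s)) (hu : ∀ s, s < r → (u s : ℤ) = v s + o) :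
    Rq W m (krc (W * m) o U u r) fun i => ∑ s ∈ range r, A s i * v s := by
  have h0 : krc (W * m) o U u r = kr U u r + neg (W * m) (sm U r * o) := rfl
  unfold Rq at *
  have h1 : pk W m (fun i => ∑ s ∈ range r, A s i * v s) = ∑ s ∈ range r, v s * pk W m (A s) := by
    rw [pk_sum]
    exact pk_congr _ _ _ _ fun i _ => sum_congr rfl fun s _ => mul_comm _ _
  have h2 : ((kr U u r : ℕ) : ℤ) + - ((sm U r * o : ℕ) : ℤ) = ∑ s ∈ range r, v s * (U s : ℤ) := by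
    rw [hkr, hsm]
    push_cast
    rw [sum_mul, ← sum_neg_distrib, ← sum_add_distrib]
    exact sum_congr rfl fun s hs => by rw [hu s (mem_range.1 hs)]; ring
  rw [h0, h1, Nat.cast_add]
  refine ((Int.ModEq.refl _).add (neg_modEq hp _ _)).trans ?_
  rw [h2]
  exact modEq_sum _ _ _ _ fun s hs => (hU s hs).mul_left _

theorem bo_eq (hon : ∀ W m, 1 ≤ W → ones W m = ∑ i ∈ range m, 2 ^ (W * i)) (S n e : ℕ)
    (hS : 1 ≤ S) : ((bo S n e : ℕ) : ℤ) = 2 ^ e * o1 S n := by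
  have h0 : bo S n e = ones S n <<< e := rfl
  rw [h0, Nat.shiftLeft_eq, hon S n hS]
  unfold o1 pk
  push_cast
  rw [mul_comm]
  congr 1
  exact sum_congr rfl fun i _ => (one_mul _).symm

theorem o1_mul (S n m : ℕ) : o1 S (n * m) = pk (S * n) m fun _ => o1 S n := by
  induction m with
  | zero => simp only [o1, pk, Nat.mul_zero, range_zero, sum_empty]
  | succ m ih =>
    have h1 : pk (S * n) (m + 1) (fun _ => o1 S n) =
        pk (S * n) m (fun _ => o1 S n) + o1 S n * 2 ^ (S * n * m) := by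
      unfold pk
      rw [sum_range_succ]
    rw [h1, ← ih]
    unfold o1 pk
    rw [Nat.mul_succ, sum_range_add, sum_mul]
    congr 1
    refine sum_congr rfl fun t _ => ?_
    rw [Nat.mul_add, pow_add, Nat.mul_assoc]
    ring

theorem rq_nbo (hp : ∀ e, pw e = 2 ^ e ∧ mk e = 2 ^ e - 1)
    (hon : ∀ W m, 1 ≤ W → ones W m = ∑ i ∈ range m, 2 ^ (W * i)) (S n m e : ℕ) (hS : 1 ≤ S) :
    Rq (S * n) m (nbo S (n * m) e) fun _ => - (2 ^ e * o1 S n) := by
  have h0 : nbo S (n * m) e = neg (S * n * m) (bo S (n * m) e) := by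
    rw [Nat.mul_assoc]
    rfl
  rw [h0]
  refine rq_neg hp (S * n) m _ (fun _ => 2 ^ e * o1 S n) ?_
  unfold Rq
  rw [bo_eq hon S (n * m) e hS, o1_mul, pk_mul]

end RqA

open RqA in
theorem rowRq : OfRq := by
  rintro ⟨hp, -, -, -, -, hsm, hkr, hon, -⟩
  refine ⟨rq_add, rq_mul, rq_zero, rq_congr, rq_neg hp, rq_krc hp hsm hkr, bo_eq hon,
    rq_nbo hp hon, ?_, ?_, ?_, ?_, pk_sum⟩
  · intro S n m Y Y' y y' h h'
    exact rq_congr _ _ _ _ _ (fun i _ => (pk_add S n (y i) (y' i)).symm) (rq_add _ _ _ _ _ _ h h')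
  · intro S n m c Y y h
    exact rq_congr _ _ _ _ _ (fun i _ => (pk_mul S n c (y i)).symm) (rq_mul _ _ c _ _ h)
  · intro S n m
    exact rq_congr _ _ _ _ _ (fun i _ => (pk_zero S n).symm) (rq_zero _ _)
  · intro S n m Y y y' hy h
    exact rq_congr _ _ _ _ _ (fun i hi => pk_congr S n _ _ fun t ht => hy i t hi ht) h

end Pool.Agent.MP_6a06cd_co.KL
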