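import Pool.Agent.MP_6a06cd_co.KL.Spec

/-! The rules are sound for the weighted sums. -/

namespace Pool.Agent.MP_6a06cd_co.KL

open Finset
open scoped Classical

namespace Rul

theorem fld_len (m : ℕ) : (fld m).length ≤ 1 := by
  unfold fld
  split_ifs <;> simp

theorem mvs_len (fin : Bool) (k c : ℕ) : (mvs fin k c).length ≤ 2 := by
  rw [mvs, List.length_append]
  have h1 := fld_len (ent fin k c % 4096)
  have h2 := fld_len (ent fin k c / 4096)
  omega

theorem sum_le (L : List (ℕ × ℕ)) (F : ℕ × ℕ → ℝ) (T : Bool → ℝ) (hT : ∀ o, 0 ≤ T o)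
    (hl : L.length ≤ 2) (hF : ∀ m ∈ L, F m ≤ T (occ m.1))
    (h2 : ∀ m1 m2, L = [m1, m2] → (occ m1.1 != occ m2.1) = true) :
    (L.map F).sum ≤ T false + T true := by
  have a0 := hT false
  have a1 := hT true
  match L, hl, hF, h2 with
  | [], _, _, _ => simp; linarith
  | [m], _, hF, _ =>
    have h := hF m (by simp)
    simp only [List.map_cons, List.map_nil, List.sum_cons, List.sum_nil, add_zero]
    cases ho : occ m.1 <;> rw [ho] at h <;> linarith
  | [m1, m2], _, hF, h2 =>
    have b1 := hF m1 (by simp)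
    have b2 := hF m2 (by simp)
    have b3 := h2 m1 m2 rfl
    simp only [List.map_cons, List.map_nil, List.sum_cons, List.sum_nil, add_zero]
    cases h1 : occ m1.1 <;> cases h2 : occ m2.1 <;> rw [h1] at b1 b3 <;> rw [h2] at b2 b3 <;>
      first | linarith | simp at b3
  | _ :: _ :: _ :: _, hl, _, _ => simp at hl

end Rul

open Rul in
theorem rowRul : OfRul := by
  intro hT hV hM hE x φ t0 te K win hx hφ hte hw
  have hV0 : ∀ k P τ, 0 ≤ V x φ k P τ := fun k P τ => (hV.2 x φ k P τ hx hφ).1
  refine ⟨?_, ?_, ?_, ?_, ?_, ?_⟩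
  · intro i a k b κ y h P hI
    exact absurd (hE.2.2.2.2 _ _ _ _ _ _ _ hI) h
  · intro i a k b κ hκ P _
    exact mul_nonneg (mul_nonneg hκ (pow_nonneg hx _)) (hV0 _ _ _)
  · intro i a k b κ y y' h hB P hI
    exact h.trans (hB P hI)
  · intro i a k b κ κ' c y hc h hB P hI
    have h1 := mul_le_mul_of_nonneg_left (hB P hI) hc
    have h2 := mul_le_mul_of_nonneg_right h
      (mul_nonneg (pow_nonneg hx (nocc a)) (hV0 (K + i) P (te - i)))
    nlinarith
  · intro i a k c b κ F hi hκ hB P hI
    have hτ : te - (i + 1) + 1 = te - i := by omega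
    obtain ⟨αL, αR, -, hW, -⟩ := hI.2.2.2.2.2.2.1
    have hok := hT (decide (b = [])) k c hI.1 hW.1
    rw [okList, Bool.and_eq_true, List.all_eq_true] at hok
    have key := sum_le (mvs (decide (b = [])) k c) (fun m => F m.1 m.2)
      (fun o => κ * x ^ nocc a * if o then x * V x φ (K + i) (insert (te - (i + 1)) P) (te - i)
        else V x φ (K + i) P (te - i))
      (fun o => mul_nonneg (mul_nonneg hκ (pow_nonneg hx _)) (by
        split_ifs
        · exact mul_nonneg hx (hV0 _ _ _)
        · exact hV0 _ _ _))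
      (mvs_len _ _ _)
      (fun m hm => by
        have h1 := hM t0 win (te - (i + 1)) P a k c b m.1 m.2
          (fun h => by have := hw h; omega) hI (hok.1 m hm)
        rw [hτ] at h1
        have h2 := hB m hm _ h1
        cases ho : occ m.1
        · simpa [nocc, ho] using h2
        · simp only [nocc, ho, List.countP_cons, if_true, pow_succ] at h2 ⊢
          linarith)
      (fun m1 m2 e => by
        have h1 := hok.2
        rw [e] at h1
        exact h1)
    refine key.trans (le_of_eq ?_)
    rw [← add_assoc, V, hτ]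
    simp only [Bool.false_eq_true, if_false, if_true]
    ring
  · intro i a k κ y hk hB P hI
    simpa [nocc] using hB P (hE.1 _ _ _ _ _ _ hk hI)

end Pool.Agent.MP_6a06cd_co.KL
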