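import Pool.Agent.MP_6a06cd_co.KL.Spec

/-! The real renewal sequence. -/

namespace Pool.Agent.MP_6a06cd_co.KL

open Finset H45
open scoped NNReal ENNReal

namespace Seq

theorem sum_le {h f : ℕ → ℝ} (h0 : h 0 = 1) (hh : ∀ d, 0 ≤ h d) (f0 : f 0 = 0) (hf : ∀ i, 0 ≤ f i)
    (hs : Summable h) (hr : ∀ d, 1 ≤ d → h d = ∑ i ∈ Icc 1 d, f i * h (d - i)) (N : ℕ) :
    ∑ i ∈ Icc 1 N, f i ≤ 1 := by
  have e : ∀ d, ∑ i ∈ range (d + 1), f i * h (d - i) ≤ h d := fun d => by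
    rcases Nat.eq_zero_or_pos d with rfl | hd
    · simp [f0, h0]
    · rw [hr d hd, range_eq_Ico, sum_eq_sum_Ico_succ_bot d.succ_pos, f0, zero_mul, zero_add]
      rfl
  have p : ∀ d i, 0 ≤ f i * h (d - i) := fun d i => mul_nonneg (hf _) (hh _)
  have sf : Summable f := hs.of_nonneg_of_le hf fun d => le_trans (by
    simpa [h0] using single_le_sum (fun i _ => p d i) (self_mem_range_succ d)) (e d)
  have h1 := tsum_mul_tsum_eq_tsum_sum_range_of_summable_norm sf.norm hs.norm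
  have h2 := h1.trans_le ((hs.of_nonneg_of_le (fun d => sum_nonneg fun i _ => p d i) e).tsum_le_tsum
    e hs)
  have h3 : 0 < ∑' d, h d := hs.tsum_pos hh 0 (h0 ▸ one_pos)
  exact (sf.sum_le_tsum _ fun i _ => hf i).trans ((mul_le_iff_le_one_left h3).1 h2)

theorem tsum_ne (g : SGf) {x : ℝ≥0} (hx : FinH x) : ∑' d, B x (d + 1) ≠ ⊤ := by
  have e := g.2.2.1 Cell x (fun d => {P | P ∈ An 0 ((d + 1 : ℕ) - 1) ∧ Bot (0, 0) P})
    fun d d' hd => Set.disjoint_left.2 fun P h h' => by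
      obtain ⟨p, p1, p2⟩ := h.1.2.2.2
      obtain ⟨q, q1, q2⟩ := h'.1.2.2.2
      have := (h'.1.2.1 p p1).2
      have := (h.1.2.1 q q1).2
      omega
  refine ne_top_of_le_ne_top (hx (0, 0)) (e.symm.trans_le ?_)
  simpa using g.1 Cell Cell x _ {P | Con Adj P ∧ (0, 0) ∈ P} id 0 (fun P hP => by
    obtain ⟨d, hd⟩ := Set.mem_iUnion.1 hP
    exact ⟨⟨hd.1.1, hd.2.1⟩, rfl⟩) (Set.injOn_id _)

end Seq

open KL.Seq in
theorem rowSeq : OfSeq := by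
  intro g r1 rU rD x hx
  have ht := tsum_ne g hx
  have hB : ∀ d, 1 ≤ d → B x d ≠ ⊤ := fun d hd => by
    simpa [Nat.sub_add_cancel hd] using ENNReal.ne_top_of_tsum_ne_top ht (d - 1)
  have hQ : ∀ d, 1 ≤ d → Q x d ≠ ⊤ := fun d hd =>
    ne_top_of_le_ne_top (hB d hd) (le_self_add.trans_eq (r1 x d hd).symm)
  obtain ⟨h, h0, h1⟩ : ∃ h : ℕ → ℝ, h 0 = 1 ∧ ∀ d, 1 ≤ d → h d = 2 * (B x d).toReal :=
    ⟨fun d => if d = 0 then 1 else 2 * (B x d).toReal, if_pos rfl, fun d hd => if_neg (by omega)⟩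
  obtain ⟨f, f0, f1⟩ : ∃ f : ℕ → ℝ, f 0 = 0 ∧ ∀ d, 1 ≤ d → f d = 2 * (Q x d).toReal :=
    ⟨fun d => if d = 0 then 0 else 2 * (Q x d).toReal, if_pos rfl, fun d hd => if_neg (by omega)⟩
  have hh : ∀ d, 0 ≤ h d := fun d => by
    rcases Nat.eq_zero_or_pos d with rfl | hd
    · exact h0 ▸ zero_le_one
    · rw [h1 d hd]
      positivity
  have hf : ∀ d, 0 ≤ f d := fun d => by
    rcases Nat.eq_zero_or_pos d with rfl | hd
    · exact f0.ge
    · rw [f1 d hd]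
      positivity
  have hr : ∀ d, 1 ≤ d → h d = ∑ i ∈ Icc 1 d, f i * h (d - i) := fun d hd => by
    have e : ∀ i ∈ Ico 1 d, FU x d i + FD x d i = 2 * (Q x i * B x (d - i)) := fun i hi => by
      rw [rU x d i (mem_Ico.1 hi).1 (mem_Ico.1 hi).2, rD x d i (mem_Ico.1 hi).1 (mem_Ico.1 hi).2,
        two_mul]
    have n : ∀ i ∈ Ico 1 d, 2 * (Q x i * B x (d - i)) ≠ ⊤ := fun i hi =>
      ENNReal.mul_ne_top ENNReal.ofNat_ne_top (ENNReal.mul_ne_top (hQ i (mem_Ico.1 hi).1)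
        (hB _ (Nat.sub_pos_of_lt (mem_Ico.1 hi).2)))
    rw [← Ico_insert_right hd, sum_insert right_notMem_Ico, Nat.sub_self, h0, mul_one, h1 d hd,
      f1 d hd, r1 x d hd, sum_congr rfl e, ENNReal.toReal_add (hQ d hd) (ENNReal.sum_ne_top.2 n),
      ENNReal.toReal_sum n, mul_add, mul_sum]
    refine congrArg _ (sum_congr rfl fun i hi => ?_)
    rw [f1 i (mem_Ico.1 hi).1, h1 _ (Nat.sub_pos_of_lt (mem_Ico.1 hi).2), ENNReal.toReal_mul,
      ENNReal.toReal_mul, ENNReal.toReal_ofNat]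
    ring
  refine ⟨h, f, h0, fun d hd => ⟨hB d hd, h1 d hd⟩, hf, hr, sum_le h0 hh f0 hf ?_ hr⟩
  exact (summable_nat_add_iff 1).1 (((ENNReal.summable_toReal ht).mul_left 2).congr
    fun d => (h1 _ (Nat.le_add_left 1 d)).symm)

end Pool.Agent.MP_6a06cd_co.KL
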