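import Pool.Agent.MP_6a06cd_co.H45.Limit
import Pool.Agent.MP_6a06cd_co.KL.Tab

/-! Lower bound for Klarner's constant: definitions and the statements of the work rows.
Diagonal lines `uu = const`; renewal over cuts between lines; a strip of `2 n` lines is swept cell by cell
(time `τ = n * row + index`, rows alternately left to right and right to left). -/

namespace Pool.Agent.MP_6a06cd_co.KL

open Finset H45 Filter Topology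
open scoped NNReal ENNReal Classical

/-! ### connectivity and generating functions -/

def Cn {α : Type} (R : α → α → Prop) (S : Finset α) (a b : α) : Prop :=
  a ∈ S ∧ Relation.ReflTransGen (fun u v => R u v ∧ v ∈ S) a b

def Con {α : Type} (R : α → α → Prop) (S : Finset α) : Prop := ∀ a ∈ S, ∀ b ∈ S, Cn R S a b

noncomputable def gf {α : Type} (x : ℝ≥0) (A : Set (Finset α)) : ℝ≥0∞ :=
  ∑' P : A, (x : ℝ≥0∞) ^ (P : Finset α).card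

/-! ### Part I: renewal -/

def uu (p : Cell) : ℤ := p.1 - p.2
def ww (p : Cell) : ℤ := p.1 + p.2
def sh (v : Cell) (P : Finset Cell) : Finset Cell := P.image (· + v)

/-- animals occupying exactly the lines `lo .. hi` -/
def An (lo hi : ℤ) : Set (Finset Cell) :=
  {P | Con Adj P ∧ (∀ p ∈ P, lo ≤ uu p ∧ uu p ≤ hi) ∧ (∃ p ∈ P, uu p = lo) ∧ ∃ p ∈ P, uu p = hi}

/-- `c` is the lowest / highest cell of `P` on its line -/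
def Bot (c : Cell) (P : Finset Cell) : Prop := c ∈ P ∧ ∀ p ∈ P, uu p = uu c → ww c ≤ ww p
def Top (c : Cell) (P : Finset Cell) : Prop := c ∈ P ∧ ∀ p ∈ P, uu p = uu c → ww p ≤ ww c

noncomputable def B (x : ℝ≥0) (d : ℕ) : ℝ≥0∞ := gf x {P | P ∈ An 0 (d - 1) ∧ Bot (0, 0) P}

def CutU (P : Finset Cell) (i : ℤ) : Prop := ∀ p ∈ P, ∀ q ∈ P, uu p = i - 1 → uu q = i → ww p < ww q
def CutD (P : Finset Cell) (i : ℤ) : Prop := ∀ p ∈ P, ∀ q ∈ P, uu p = i - 1 → uu q = i → ww q < ww p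
/-- no cut before line `i` -/
def NoCut (P : Finset Cell) (i : ℤ) : Prop := ∀ j : ℤ, 1 ≤ j → j < i → ¬ CutU P j ∧ ¬ CutD P j

noncomputable def Q (x : ℝ≥0) (d : ℕ) : ℝ≥0∞ := gf x {P | P ∈ An 0 (d - 1) ∧ Bot (0, 0) P ∧ NoCut P d}
noncomputable def FU (x : ℝ≥0) (d i : ℕ) : ℝ≥0∞ :=
  gf x {P | P ∈ An 0 (d - 1) ∧ Bot (0, 0) P ∧ NoCut P i ∧ CutU P i}
noncomputable def FD (x : ℝ≥0) (d i : ℕ) : ℝ≥0∞ :=
  gf x {P | P ∈ An 0 (d - 1) ∧ Bot (0, 0) P ∧ NoCut P i ∧ CutD P i}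

def FinH (x : ℝ≥0) : Prop := ∀ c : Cell, gf x {P | Con Adj P ∧ c ∈ P} ≠ ⊤

/-- basic facts on `gf` -/
def SGf : Prop :=
  (∀ (α β : Type) (x : ℝ≥0) (A : Set (Finset α)) (A' : Set (Finset β)) (f : Finset α → Finset β) (c : ℕ),
    (∀ P ∈ A, f P ∈ A' ∧ (f P).card = P.card + c) → Set.InjOn f A → (x : ℝ≥0∞) ^ c * gf x A ≤ gf x A') ∧
  (∀ (α : Type) (x : ℝ≥0) (A A' : Set (Finset α)), Disjoint A A' → gf x (A ∪ A') = gf x A + gf x A') ∧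
  (∀ (α : Type) (x : ℝ≥0) (A : ℕ → Set (Finset α)), Pairwise (Function.onFun Disjoint A) →
    gf x (⋃ i, A i) = ∑' i, gf x (A i)) ∧
  (∀ (α : Type) (x : ℝ≥0) (A1 A2 A : Set (Finset α)) (f : Finset α → Finset α → Finset α),
    (∀ P ∈ A1, ∀ R ∈ A2, f P R ∈ A ∧ (f P R).card = P.card + R.card) →
    (∀ P ∈ A1, ∀ R ∈ A2, ∀ P' ∈ A1, ∀ R' ∈ A2, f P R = f P' R' → P = P' ∧ R = R') →
    (∀ S ∈ A, ∃ P ∈ A1, ∃ R ∈ A2, f P R = S) → gf x A = gf x A1 * gf x A2) ∧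
  (∀ (α : Type) (x : ℝ≥0) (A : Set (Finset α)) (y : ℝ≥0∞),
    (∀ G : Finset (Finset α), (∀ P ∈ G, P ∈ A) → ∑ P ∈ G, (x : ℝ≥0∞) ^ P.card ≤ y) → gf x A ≤ y) ∧
  (∀ (α : Type) (x : ℝ≥0) (A : Set (Finset α)) (G : Finset (Finset α)),
    (∀ P ∈ G, P ∈ A) → ∑ P ∈ G, (x : ℝ≥0∞) ^ P.card ≤ gf x A)

/-- the normalisation along the diagonal does not matter; translations do not matter -/
def SHt : Prop :=
  (∀ (x : ℝ≥0) (A : Set (Finset Cell)) (f g : Finset Cell → ℤ),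
    (∀ P ∈ A, ∀ k : ℤ, sh (k, k) P ∈ A ∧ f (sh (k, k) P) = f P + k ∧ g (sh (k, k) P) = g P + k) →
    gf x {P | P ∈ A ∧ f P = 0} = gf x {P | P ∈ A ∧ g P = 0}) ∧
  (∀ (x : ℝ≥0) (A : Set (Finset Cell)) (v : Cell), gf x {P | sh v P ∈ A} = gf x A) ∧
  (∀ (lo hi : ℤ) (v : Cell) (P : Finset Cell), sh v P ∈ An (lo + uu v) (hi + uu v) ↔ P ∈ An lo hi) ∧
  (∀ (lo hi j : ℤ) (P : Finset Cell), P ∈ An lo hi → lo ≤ j → j ≤ hi → ∃ p ∈ P, uu p = j)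
def OfHt : Prop := SGf → SHt

/-- any of the four corner normalisations, on any lines, gives `B` and `Q` -/
def SCor : Prop :=
  (∀ (x : ℝ≥0) (d : ℕ) (c : Cell), 1 ≤ d →
    gf x {P | P ∈ An (uu c) (uu c + d - 1) ∧ Bot c P} = B x d ∧
    gf x {P | P ∈ An (uu c) (uu c + d - 1) ∧ Top c P} = B x d) ∧
  (∀ (x : ℝ≥0) (d : ℕ) (c : Cell), 1 ≤ d → uu c = d - 1 →
    gf x {P | P ∈ An 0 (d - 1) ∧ Top c P ∧ NoCut P d} = Q x d ∧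
    gf x {P | P ∈ An 0 (d - 1) ∧ Bot c P ∧ NoCut P d} = Q x d) ∧
  (∀ (x : ℝ≥0) (d i : ℕ) (c : Cell), 1 ≤ i → i < d → uu c = i - 1 →
    gf x {P | P ∈ An 0 (d - 1) ∧ Top c P ∧ NoCut P i ∧ CutU P i} = FU x d i ∧
    gf x {P | P ∈ An 0 (d - 1) ∧ Bot c P ∧ NoCut P i ∧ CutD P i} = FD x d i)
def OfCor : Prop := SHt → SCor

def SRen1 : Prop := ∀ (x : ℝ≥0) (d : ℕ), 1 ≤ d → B x d = Q x d + ∑ i ∈ Ico 1 d, (FU x d i + FD x d i)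
def OfRen1 : Prop := SGf → SHt → SRen1
def SRenU : Prop := ∀ (x : ℝ≥0) (d i : ℕ), 1 ≤ i → i < d → FU x d i = Q x i * B x (d - i)
def OfRenU : Prop := SGf → SHt → SCor → SRenU
def SRenD : Prop := ∀ (x : ℝ≥0) (d i : ℕ), 1 ≤ i → i < d → FD x d i = Q x i * B x (d - i)
def OfRenD : Prop := SGf → SHt → SCor → SRenD

/-- the real renewal sequence -/
def SSeq : Prop := ∀ x : ℝ≥0, FinH x → ∃ h f : ℕ → ℝ, h 0 = 1 ∧
  (∀ d, 1 ≤ d → B x d ≠ ⊤ ∧ h d = 2 * (B x d).toReal) ∧ (∀ i, 0 ≤ f i) ∧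
  (∀ d, 1 ≤ d → h d = ∑ i ∈ Icc 1 d, f i * h (d - i)) ∧ ∀ N, ∑ i ∈ Icc 1 N, f i ≤ 1
def OfSeq : Prop := SGf → SRen1 → SRenU → SRenD → SSeq

/-- bounds on the steps from bounds on the sequence -/
def SStep : Prop := ∀ (h f hl hu fl fu : ℕ → ℝ) (k : ℕ), h 0 = 1 → (∀ i, 0 ≤ f i) →
  (∀ d, 1 ≤ d → h d = ∑ i ∈ Icc 1 d, f i * h (d - i)) →
  (∀ d, 1 ≤ d → d ≤ k → 0 ≤ hl d ∧ hl d ≤ h d ∧ h d ≤ hu d) →
  (∀ d, 1 ≤ d → d ≤ k → 0 ≤ fl d ∧ fl d + ∑ i ∈ Ico 1 d, fu i * hu (d - i) ≤ hl d ∧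
    hu d ≤ fu d + ∑ i ∈ Ico 1 d, fl i * hl (d - i)) →
  ∀ d, 1 ≤ d → d ≤ k → fl d ≤ f d ∧ f d ≤ fu d

/-- the largest value a renewal sequence with known small steps can take at `D` -/
def SAdv : Prop := ∀ (h f fl fu U : ℕ → ℝ) (k D : ℕ) (r aL aH g y : ℝ), D < 3 * (k + 1) → 2 * (k + 1) ≤ D →
  h 0 = 1 → (∀ i, 0 ≤ f i) → (∀ d, 1 ≤ d → h d = ∑ i ∈ Icc 1 d, f i * h (d - i)) →
  (∀ N, ∑ i ∈ Icc 1 N, f i ≤ 1) → (∀ d, 1 ≤ d → d ≤ k → fl d ≤ f d ∧ f d ≤ fu d) →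
  1 ≤ U 0 → (∀ d, 1 ≤ d → d ≤ D → ∑ i ∈ Icc 1 (min d k), fu i * U (d - i) ≤ U d) →
  1 ≤ r + ∑ i ∈ Icc 1 k, fl i →
  (∀ m, m ≤ k → ∑ i ∈ range (m + 1), U i * U (m - i) ≤ aH) →
  (∀ m, k < m → m + k < D → ∑ i ∈ range (m + 1), U i * U (m - i) ≤ aL) →
  (∀ m, m + 2 * (k + 1) ≤ D →
    ∑ i ∈ range (m + 1), U i * ∑ j ∈ range (m - i + 1), U j * U (m - i - j) ≤ g) →
  U D + r * aH ≤ y → U D + r * aL + r ^ 2 * g ≤ y → h D ≤ y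

def SLim : Prop := (∀ n, (H45.Rep n).Finite) ∧
  ∃ lam : ℝ, Tendsto (fun n : ℕ => (t n : ℝ) ^ ((1 : ℝ) / n)) atTop (𝓝 lam)

def SFin : Prop := ∀ (x : ℝ≥0) (lam : ℝ), (∀ n, (H45.Rep n).Finite) →
  Tendsto (fun n : ℕ => (t n : ℝ) ^ ((1 : ℝ) / n)) atTop (𝓝 lam) → lam * x < 1 → FinH x
def OfFin : Prop := SGf → SFin

/-! ### Part II: the swept strip -/

/-- `σ` is one of the two earlier neighbours of `τ` -/
def ET (n τ σ : ℕ) : Prop :=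
  n ≤ τ ∧ (σ + 2 * (τ % n) + 1 = τ ∨ (τ % n + 1 < n ∧ σ + 2 * (τ % n) + 2 = τ))
def E (n a b : ℕ) : Prop := ET n a b ∨ ET n b a
/-- line of the cell written at time `τ` -/
def uT (n τ : ℕ) : ℕ := if τ / n % 2 = 0 then 2 * (τ % n) + 1 else 2 * n - 2 - 2 * (τ % n)
def cell (n τ : ℕ) : Cell :=
  ((((τ / n : ℕ) : ℤ) + 1 + uT n τ) / 2, (((τ / n : ℕ) : ℤ) + 1 - uT n τ) / 2)

/-- animals on the lines `lo .. 2 n - 1` whose first cell is written in `[t0, t0 + len)` -/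
def Gd (n lo t0 len : ℕ) (S : Finset ℕ) : Prop :=
  Con (E n) S ∧ (∀ τ ∈ S, t0 ≤ τ ∧ lo ≤ uT n τ) ∧ (∃ τ ∈ S, uT n τ = lo) ∧ (∃ τ ∈ S, uT n τ = 2 * n - 1) ∧
    ∃ τ ∈ S, τ < t0 + len

/-- `y` is on the frontier when time `e` is about to be written -/
def Fr (n e y : ℕ) : Prop := y < e ∧ (e ≤ y + e % n ∨ (y + 2 * (e % n) < e ∧ e ≤ y + e % n + n))
def Alive (n t0 len e : ℕ) (S : Finset ℕ) : Prop :=
  (∀ τ ∈ S, t0 ≤ τ ∧ τ < e) ∧ (∀ p ∈ S, ∃ y, Fr n e y ∧ Cn (E n) S p y) ∧ ∃ τ ∈ S, τ < t0 + len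

/-- weighted sum of `φ` over all ways to fill the next `k` cells -/
noncomputable def V (x : ℝ) (φ : Finset ℕ → ℝ) : ℕ → Finset ℕ → ℕ → ℝ
  | 0, P, _ => φ P
  | k + 1, P, τ => V x φ k P (τ + 1) + x * V x φ k (insert τ P) (τ + 1)

noncomputable def φL (n lo t0 len e : ℕ) (M : ℝ) (S : Finset ℕ) : ℝ :=
  (if Gd n lo t0 len S then 1 else 0) + (if Alive n t0 len e S then M else 0)
noncomputable def φU (n lo t0 len e : ℕ) (S : Finset ℕ) : ℝ :=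
  if Gd n lo t0 len S ∧ ∀ y ∈ S, ¬ Fr n e y then 1 else 0

def SGeo : Prop := ∀ n, 1 ≤ n → Function.Injective (cell n) ∧ (∀ a b, Adj (cell n a) (cell n b) ↔ E n a b) ∧
  (∀ τ, uu (cell n τ) = uT n τ ∧ ww (cell n τ) = ((τ / n : ℕ) : ℤ) + 1 ∧ uT n τ < 2 * n) ∧
  (∀ τ, cell n (τ + 2 * n) = cell n τ + (1, 1)) ∧
  (∀ p : Cell, 0 ≤ uu p → uu p < 2 * n → 1 ≤ ww p → ∃ τ, cell n τ = p) ∧
  ∀ S : Finset ℕ, Con Adj (S.image (cell n)) ↔ Con (E n) S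

def STr : Prop := ∀ (x : ℝ≥0) (n lo t0 : ℕ), 1 ≤ n → lo ≤ 1 →
  B x (2 * n - lo) = gf x {S | Gd n lo t0 (2 * n) S}
def OfTr : Prop := SGf → SHt → SCor → SGeo → STr

def SVs : Prop :=
  (∀ (x : ℝ) (φ : Finset ℕ → ℝ) (k : ℕ) (P : Finset ℕ) (τ : ℕ),
    V x φ k P τ = ∑ F ∈ (Ico τ (τ + k)).powerset, x ^ F.card * φ (P ∪ F)) ∧
  (∀ (x : ℝ) (φ : Finset ℕ → ℝ) (k : ℕ) (P : Finset ℕ) (τ : ℕ), 0 ≤ x → (∀ S, 0 ≤ φ S) →
    0 ≤ V x φ k P τ ∧ φ P ≤ V x φ k P τ)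

def STail : Prop := ∀ (x : ℝ≥0) (n t0 len : ℕ), 1 ≤ n → 0 < x → FinH x →
  Tendsto (fun e => gf x {S | Alive n t0 len e S}) atTop (𝓝 0)
def OfTail : Prop := SGf → SGeo → STail

def SLow : Prop := ∀ (x : ℝ≥0) (n lo t0 len per : ℕ) (M y : ℝ), 1 ≤ n → 1 ≤ per → 0 < x → FinH x → 0 ≤ M →
  (∀ N, 1 ≤ N → y ≤ V x (φL n lo t0 len (t0 + per * N) M) (per * N) ∅ t0) →
  ENNReal.ofReal y ≤ gf x {S | Gd n lo t0 len S}
def OfLow : Prop := SGf → SVs → STail → SLow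

def SUpp : Prop := ∀ (x : ℝ≥0) (n lo t0 len per : ℕ) (y : ℝ), 1 ≤ n → 1 ≤ per →
  (∀ N, 1 ≤ N → V x (φU n lo t0 len (t0 + per * N)) (per * N) ∅ t0 ≤ y) →
  gf x {S | Gd n lo t0 len S} ≤ ENNReal.ofReal y
def OfUpp : Prop := SGf → SVs → SUpp

/-! ### Part III: the lazy machine on rows of 18 cells -/

abbrev C (P : Finset ℕ) (a b : ℕ) : Prop := Cn (E 18) P a b
def Tch (P : Finset ℕ) (e : ℕ) : Prop := ∃ τ ∈ P, (τ + 1) % 36 = e % 36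

/-- the word describes the cells `e - 1, e - 2, ..`; `β` its base, `α` a cell of its open arc -/
def Wb (P : Finset ℕ) : List ℕ → ℕ → ℕ → ℕ → Prop
  | [], e, β, _ => β = 4 ∨ (β = 5 ∧ Tch P e)
  | c :: w, e, β, α => aB c = β ∧ β < 6 ∧ 2 ≤ e ∧ (occ c = true → e - 1 ∈ P) ∧
      ∃ α', Wb P w (e - 1) (rB (aZ c)) α' ∧ (aZ c = 4 → C P α' (e - 2)) ∧ (keep c = true → C P α' α) ∧
        (join c = true → C P α' (e - 1)) ∧ (lnk c = true → C P (e - 1) (e - 2))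

/-- `y` is a cell the word records as occupied -/
def Rec : List ℕ → ℕ → ℕ → Prop
  | [], _, _ => False
  | c :: w, e, y => (occ c = true ∧ y = e - 1) ∨ Rec w (e - 1) y

def Shape : List ℕ → ℕ → Prop
  | [], β => β = 4 ∨ β = 5
  | c :: w, β => aB c = β ∧ β < 6 ∧ Shape w (rB (aZ c))

def Lab (P : Finset ℕ) (τ : ℕ) (a : List ℕ) (k e αL αR : ℕ) : Prop :=
  (kZ k = 4 → C P αL (τ - 1)) ∧ (kF k = 1 → C P (e - 1) αL) ∧ (kF k = 2 → C P (e - 1) (τ - 1)) ∧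
  (kF k = 3 → ∃ y, Rec a τ y ∧ C P (e - 1) y) ∧ (kA k = true → C P αR αL) ∧ (kS k = true → C P (e - 1) αR)

def Inv (t0 : ℕ) (win : Prop) (τ : ℕ) (P : Finset ℕ) (a : List ℕ) (k : ℕ) (b : List ℕ) : Prop :=
  k < 35 ∧ a.length + b.length = 18 ∧ (τ - a.length) % 18 = 0 ∧ 36 + a.length ≤ τ ∧ t0 ≤ τ ∧
  (∀ p ∈ P, t0 ≤ p ∧ p < τ) ∧
  (∃ αL αR, Wb P a τ (rB (kZ k)) αL ∧ Wb P b (τ - 2 * a.length) (kB k) αR ∧
    Lab P τ a k (τ - 2 * a.length) αL αR) ∧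
  (k = 5 → Gd 18 0 t0 18 P) ∧
  (k ≠ 5 → (∀ p ∈ P, ∃ y, (Rec a τ y ∨ Rec b (τ - 2 * a.length) y) ∧ C P p y) ∧
    ((∃ p ∈ P, p < t0 + 18) ∨ (k = 4 ∧ win)))

def STab : Prop := ∀ (fin : Bool) (k c : ℕ), k < 35 → aB c = kB k → okList fin k c = true

/-- basic facts on words -/
def SW : Prop :=
  (∀ (P P' : Finset ℕ) (a b : ℕ), P ⊆ P' → C P a b → C P' a b) ∧
  (∀ (P : Finset ℕ) (a b : ℕ), C P a b → C P b a ∧ b ∈ P) ∧
  (∀ (P : Finset ℕ) (a b c : ℕ), C P a b → C P b c → C P a c) ∧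
  (∀ (P P' : Finset ℕ) (w : List ℕ) (e β α : ℕ), P ⊆ P' → Wb P w e β α → Wb P' w e β α) ∧
  (∀ (P : Finset ℕ) (w : List ℕ) (e β α : ℕ), Wb P w e β α → xB β = true →
    w ≠ [] ∧ Rec w e (e - 1) ∧ e - 1 ∈ P) ∧
  (∀ (P : Finset ℕ) (w : List ℕ) (e β α : ℕ), Wb P w e β α → hB β = true → ∃ y, Rec w e y ∧ C P α y) ∧
  (∀ (P : Finset ℕ) (w : List ℕ) (e β α : ℕ), Wb P w e β α → Shape w β ∧ w.length ≤ e ∧
    (β = 5 → Tch P (e - w.length))) ∧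
  (∀ (w : List ℕ), (Shape w 4 → w = List.replicate w.length 19) ∧ (Shape w 5 → w = List.replicate w.length 20)) ∧
  (∀ (n e y : ℕ), ¬ Rec (List.replicate n 19) e y ∧ ¬ Rec (List.replicate n 20) e y) ∧
  ∀ (w : List ℕ) (e y : ℕ), w.length ≤ e → Rec w e y → y < e ∧ e ≤ y + w.length

/-- the interpretation of the seven nodes -/
def nd (τ e αL α' αR : ℕ) (i : ℕ) : ℕ := [αL, τ - 1, e - 1, e - 2, α', αR, τ].getD i 0

/-- the edges, hence the computed connections, are true connections after the move -/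
def SEd : Prop := ∀ (P : Finset ℕ) (τ : ℕ) (a : List ℕ) (k c : ℕ) (w : List ℕ) (αL α' αR : ℕ) (oc : Bool),
  a.length + w.length + 1 = 18 → (τ - a.length) % 18 = 0 → 36 + a.length ≤ τ →
  Wb P a τ (rB (kZ k)) αL → aB c = kB k → (occ c = true → τ - 2 * a.length - 1 ∈ P) →
  Wb P w (τ - 2 * a.length - 1) (rB (aZ c)) α' → (aZ c = 4 → C P α' (τ - 2 * a.length - 2)) →
  (keep c = true → C P α' αR) → (join c = true → C P α' (τ - 2 * a.length - 1)) →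
  (lnk c = true → C P (τ - 2 * a.length - 1) (τ - 2 * a.length - 2)) →
  Lab P τ a k (τ - 2 * a.length) αL αR → k < 35 →
  ∀ i j, con k c oc i j = true →
    C (if oc then insert τ P else P) (nd τ (τ - 2 * a.length) αL α' αR i) (nd τ (τ - 2 * a.length) αL α' αR j)
def OfEd : Prop := SW → SEd

def SMv : Prop := ∀ (t0 : ℕ) (win : Prop) (τ : ℕ) (P : Finset ℕ) (a : List ℕ) (k c : ℕ) (w : List ℕ) (y k' : ℕ),
  (win → τ < t0 + 18) → Inv t0 win τ P a k (c :: w) → okMv (decide (w = [])) k c y k' = true →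
  Inv t0 win (τ + 1) (if occ y then insert τ P else P) (y :: a) k' w
def OfMv : Prop := SW → SEd → SMv

def SEnd : Prop :=
  (∀ t0 win τ P a k, tn k < 35 → Inv t0 win τ P a k [] → Inv t0 win τ P [] (tn k) a) ∧
  (∀ t0, t0 % 18 = 9 → 45 ≤ t0 → Inv t0 True t0 ∅ (List.replicate 9 19) 4 (List.replicate 9 19)) ∧
  (∀ t0 win τ P a k b, Inv t0 win τ P a k b → k ≠ 4 → Inv t0 False τ P a k b) ∧
  (∀ t0 τ P a k b, Inv t0 False τ P a k b → b ≠ [] → k ≠ 5 → Alive 18 t0 18 τ P) ∧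
  ∀ t0 win τ P a k b, Inv t0 win τ P a k b →
    k < 35 ∧ a.length + b.length = 18 ∧ Shape a (rB (kZ k)) ∧ Shape b (kB k)
def OfEnd : Prop := SW → SEnd

/-- rules for proving `y ≤ κ * x ^ (occupied cells of the new word) * (value of the state)`;
the first argument counts the cells still to be written before the end slice -/
structure Rules (x : ℝ) (Bd : ℕ → List ℕ → ℕ → List ℕ → ℝ → ℝ → Prop) : Prop where
  vac : ∀ i a k b κ y, ¬ (k < 35 ∧ a.length + b.length = 18 ∧ Shape a (rB (kZ k)) ∧ Shape b (kB k)) →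
    Bd i a k b κ y
  zero : ∀ i a k b κ, 0 ≤ κ → Bd i a k b κ 0
  mono : ∀ i a k b κ y y', y' ≤ y → Bd i a k b κ y → Bd i a k b κ y'
  scale : ∀ i a k b κ κ' c y, 0 ≤ c → c * κ ≤ κ' → Bd i a k b κ y → Bd i a k b κ' (c * y)
  step : ∀ i a k c b κ (F : ℕ → ℕ → ℝ), i < 18 → 0 ≤ κ →
    (∀ m ∈ mvs (decide (b = [])) k c, Bd i (m.1 :: a) m.2 b κ (F m.1 m.2)) →
    Bd (i + 1) a k (c :: b) κ ((mvs (decide (b = [])) k c).map fun m => F m.1 m.2).sum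
  turn : ∀ i a k κ y, tn k < 35 → Bd i [] (tn k) a (κ * x ^ nocc a) y → Bd i a k [] κ y

/-- what the certificate has to provide -/
def Cert (x : ℝ) (g : List ℕ → ℕ → List ℕ → ℝ) (s : ℝ) : Prop :=
  (∃ M, ∀ a k b, g a k b ≤ M) ∧ (∀ a b, g a 4 b ≤ 0) ∧ g (List.replicate 9 20) 5 (List.replicate 9 20) ≤ 1 ∧
  ∀ Bd, Rules x Bd → (∀ p k q, p.length = 9 → Bd 0 p k q (x ^ nocc q) (g p k q)) →
    (∀ a k b, a.length = 9 → k ≠ 4 → Bd 18 a k b (x ^ nocc b) (g a k b)) ∧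
      Bd 18 (List.replicate 9 19) 4 (List.replicate 9 19) 1 s

def SRul : Prop := ∀ (x : ℝ) (φ : Finset ℕ → ℝ) (t0 te K : ℕ) (win : Prop), 0 ≤ x → (∀ S, 0 ≤ φ S) → 18 ≤ te →
  (win → te ≤ t0 + 18) →
  Rules x (fun i a k b κ y => ∀ P, Inv t0 win (te - i) P a k b → y ≤ κ * x ^ nocc a * V x φ (K + i) P (te - i))
def OfRul : Prop := STab → SVs → SMv → SEnd → SRul

def SSub : Prop := ∀ (x : ℝ) (g : List ℕ → ℕ → List ℕ → ℝ) (s : ℝ), 0 < x → x ≤ 1 → Cert x g s →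
  ∃ M, 0 ≤ M ∧ ∀ t0, t0 % 18 = 9 → 45 ≤ t0 → ∀ N, 1 ≤ N →
    s ≤ V x (φL 18 0 t0 18 (t0 + 18 * N) M) (18 * N) ∅ t0
def OfSub : Prop := SW → SVs → SEnd → SRul → SSub

def SBig : Prop := ∀ (x : ℝ≥0) (g : List ℕ → ℕ → List ℕ → ℝ) (s : ℝ), 0 < x → x ≤ 1 → FinH x → 0 ≤ s →
  Cert x g s → ENNReal.ofReal (2 * s) ≤ B x 36
def OfBig : Prop := SGf → STr → SLow → SSub → SBig

end Pool.Agent.MP_6a06cd_co.KL
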