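import Pool.Agent.MP_6a06cd_co.KL.Spec
import Pool.Agent.MP_6a06cd_co.KL.Ex

/-! Statements for the exact machine of narrow strips (`KL/Ex.lean`). -/

namespace Pool.Agent.MP_6a06cd_co.KL

open Finset H45 X
open scoped NNReal ENNReal

/-- the last cell written in slot `i` before time `τ` -/
def fc (n τ i : ℕ) : ℕ :=
  if τ / n % 2 = 0 then (if i < τ % n then τ - τ % n + i else τ - τ % n - 1 - i)
  else (if n - 1 - i < τ % n then τ - τ % n + (n - 1 - i) else τ - τ % n - n + i)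

def SFc : Prop := ∀ n τ p : ℕ, 1 ≤ n → n ≤ τ → τ % (2 * n) + p + 1 = 2 * n →
  sl n p < n ∧ (hn n p = 0 ∨ (hn n p = 1 ∧ nb n p < n ∧ nb n p ≠ sl n p)) ∧ uT n τ = ul n p ∧
  (∀ i, i < n → fc n (τ + 1) i = if i = sl n p then τ else fc n τ i) ∧
  (∀ i, i < n → fc n τ i < τ) ∧ (∀ i j, i < n → j < n → fc n τ i = fc n τ j → i = j) ∧
  (∀ σ, σ < τ → (E n τ σ ↔ σ = fc n τ (sl n p) ∨ (hn n p = 1 ∧ σ = fc n τ (nb n p)))) ∧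
  (∀ y, Fr n τ y ↔ ∃ i, i < n ∧ y = fc n τ i) ∧
  (∀ σ τ', σ < τ → τ ≤ τ' → E n τ' σ → Fr n τ σ) ∧ ¬ E n τ τ

/-- bit `(i, j)` of a state -/
def bt (n s i j : ℕ) : Prop := s.testBit (n * i + j) = true

def SBitE : Prop := ∀ n p s : ℕ, 1 ≤ n → sl n p < n →
  (∀ i j, i < n → j < n → (bt n (stE n p s) i j ↔ bt n s i j ∧ i ≠ sl n p ∧ j ≠ sl n p)) ∧
  (bt n (stE n p s) n 0 ↔ bt n s n 0) ∧ (bt n (stE n p s) n 1 ↔ bt n s n 1) ∧ stE n p s < 2 ^ (n * n + 2) ∧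
  ((seE n p s = 0 ∧ ∀ j, j < n → (bt n s (sl n p) j ↔ j = sl n p)) ∨
    (seE n p s = stE n p s + 1 ∧ ¬ ∀ j, j < n → (bt n s (sl n p) j ↔ j = sl n p))) ∧
  (∀ o, o < 2 ^ (n * n + 2) →
    (o = 3 * pw (n * n) ↔ (∀ i j, i < n → j < n → ¬ bt n o i j) ∧ bt n o n 0 ∧ bt n o n 1) ∧
    (o = 0 ↔ (∀ i j, i < n → j < n → ¬ bt n o i j) ∧ ¬ bt n o n 0 ∧ ¬ bt n o n 1))

def SBitO : Prop := ∀ n lo p s : ℕ, 1 ≤ n → sl n p < n → (hn n p = 0 ∨ (hn n p = 1 ∧ nb n p < n)) →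
  s < 2 ^ (n * n + 2) →
  (∀ i j, i < n → j < n → (bt n (stO n lo p s) i j ↔ bt n s i j ∨
    ((i = sl n p ∨ bt n s i (sl n p) ∨ (hn n p = 1 ∧ bt n s i (nb n p))) ∧
      (j = sl n p ∨ bt n s (sl n p) j ∨ (hn n p = 1 ∧ bt n s (nb n p) j))))) ∧
  (bt n (stO n lo p s) n 0 ↔ bt n s n 0 ∨ ul n p = lo) ∧
  (bt n (stO n lo p s) n 1 ↔ bt n s n 1 ∨ ul n p = 2 * n - 1) ∧ stO n lo p s < 2 ^ (n * n + 2) ∧
  ((seO n lo p s = 0 ∧ ul n p < lo) ∨ (seO n lo p s = stO n lo p s + 1 ∧ lo ≤ ul n p))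

def RelX (n lo τ : ℕ) (P : Finset ℕ) (s : ℕ) : Prop :=
  (∀ q ∈ P, q < τ ∧ lo ≤ uT n q) ∧
  (∀ i j, i < n → j < n → (bt n s i j ↔ Cn (E n) P (fc n τ i) (fc n τ j))) ∧
  (∀ q ∈ P, ∃ i, i < n ∧ Cn (E n) P q (fc n τ i)) ∧
  (bt n s n 0 ↔ ∃ q ∈ P, uT n q = lo) ∧ (bt n s n 1 ↔ ∃ q ∈ P, uT n q = 2 * n - 1) ∧ s < 2 ^ (n * n + 2)

def SXe : Prop := ∀ (n lo τ p s : ℕ) (P : Finset ℕ), 1 ≤ n → n ≤ τ → τ % (2 * n) + p + 1 = 2 * n →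
  RelX n lo τ P s →
  (seE n p s = stE n p s + 1 ∧ RelX n lo (τ + 1) P (stE n p s)) ∨
  (seE n p s = 0 ∧ P.Nonempty ∧
    (stE n p s = 3 * pw (n * n) ↔
      Con (E n) P ∧ (∃ q ∈ P, uT n q = lo) ∧ ∃ q ∈ P, uT n q = 2 * n - 1) ∧
    ∀ F : Finset ℕ, (∀ q ∈ F, τ < q) → Con (E n) (P ∪ F) → F = ∅)
def OfXe : Prop := SFc → SBitE → SXe

def SXo : Prop := ∀ (n lo τ p s : ℕ) (P : Finset ℕ), 1 ≤ n → n ≤ τ → τ % (2 * n) + p + 1 = 2 * n →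
  RelX n lo τ P s →
  (seO n lo p s = 0 ∧ uT n τ < lo) ∨
  (seO n lo p s = stO n lo p s + 1 ∧ RelX n lo (τ + 1) (insert τ P) (stO n lo p s))
def OfXo : Prop := SFc → SBitO → SXo

def RelW (n lo t0 : ℕ) (win : Prop) (τ : ℕ) (P : Finset ℕ) (s : ℕ) : Prop :=
  RelX n lo τ P s ∧ t0 ≤ τ ∧ (∀ q ∈ P, t0 ≤ q) ∧ ((∃ q ∈ P, q < t0 + 2 * n) ∨ (P = ∅ ∧ win))

/-- `v` packs a lower bound for `y1` and an upper bound for `y2` -/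
def VB (bg v : ℕ) (y1 y2 : ℝ) : Prop :=
  ∃ a b : ℕ, v = a + 2 ^ 320 * b ∧ (a : ℝ) ≤ y1 ∧ (bg ≤ b ∨ y2 ≤ b)

def SXv : Prop := ∀ (n lo num den t0 te K bg : ℕ) (win : Prop) (φ1 φ2 : Finset ℕ → ℝ) (lk : ℕ → ℕ),
  1 ≤ n → 1 ≤ num → 1 ≤ den → te % (2 * n) = 0 → 4 * n ≤ te → (win → te ≤ t0 + 2 * n) →
  (∀ S, 0 ≤ φ1 S ∧ (Gd n lo t0 (2 * n) S → 1 ≤ φ1 S)) →
  (∀ S, 0 ≤ φ2 S ∧ φ2 S ≤ 1 ∧ (φ2 S ≠ 0 → Gd n lo t0 (2 * n) S)) →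
  (∀ P s, RelW n lo t0 win te P s →
    VB bg (lk s) (2 ^ 36 * V (num / den) φ1 K P te) (2 ^ 36 * V (num / den) φ2 K P te)) →
  ∀ p, p ≤ 2 * n → ∀ P s, RelW n lo t0 win (te - p) P s →
    VB bg (val n lo num den lk p s) (2 ^ 36 * den ^ p * V (num / den) φ1 (K + p) P (te - p))
      (2 ^ 36 * den ^ p * V (num / den) φ2 (K + p) P (te - p))
def OfXv : Prop := SVs → SXe → SXo → SXv

def Ok2 (n den v a b : ℕ) : Prop :=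
  b < 2 ^ 44 ∧ a * den ^ (2 * n) ≤ v % 2 ^ 320 ∧ v / 2 ^ 320 ≤ b * den ^ (2 * n)

def SXk : Prop := ∀ (n lo num den : ℕ) (t : BT) (a b : ℕ), chk n lo num den t a b = true →
  Ok2 n den (val n lo num den (lk n den t) (2 * n) 0) a b ∧ lk n den t 0 = 0 ∧
  big n den = 2 ^ 44 * den ^ (2 * n) ∧
  ∀ s, s ≠ 0 → lk n den t s = 2 ^ 320 * big n den ∨ ∃ a' b', a' < 2 ^ 44 ∧ lk n den t s = a' + 2 ^ 320 * b' ∧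
    Ok2 n den (val n lo num den (lk n den t) (2 * n) s) a' b'

def SXf : Prop := ∀ (n lo num den : ℕ) (t : BT) (a b : ℕ) (x : ℝ≥0), 1 ≤ n → lo ≤ 1 → 1 ≤ num → 1 ≤ den →
  (x : ℝ) = num / den → FinH x → chk n lo num den t a b = true →
  ENNReal.ofReal (a / 2 ^ 36) ≤ B x (2 * n - lo) ∧ B x (2 * n - lo) ≤ ENNReal.ofReal (b / 2 ^ 36)
def OfXf : Prop := SVs → STr → SLow → SUpp → SFc → SBitE → SXv → SXk → SXf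

end Pool.Agent.MP_6a06cd_co.KL
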