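import Pool.Agent.MP_6a06cd_co.KL.Spec

/-! Bounds on the steps of a renewal sequence from bounds on the sequence. -/

namespace Pool.Agent.MP_6a06cd_co.KL

open Finset

theorem rowStep : SStep := by
  intro h f hl hu fl fu k h0 hf hr hb hc d
  induction d using Nat.strong_induction_on with
  | _ d ih =>
    intro d1 dk
    have e : h d = f d + ∑ i ∈ Ico 1 d, f i * h (d - i) := by
      rw [hr d d1, ← Ico_insert_right d1, sum_insert right_notMem_Ico, Nat.sub_self, h0, mul_one]
    have key : ∀ i ∈ Ico 1 d, fl i * hl (d - i) ≤ f i * h (d - i) ∧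
        f i * h (d - i) ≤ fu i * hu (d - i) := by
      intro i hi
      obtain ⟨i1, i2⟩ := mem_Ico.1 hi
      obtain ⟨a1, a2⟩ := ih i i2 i1 (by omega)
      obtain ⟨b1, b2, b3⟩ := hb (d - i) (by omega) (by omega)
      exact ⟨mul_le_mul a1 b2 b1 (hf i), mul_le_mul a2 b3 (b1.trans b2) ((hf i).trans a2)⟩
    have s1 := sum_le_sum fun i hi => (key i hi).1
    have s2 := sum_le_sum fun i hi => (key i hi).2
    obtain ⟨-, b2, b3⟩ := hb d d1 dk
    obtain ⟨-, c2, c3⟩ := hc d d1 dk
    constructor <;> linarith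

end Pool.Agent.MP_6a06cd_co.KL
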