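import Pool.Agent.MP_6a06cd_co.KL.Spec

/-! Iteration of the certificate over the rows of the strip. -/

namespace Pool.Agent.MP_6a06cd_co.KL

open scoped Classical

theorem rowSub : OfSub := by
  intro hW hV hE hR x g s x0 x1 ⟨⟨M0, hM⟩, g4, g5, hC⟩
  have M1 : 0 ≤ max M0 0 / x ^ 18 := div_nonneg (le_max_right _ _) (pow_pos x0 _).le
  refine ⟨_, M1, fun t0 h9 h45 N hN => ?_⟩
  set M := max M0 0 / x ^ 18 with hMd
  set φ := φL 18 0 t0 18 (t0 + 18 * N) M with hφ
  have φ0 : ∀ S, 0 ≤ φ S := fun S => by
    simp only [hφ, φL]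
    split_ifs <;> linarith
  have z : ∀ p q K P τ, g p 4 q ≤ x ^ nocc q * x ^ nocc p * V x φ K P τ := fun p q K P τ =>
    (g4 p q).trans (mul_nonneg (by positivity) (hV.2 x φ K P τ x0.le φ0).1)
  have A : ∀ i te, te + 18 * i = t0 + 18 * N → ∀ p k q, p.length = 9 → ∀ P,
      Inv t0 False te P p k q → g p k q ≤ x ^ nocc q * x ^ nocc p * V x φ (18 * i) P te := by
    intro i
    induction i with
    | zero =>
      intro te e p k q hp P hI
      obtain ⟨-, l, sp, sq⟩ := hE.2.2.2.2 _ _ _ _ _ _ _ hI
      have hq : q.length = 9 := by omega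
      by_cases k4 : k = 4
      · exact k4 ▸ z p q _ P te
      rw [show V x φ (18 * 0) P te = φ P from rfl]
      by_cases k5 : k = 5
      · subst k5
        rw [(hW.2.2.2.2.2.2.2.1 p).2 sp, (hW.2.2.2.2.2.2.2.1 q).2 sq, hp, hq,
          show nocc (List.replicate 9 20) = 0 by decide, hφ, φL, if_pos (hI.2.2.2.2.2.2.2.1 rfl)]
        split_ifs <;> simp only [pow_zero] <;> linarith
      · have a := hE.2.2.2.1 _ _ _ _ _ _ hI (by rintro rfl; simp at hq) k5
        have b : M ≤ φ P := by
          rw [hφ, φL, ← e, mul_zero, add_zero, if_pos a]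
          split_ifs <;> linarith
        have c : x ^ 18 ≤ x ^ nocc q * x ^ nocc p := by
          rw [← pow_add]
          refine pow_le_pow_of_le_one x0.le x1 ?_
          have := List.countP_le_length (p := occ) (l := p)
          have := List.countP_le_length (p := occ) (l := q)
          unfold nocc
          omega
        refine ((hM p k q).trans (le_max_left _ 0)).trans (le_trans (le_of_eq ?_)
          (mul_le_mul c b M1 (by positivity)))
        rw [hMd, mul_div_cancel₀ _ (pow_pos x0 _).ne']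
    | succ i ih =>
      intro te e p k q hp P hI
      by_cases k4 : k = 4
      · exact k4 ▸ z p q _ P te
      exact (hC _ (hR x φ t0 (te + 18) (18 * i) False x0.le φ0 (by omega) False.elim)
        (ih (te + 18) (by omega))).1 p k q hp k4 P hI
  obtain ⟨n, rfl⟩ := Nat.exists_eq_add_of_le' hN
  have := (hC _ (hR x φ t0 (t0 + 18) (18 * n) True x0.le φ0 (by omega) fun _ => le_rfl)
    fun p k q hp P hI => ?_).2 ∅ (hE.2.1 t0 h9 h45)
  · rwa [show nocc (List.replicate 9 19) = 0 by decide, pow_zero, one_mul, one_mul] at this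
  · by_cases k4 : k = 4
    · exact k4 ▸ z p q _ P _
    · exact A n (t0 + 18) (by omega) p k q hp P (hE.2.2.1 _ _ _ _ _ _ _ hI k4)

end Pool.Agent.MP_6a06cd_co.KL
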