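import Pool.Agent.MP_6a06cd_co.KL.Spec

/-! Row TabOK: the move table is checked. -/

namespace Pool.Agent.MP_6a06cd_co.KL

namespace TabOK

theorem chk : ((List.range 35).all fun k => (List.range 21).all fun c =>
    aB c != kB k || (okList true k c && okList false k c)) = true := by decide +kernel

theorem kB_lt : ((List.range 35).all fun k => kB k != 6) = true := by decide +kernel

theorem aB_big {c : ℕ} (h : 21 ≤ c) : aB c = 6 := by
  unfold aB
  rw [List.getD_eq_default _ _ (by simpa using h)]

end TabOK

open TabOK in
theorem rowTabOK : STab := by
  intro fin k c hk h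
  rcases Nat.lt_or_ge c 21 with hc | hc
  · have := List.all_eq_true.1 (List.all_eq_true.1 chk k (List.mem_range.2 hk)) c
      (List.mem_range.2 hc)
    simp only [h, bne_self_eq_false, Bool.false_or, Bool.and_eq_true] at this
    cases fin
    · exact this.2
    · exact this.1
  · have := List.all_eq_true.1 kB_lt k (List.mem_range.2 hk)
    rw [← h, aB_big hc] at this
    exact absurd this (by decide)

end Pool.Agent.MP_6a06cd_co.KL
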