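import Pool.Agent.MP_6a06cd_co.KL.Spec

/-! The weight of the configurations which are still alive tends to zero. -/

namespace Pool.Agent.MP_6a06cd_co.KL

open Finset H45 Filter Topology
open scoped NNReal ENNReal Classical

namespace Tail

theorem et {n s i i' : ℕ} (h : i + i' + 1 = n ∨ i + i' + 2 = n) :
    ET n (n * (s + 1) + i) (n * s + i') := by
  have e : (n * (s + 1) + i) % n = i := by
    rw [Nat.mul_add_mod]
    exact Nat.mod_eq_of_lt (by omega)
  have e2 : n * (s + 1) = n * s + n := Nat.mul_succ n s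
  unfold ET
  rw [e]
  omega

theorem back {n : ℕ} {T : Finset ℕ} {a b : ℕ} (ha : a ∈ T)
    (h : Relation.ReflTransGen (fun u v => E n u v ∧ v ∈ T) a b) :
    b ∈ T ∧ Relation.ReflTransGen (fun u v => E n u v ∧ v ∈ T) b a := by
  induction h with
  | refl => exact ⟨ha, .refl⟩
  | tail _ h2 ih => exact ⟨h2.2, .head ⟨h2.1.symm, ih.1⟩ ih.2⟩

theorem grow {n : ℕ} {S T : Finset ℕ} (hST : ∀ v ∈ S, v ∈ T) {a b : ℕ}
    (h : Relation.ReflTransGen (fun u v => E n u v ∧ v ∈ S) a b) :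
    Relation.ReflTransGen (fun u v => E n u v ∧ v ∈ T) a b := by
  induction h with
  | refl => exact .refl
  | tail _ h2 ih => exact .tail ih ⟨h2.1, hST _ h2.2⟩

theorem conn {n t0 len e : ℕ} (hn : 1 ≤ n) {S : Finset ℕ} (hS : Alive n t0 len e S) :
    Con (E n) (S ∪ Ico e (e + 3 * n)) := by
  obtain ⟨r, j, hj, he, hm⟩ : ∃ r j, j < n ∧ e = n * r + j ∧ e % n = j :=
    ⟨e / n, e % n, Nat.mod_lt _ hn, (Nat.div_add_mod e n).symm, rfl⟩
  obtain ⟨T, hT⟩ : ∃ T, T = S ∪ Ico e (e + 3 * n) := ⟨_, rfl⟩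
  rw [← hT]
  have e1 : n * (r + 1) = n * r + n := Nat.mul_succ n r
  have e2 : n * (r + 1 + 1) = n * (r + 1) + n := Nat.mul_succ n _
  have e3 : n * (r + 1 + 1 + 1) = n * (r + 1 + 1) + n := Nat.mul_succ n _
  have hI : ∀ τ, e ≤ τ → τ < e + 3 * n → τ ∈ T := fun τ a b => by
    rw [hT]
    exact mem_union_right _ (mem_Ico.2 ⟨a, b⟩)
  have r2 : ∀ i, i < n → Relation.ReflTransGen (fun u v => E n u v ∧ v ∈ T)
      (n * (r + 1 + 1) + i) (n * (r + 1 + 1)) := by
    intro i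
    induction i with
    | zero => exact fun _ => .refl
    | succ i ih =>
      intro hi
      obtain ⟨i', hi'⟩ : ∃ i', i + i' + 2 = n := ⟨n - 2 - i, by omega⟩
      refine .head (b := n * (r + 1) + i') ⟨Or.inl (et (by omega)), hI _ (by omega) (by omega)⟩
        (.head (b := n * (r + 1 + 1) + i) ⟨Or.inr (et (by omega)), hI _ (by omega) (by omega)⟩
          (ih (by omega)))
  have r1 : ∀ i, i < n → Relation.ReflTransGen (fun u v => E n u v ∧ v ∈ T)
      (n * (r + 1) + i) (n * (r + 1 + 1)) := by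
    intro i hi
    obtain ⟨i', hi'⟩ : ∃ i', i' + i + 1 = n := ⟨n - 1 - i, by omega⟩
    exact .head (b := n * (r + 1 + 1) + i') ⟨Or.inr (et (by omega)), hI _ (by omega) (by omega)⟩
      (r2 i' (by omega))
  have r0 : ∀ i, i < n → Relation.ReflTransGen (fun u v => E n u v ∧ v ∈ T)
      (n * r + i) (n * (r + 1 + 1)) := by
    intro i hi
    obtain ⟨i', hi'⟩ : ∃ i', i' + i + 1 = n := ⟨n - 1 - i, by omega⟩
    exact .head (b := n * (r + 1) + i') ⟨Or.inr (et (by omega)), hI _ (by omega) (by omega)⟩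
      (r1 i' (by omega))
  have r3 : ∀ i, i < n → Relation.ReflTransGen (fun u v => E n u v ∧ v ∈ T)
      (n * (r + 1 + 1 + 1) + i) (n * (r + 1 + 1)) := by
    intro i hi
    obtain ⟨i', hi'⟩ : ∃ i', i + i' + 1 = n := ⟨n - 1 - i, by omega⟩
    exact .head (b := n * (r + 1 + 1) + i') ⟨Or.inl (et (by omega)), hI _ (by omega) (by omega)⟩
      (r2 i' (by omega))
  have rr : ∀ τ, n * r ≤ τ → τ < e + 3 * n → Relation.ReflTransGen (fun u v => E n u v ∧ v ∈ T)
      τ (n * (r + 1 + 1)) := by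
    intro τ a b
    obtain ⟨i, rfl⟩ := Nat.exists_eq_add_of_le a
    by_cases c0 : i < n
    · exact r0 i c0
    by_cases c1 : i < 2 * n
    · have := r1 (i - n) (by omega)
      rwa [show n * (r + 1) + (i - n) = n * r + i by omega] at this
    by_cases c2 : i < 3 * n
    · have := r2 (i - 2 * n) (by omega)
      rwa [show n * (r + 1 + 1) + (i - 2 * n) = n * r + i by omega] at this
    · have := r3 (i - 3 * n) (by omega)
      rwa [show n * (r + 1 + 1 + 1) + (i - 3 * n) = n * r + i by omega] at this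
  have rf : ∀ y, Fr n e y → Relation.ReflTransGen (fun u v => E n u v ∧ v ∈ T)
      y (n * (r + 1 + 1)) := by
    rintro y ⟨h1, h2 | h2⟩
    · exact rr y (by omega) (by omega)
    · rw [hm] at h2
      obtain ⟨s, rfl⟩ : ∃ s, r = s + 1 := by
        rcases r with _ | s
        · omega
        · exact ⟨s, rfl⟩
      have e0 : n * (s + 1) = n * s + n := Nat.mul_succ n s
      obtain ⟨i, rfl⟩ : ∃ i, y = n * s + i := ⟨y - n * s, by omega⟩
      obtain ⟨i', hi'⟩ : ∃ i', i' + i + 1 = n := ⟨n - 1 - i, by omega⟩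
      exact .head (b := n * (s + 1) + i') ⟨Or.inr (et (by omega)), hI _ (by omega) (by omega)⟩
        (r0 i' (by omega))
  have all : ∀ a ∈ T, Relation.ReflTransGen (fun u v => E n u v ∧ v ∈ T) a (n * (r + 1 + 1)) := by
    intro a ha
    rw [hT] at ha
    rcases mem_union.1 ha with h | h
    · obtain ⟨y, y1, -, y2⟩ := hS.2.1 a h
      refine .trans (grow (fun v k => ?_) y2) (rf y y1)
      rw [hT]
      exact mem_union_left _ k
    · rw [mem_Ico] at h
      exact rr a (by omega) h.2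
  exact fun a ha b hb => ⟨ha, (all a ha).trans (back hb (all b hb)).2⟩

end Tail

open Tail in
theorem rowTail : OfTail := by
  intro hG hGeo x n t0 len hn hx hF
  obtain ⟨g1, -, g3, -⟩ := hG
  obtain ⟨c1, -, -, -, -, c2⟩ := hGeo n hn
  have h1 : ∀ τ, gf x {T : Finset ℕ | Con (E n) T ∧ τ ∈ T} ≠ ⊤ := fun τ => by
    have := g1 ℕ Cell x {T : Finset ℕ | Con (E n) T ∧ τ ∈ T} {P | Con Adj P ∧ cell n τ ∈ P}
      (fun T => T.image (cell n)) 0
      (fun T hT => ⟨⟨(c2 T).2 hT.1, mem_image_of_mem _ hT.2⟩, card_image_of_injective _ c1⟩)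
      (image_injective c1).injOn
    rw [pow_zero, one_mul] at this
    exact ne_top_of_le_ne_top (hF _) this
  obtain ⟨A, hA⟩ : ∃ A : ℕ → Set (Finset ℕ), ∀ e T, T ∈ A e ↔
      (Con (E n) T ∧ ∃ τ ∈ Ico t0 (t0 + len), τ ∈ T) ∧ e + 3 * n - 1 ∈ T ∧
        ∀ τ ∈ T, τ < e + 3 * n := ⟨fun e => {T | _}, fun _ _ => Iff.rfl⟩
  have h2 : gf x (⋃ e, A e) ≠ ⊤ := by
    have s1 : (⋃ e, A e) ⊆ ⋃ τ ∈ Ico t0 (t0 + len), {T : Finset ℕ | Con (E n) T ∧ τ ∈ T} := by
      intro T hT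
      obtain ⟨e, he⟩ := Set.mem_iUnion.1 hT
      obtain ⟨⟨a, τ, b, c⟩, -⟩ := (hA e T).1 he
      exact Set.mem_biUnion b ⟨a, c⟩
    refine ne_top_of_le_ne_top (ENNReal.sum_ne_top.2 fun τ _ => h1 τ)
      ((ENNReal.tsum_mono_subtype (fun P : Finset ℕ => (x : ℝ≥0∞) ^ P.card) s1).trans
        (ENNReal.tsum_biUnion_le (fun P : Finset ℕ => (x : ℝ≥0∞) ^ P.card) _ _))
  have h3 : Pairwise (Function.onFun Disjoint A) := by
    intro e e' hne
    refine Set.disjoint_left.2 fun T a b => hne ?_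
    obtain ⟨-, a1, a2⟩ := (hA e T).1 a
    obtain ⟨-, b1, b2⟩ := (hA e' T).1 b
    have := a2 _ b1
    have := b2 _ a1
    omega
  rw [g3 ℕ x A h3] at h2
  have h4 := ENNReal.tendsto_atTop_zero_of_tsum_ne_top h2
  have hx0 : (x : ℝ≥0∞) ^ (3 * n) ≠ 0 := pow_ne_zero _ (ENNReal.coe_ne_zero.2 hx.ne')
  have hx1 : (x : ℝ≥0∞) ^ (3 * n) ≠ ⊤ := ENNReal.pow_ne_top ENNReal.coe_ne_top
  have h5 : ∀ e, gf x {S | Alive n t0 len e S} ≤ ((x : ℝ≥0∞) ^ (3 * n))⁻¹ * gf x (A e) := by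
    intro e
    have dj : ∀ S, Alive n t0 len e S → Disjoint S (Ico e (e + 3 * n)) := fun S hS =>
      disjoint_left.2 fun τ a b => by
        have := (hS.1 τ a).2
        have := (mem_Ico.1 b).1
        omega
    have := g1 ℕ ℕ x {S | Alive n t0 len e S} (A e) (fun S => S ∪ Ico e (e + 3 * n)) (3 * n)
      (fun S hS => by
        refine ⟨(hA e _).2 ⟨⟨conn hn hS, ?_⟩, mem_union_right _ (mem_Ico.2 (by omega)),
          fun τ a => ?_⟩, ?_⟩
        · obtain ⟨τ, a, b⟩ := hS.2.2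
          exact ⟨τ, mem_Ico.2 ⟨(hS.1 τ a).1, b⟩, mem_union_left _ a⟩
        · rcases mem_union.1 a with b | b
          · have := (hS.1 τ b).2
            omega
          · exact (mem_Ico.1 b).2
        · rw [card_union_of_disjoint (dj S hS), Nat.card_Ico]
          omega)
      (fun S hS S' hS' k => by
        have k' : S ∪ Ico e (e + 3 * n) = S' ∪ Ico e (e + 3 * n) := k
        rw [← union_sdiff_cancel_right (dj S hS), k', union_sdiff_cancel_right (dj S' hS')])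
    calc gf x {S | Alive n t0 len e S}
        = ((x : ℝ≥0∞) ^ (3 * n))⁻¹ * ((x : ℝ≥0∞) ^ (3 * n) * gf x {S | Alive n t0 len e S}) := by
          rw [← mul_assoc, ENNReal.inv_mul_cancel hx0 hx1, one_mul]
      _ ≤ _ := mul_le_mul_right this _
  have h6 := ENNReal.Tendsto.const_mul (a := ((x : ℝ≥0∞) ^ (3 * n))⁻¹) h4
    (Or.inr (ENNReal.inv_ne_top.2 hx0))
  rw [mul_zero] at h6
  exact tendsto_of_tendsto_of_tendsto_of_le_of_le tendsto_const_nhds h6 (fun _ => zero_le) h5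

end Pool.Agent.MP_6a06cd_co.KL
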