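import Pool.Agent.MP_6a06cd_co.KL.Spec3

/-! The packed target vector represents the integer sum `sT`. -/

namespace Pool.Agent.MP_6a06cd_co.KL

open Finset K

namespace Tg

theorem ap (hR : SRq) (hC : SCat) (g : ℕ → ℕ) (W : ℕ) (f : ℕ → ℕ) (z i : ℕ) :
    Rq W (nI g z) (AP g W f z i) fun t => (f (noc4 (il g z t)) : ℤ) * Pz g z t i := by
  obtain ⟨r1, r2, -, r4, r5, -⟩ := hR
  have a := r1 _ _ _ _ _ _ (hC W (ap1 g f z i) (nI g z))
    (r5 _ _ _ _ (r2 _ _ (2 ^ (bP g - 1)) _ _ (hC W (ap0 g f z) (nI g z))))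
  have e : AP g W f z i = cat W (ap1 g f z i) (nI g z) +
      neg (W * nI g z) (2 ^ (bP g - 1) * cat W (ap0 g f z) (nI g z)) := by
    rw [mul_comm (2 ^ (bP g - 1)), ← Nat.shiftLeft_eq]
    rfl
  rw [e]
  refine r4 _ _ _ _ _ (fun t _ => ?_) a
  have e1 : ap1 g f z i t = f (noc4 (il g z t)) * pc (bP g) (prow g z t) i := rfl
  have e0 : ap0 g f z t = f (noc4 (il g z t)) := rfl
  rw [e1, e0, Pz, en]
  push_cast
  ring

end Tg

theorem rowTg : OfTg := by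
  intro _ hR hD hC hB h12 g S n W u e m f eJ c z y b t2 t1 hok hu hS hc hy
  obtain ⟨w1, -, -, -, w5⟩ := h12 g S n W
  have hW := (w1 hok).1
  have hf := w5 u e m z y b t2 t1 hok hu (by have := ((hB g).2.2.2.2.2.2.2.1 e).2; omega) hy
  subst hW
  have hap := Tg.ap hR hC g (S * n) f z
  obtain ⟨-, -, -, r4', -, r6, r7', -, -, r10, -, -, r13⟩ := hR
  have bd : ∀ i t, i < r4 g z → t < n →
      |(c : ℤ) * sB1 g (m t) z y b t2 t1 i| ≤ 2 ^ (e1 g e + eJ) := fun i t _ _ => by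
    rw [abs_mul, pow_add, mul_comm (2 ^ e1 g e : ℤ), Nat.abs_cast]
    exact mul_le_mul (by exact_mod_cast hc) (((hB g).2.1 (m t) e (hu.2 t)).2.1 z y b t2 t1 i)
      (abs_nonneg _) (by positivity)
  have hd := hD.1 S n (r4 g z) (e1 g e + eJ) _ _ (r10 S n _ c _ _ hf) bd hS
  have key := r6 (S * n) (nI g z) (bo S n (e1 g e + eJ)) (r4 g z) (AP g (S * n) f z)
    (pc (S * n) (dY g S n (S * n) u e eJ c z y b t2 t1)) _
    (fun i => pk S n fun j => (c : ℤ) * sB1 g (m j) z y b t2 t1 i) (fun i _ => hap i)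
    (fun i hi => by
      rw [r7' S n _ (by omega)]
      exact hd i hi)
  refine r4' _ _ _ _ _ (fun t _ => ?_) key
  exact r13 S n (r4 g z) (fun i => (f (noc4 (il g z t)) : ℤ) * Pz g z t i)
    fun i j => (c : ℤ) * sB1 g (m j) z y b t2 t1 i

end Pool.Agent.MP_6a06cd_co.KL
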