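import Pool.Agent.MP_6a06cd_co.KL.Spec

/-! From animals on a strip to sets of times. -/

namespace Pool.Agent.MP_6a06cd_co.KL

open Finset H45 Filter Topology
open scoped NNReal ENNReal Classical

namespace Tr

/-- the least value on a set of cells -/
noncomputable def mn (T : Cell → ℤ) (P : Finset Cell) : ℤ := sInf (T '' (P : Set Cell))

theorem mn_mem (T : Cell → ℤ) {P : Finset Cell} (h : P.Nonempty) : ∃ p ∈ P, T p = mn T P :=
  Set.Nonempty.csInf_mem ((coe_nonempty.2 h).image T) (P.finite_toSet.image T)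

theorem mn_le (T : Cell → ℤ) {P : Finset Cell} {p : Cell} (h : p ∈ P) : mn T P ≤ T p :=
  csInf_le (P.finite_toSet.image T).bddBelow ⟨p, h, rfl⟩

theorem mn_eq (T : Cell → ℤ) {P : Finset Cell} {m : ℤ} {p : Cell} (h : p ∈ P) (e : T p = m)
    (h' : ∀ q ∈ P, m ≤ T q) : mn T P = m := by
  obtain ⟨q, hq, e'⟩ := mn_mem T ⟨p, h⟩
  exact le_antisymm (e ▸ mn_le T h) (e' ▸ h' q hq)

theorem mn_sh (T : Cell → ℤ) {P : Finset Cell} (h : P.Nonempty) (v : Cell) (s : ℤ)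
    (hT : ∀ p, T (p + v) = T p + s) : mn T (sh v P) = mn T P + s := by
  obtain ⟨p, hp, e⟩ := mn_mem T h
  refine mn_eq T (mem_image_of_mem _ hp) (by rw [hT, e]) fun q hq => ?_
  obtain ⟨r, hr, rfl⟩ := mem_image.1 hq
  rw [hT]
  linarith [mn_le T hr]

/-- the time of a cell -/
def tm (n : ℕ) (p : Cell) : ℤ :=
  n * (ww p - 1) + if (ww p - 1) % 2 = 0 then (uu p - 1) / 2 else (2 * n - 2 - uu p) / 2

theorem uu_sh (p : Cell) (k : ℤ) : uu (p + (k, k)) = uu p := by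
  simp only [uu, Prod.fst_add, Prod.snd_add]
  ring

theorem tm_sh (n : ℕ) (p : Cell) (k : ℤ) : tm n (p + (k, k)) = tm n p + k * (2 * n) := by
  have e : ww (p + (k, k)) = ww p + 2 * k := by
    simp only [ww, Prod.fst_add, Prod.snd_add]
    ring
  have e' : (ww p + 2 * k - 1) % 2 = (ww p - 1) % 2 := by omega
  unfold tm
  rw [uu_sh, e, e']
  ring

theorem tm_cell (hG : SGeo) {n : ℕ} (hn : 1 ≤ n) (τ : ℕ) : tm n (cell n τ) = τ := by
  obtain ⟨h1, h2, -⟩ := (hG n hn).2.2.1 τ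
  have h3 : (n : ℤ) * ((τ / n : ℕ) : ℤ) + ((τ % n : ℕ) : ℤ) = τ := by
    exact_mod_cast Nat.div_add_mod τ n
  have h4 := Nat.mod_lt τ hn
  unfold tm
  rw [h1, h2, add_sub_cancel_right, ← h3]
  unfold uT
  generalize τ / n = a
  generalize τ % n = b at h4 ⊢
  congr 1
  split_ifs <;> omega

theorem ww_pos {n : ℕ} {p : Cell} (h0 : 0 ≤ uu p) (h1 : uu p < 2 * n) (h : 0 ≤ tm n p) :
    1 ≤ ww p := by
  by_contra h2
  have h3 : (n : ℤ) * (ww p - 1) ≤ n * (-1) :=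
    mul_le_mul_of_nonneg_left (by omega) (Nat.cast_nonneg n)
  unfold tm at h
  split_ifs at h <;> omega

/-- position of the lowest cell on the first line -/
noncomputable def ff (lo : ℤ) (P : Finset Cell) : ℤ := mn Prod.fst (P.filter fun p => uu p = lo) - lo

/-- period of the first cell -/
noncomputable def gg (n t0 : ℕ) (P : Finset Cell) : ℤ := (mn (tm n) P - t0) / (2 * n)

theorem ff_sh {lo : ℤ} {P : Finset Cell} (h : ∃ p ∈ P, uu p = lo) (k : ℤ) :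
    ff lo (sh (k, k) P) = ff lo P + k := by
  have e : ((sh (k, k) P).filter fun p => uu p = lo) = sh (k, k) (P.filter fun p => uu p = lo) := by
    unfold sh
    rw [filter_image]
    simp only [uu_sh]
  obtain ⟨p, hp, hp'⟩ := h
  unfold ff
  rw [e, mn_sh Prod.fst ⟨p, mem_filter.2 ⟨hp, hp'⟩⟩ (k, k) k fun _ => rfl]
  ring

theorem gg_sh {n : ℕ} (hn : 1 ≤ n) (t0 : ℕ) {P : Finset Cell} (h : P.Nonempty) (k : ℤ) :
    gg n t0 (sh (k, k) P) = gg n t0 P + k := by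
  unfold gg
  rw [mn_sh (tm n) h (k, k) _ fun p => tm_sh n p k, add_sub_right_comm,
    Int.add_mul_ediv_right _ _ (by omega)]

theorem ff_zero {lo : ℤ} {P : Finset Cell} (h : ∃ p ∈ P, uu p = lo) :
    ff lo P = 0 ↔ Bot (lo, 0) P := by
  have e : uu (lo, 0) = lo := sub_zero lo
  have e' : ww (lo, 0) = lo := add_zero lo
  unfold ff Bot
  rw [sub_eq_zero, e, e']
  constructor
  · intro h1
    obtain ⟨p, hp, hp'⟩ := h
    obtain ⟨q, hq, h2⟩ := mn_mem Prod.fst ⟨p, (mem_filter (p := fun p => uu p = lo)).2 ⟨hp, hp'⟩⟩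
    obtain ⟨h3, h4⟩ := mem_filter.1 hq
    rw [h1] at h2
    have h5 : q = (lo, 0) := Prod.ext h2 (by unfold uu at h4; change q.2 = 0; omega)
    refine ⟨h5 ▸ h3, fun r hr h6 => ?_⟩
    have h7 := mn_le Prod.fst ((mem_filter (p := fun p => uu p = lo)).2 ⟨hr, h6⟩)
    unfold uu at h6
    unfold ww
    omega
  · rintro ⟨h1, h2⟩
    refine mn_eq Prod.fst (mem_filter.2 ⟨h1, e⟩) rfl fun q hq => ?_
    obtain ⟨h3, h4⟩ := mem_filter.1 hq
    have h5 := h2 q h3 h4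
    unfold uu at h4
    unfold ww at h5
    omega

theorem gg_zero {n : ℕ} (hn : 1 ≤ n) (t0 : ℕ) {P : Finset Cell} (h : P.Nonempty) :
    gg n t0 P = 0 ↔ (∀ p ∈ P, (t0 : ℤ) ≤ tm n p) ∧ ∃ p ∈ P, tm n p < t0 + 2 * n := by
  obtain ⟨q, hq, e⟩ := mn_mem (tm n) h
  unfold gg
  constructor
  · intro h1
    have h2 := Int.emod_add_mul_ediv (mn (tm n) P - t0) (2 * n)
    have h3 := Int.emod_nonneg (mn (tm n) P - t0) (b := 2 * n) (by omega)
    have h4 := Int.emod_lt_of_pos (mn (tm n) P - t0) (b := 2 * n) (by omega)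
    rw [h1, mul_zero, add_zero] at h2
    refine ⟨fun p hp => ?_, q, hq, by omega⟩
    have := mn_le (tm n) hp
    omega
  · rintro ⟨h1, p, hp, h2⟩
    have h3 := mn_le (tm n) hp
    have h4 := h1 q hq
    exact Int.ediv_eq_zero_of_lt (by omega) (by omega)

theorem gd_iff (hG : SGeo) {n : ℕ} (hn : 1 ≤ n) (lo t0 : ℕ) (S : Finset ℕ) :
    (S.image (cell n) ∈ An lo (2 * n - 1) ∧ gg n t0 (S.image (cell n)) = 0) ↔
      Gd n lo t0 (2 * n) S := by
  obtain ⟨-, -, g3, -, -, g6⟩ := hG n hn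
  have ht := tm_cell hG hn
  constructor
  · rintro ⟨⟨h1, h2, ⟨p, hp, h3⟩, q, hq, h4⟩, h5⟩
    obtain ⟨h6, r, hr, h7⟩ := (gg_zero hn t0 ⟨p, hp⟩).1 h5
    obtain ⟨a, ha, rfl⟩ := mem_image.1 hp
    obtain ⟨b, hb, rfl⟩ := mem_image.1 hq
    obtain ⟨c, hc, rfl⟩ := mem_image.1 hr
    rw [(g3 _).1] at h3 h4
    rw [ht] at h7
    refine ⟨(g6 S).1 h1, fun τ hτ => ?_, ⟨a, ha, by omega⟩, ⟨b, hb, by omega⟩, c, hc, by omega⟩
    have h8 := h6 _ (mem_image_of_mem _ hτ)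
    have h9 := (h2 _ (mem_image_of_mem _ hτ)).1
    rw [ht] at h8
    rw [(g3 _).1] at h9
    omega
  · rintro ⟨h1, h2, ⟨a, ha, h3⟩, ⟨b, hb, h4⟩, c, hc, h5⟩
    refine ⟨⟨(g6 S).2 h1, fun p hp => ?_, ⟨_, mem_image_of_mem _ ha, ?_⟩, _,
      mem_image_of_mem _ hb, ?_⟩, (gg_zero hn t0 ⟨_, mem_image_of_mem _ ha⟩).2
        ⟨fun p hp => ?_, _, mem_image_of_mem _ hc, ?_⟩⟩
    · obtain ⟨τ, hτ, rfl⟩ := mem_image.1 hp
      have h6 := (h2 τ hτ).2
      have h7 := (g3 τ).2.2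
      rw [(g3 _).1]
      omega
    · rw [(g3 _).1, h3]
    · rw [(g3 _).1]
      omega
    · obtain ⟨τ, hτ, rfl⟩ := mem_image.1 hp
      have h6 := (h2 τ hτ).1
      rw [ht]
      omega
    · rw [ht]
      omega

theorem back (hG : SGeo) {n : ℕ} (hn : 1 ≤ n) {lo t0 : ℕ} {P : Finset Cell}
    (h : P ∈ An lo (2 * n - 1)) (h' : gg n t0 P = 0) :
    (P.image fun p => (tm n p).toNat).image (cell n) = P := by
  obtain ⟨-, h2, ⟨p, hp, -⟩, -⟩ := h
  obtain ⟨h6, -⟩ := (gg_zero hn t0 ⟨p, hp⟩).1 h'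
  rw [image_image]
  refine (image_congr fun q hq => ?_).trans image_id
  have h3 := h2 q hq
  have h4 := h6 q hq
  obtain ⟨τ, rfl⟩ := (hG n hn).2.2.2.2.1 q (by omega) (by omega)
    (ww_pos (n := n) (by omega) (by omega) (by omega))
  change cell n (tm n (cell n τ)).toNat = cell n τ
  rw [tm_cell hG hn, Int.toNat_natCast]

end Tr

theorem rowTr : OfTr := by
  intro hF hH hC hG x n lo t0 hn hlo
  have inj := (hG n hn).1
  have e1 := (hC.1 x (2 * n - lo) ((lo : ℤ), 0) (by omega)).1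
  have e2 : uu ((lo : ℤ), 0) = lo := sub_zero _
  have e3 : (lo : ℤ) + ((2 * n - lo : ℕ) : ℤ) - 1 = 2 * n - 1 := by omega
  rw [e2, e3] at e1
  have e4 := hH.1 x (An lo (2 * n - 1)) (Tr.ff lo) (Tr.gg n t0) fun P hP k => by
    obtain ⟨p, hp, hp'⟩ := hP.2.2.1
    refine ⟨?_, Tr.ff_sh hP.2.2.1 k, Tr.gg_sh hn t0 ⟨p, hp⟩ k⟩
    have := (hH.2.2.1 lo (2 * n - 1) (k, k) P).2 hP
    rwa [show uu (k, k) = 0 from sub_self k, add_zero, add_zero] at this
  have e5 : {P | P ∈ An (lo : ℤ) (2 * n - 1) ∧ Tr.ff lo P = 0} =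
      {P | P ∈ An (lo : ℤ) (2 * n - 1) ∧ Bot ((lo : ℤ), 0) P} :=
    Set.ext fun P => and_congr_right fun hP => Tr.ff_zero hP.2.2.1
  rw [← e1, ← e5, e4]
  refine le_antisymm ?_ ?_
  · have := hF.1 _ _ x {P | P ∈ An (lo : ℤ) (2 * n - 1) ∧ Tr.gg n t0 P = 0}
      {S | Gd n lo t0 (2 * n) S} (fun P => P.image fun p => (Tr.tm n p).toNat) 0
      (fun P hP => by
        have h1 := Tr.back hG hn hP.1 hP.2
        refine ⟨(Tr.gd_iff hG hn lo t0 _).1 (h1.symm ▸ hP), ?_⟩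
        rw [add_zero, ← card_image_of_injective _ inj, h1])
      fun P hP R hR e => by
        rw [← Tr.back hG hn hP.1 hP.2, ← Tr.back hG hn hR.1 hR.2]
        exact congrArg (image (cell n)) e
    rwa [pow_zero, one_mul] at this
  · have := hF.1 _ _ x {S | Gd n lo t0 (2 * n) S}
      {P | P ∈ An (lo : ℤ) (2 * n - 1) ∧ Tr.gg n t0 P = 0} (fun S => S.image (cell n)) 0
      (fun S hS => ⟨(Tr.gd_iff hG hn lo t0 S).2 hS, card_image_of_injective _ inj⟩)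
      (image_injective inj).injOn
    rwa [pow_zero, one_mul] at this

end Pool.Agent.MP_6a06cd_co.KL
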