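import Pool.Agent.MP_6a06cd_co.KL.Spec

/-! Upper bounds for the generating function of the strip from finite sums. -/

namespace Pool.Agent.MP_6a06cd_co.KL

open Finset H45 Filter Topology
open scoped NNReal ENNReal Classical

theorem rowUpp : OfUpp := by
  intro hg hv x n lo t0 len per y hn hper h
  refine hg.2.2.2.2.1 ℕ x _ _ fun G hG => ?_
  obtain ⟨K, hK⟩ : ∃ K, ∀ S ∈ G, ∀ τ ∈ S, τ ≤ K :=
    ⟨(G.biUnion id).sup id, fun S hS τ hτ => le_sup (f := id) (mem_biUnion.2 ⟨S, hS, hτ⟩)⟩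
  have h1 := h (K + 2 * n + 1) (by omega)
  have h2 : K + 2 * n + 1 ≤ per * (K + 2 * n + 1) := Nat.le_mul_of_pos_left _ hper
  rw [hv.1] at h1
  generalize per * (K + 2 * n + 1) = L at h1 h2
  have h3 : (t0 + L) % n < n := Nat.mod_lt _ hn
  refine le_trans ?_ (ENNReal.ofReal_le_ofReal h1)
  have h4 : ∑ F ∈ G, (x : ℝ) ^ F.card * φU n lo t0 len (t0 + L) (∅ ∪ F) ≤
      ∑ F ∈ (Ico t0 (t0 + L)).powerset, (x : ℝ) ^ F.card * φU n lo t0 len (t0 + L) (∅ ∪ F) := by
    refine sum_le_sum_of_subset_of_nonneg (fun S hS => mem_powerset.2 fun τ hτ => ?_) fun F _ _ => ?_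
    · have := hK S hS τ hτ
      exact mem_Ico.2 ⟨((hG S hS).2.1 τ hτ).1, by omega⟩
    · refine mul_nonneg (by positivity) ?_
      unfold φU
      split_ifs <;> norm_num
  refine le_trans (le_of_eq ?_) (ENNReal.ofReal_le_ofReal h4)
  have h5 : ∀ F ∈ G, (x : ℝ) ^ F.card * φU n lo t0 len (t0 + L) (∅ ∪ F) = (x : ℝ) ^ F.card := by
    intro F hF
    rw [empty_union, φU, if_pos, mul_one]
    refine ⟨hG F hF, fun τ hτ hf => ?_⟩
    have := hK F hF τ hτ
    unfold Fr at hf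
    omega
  rw [sum_congr rfl h5, ENNReal.ofReal_sum_of_nonneg fun _ _ => by positivity]
  refine sum_congr rfl fun F _ => ?_
  rw [ENNReal.ofReal_pow x.coe_nonneg, ENNReal.ofReal_coe_nnreal]

end Pool.Agent.MP_6a06cd_co.KL
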