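import Pool.Agent.MP_6a06cd_co.KL.Spec

/-! The recursive weighted sum as a sum over subsets. -/

namespace Pool.Agent.MP_6a06cd_co.KL

open Finset
open scoped Classical

theorem rowVs : SVs := by
  refine ⟨fun x φ k => ?_, fun x φ k P τ hx hφ => ?_⟩
  · induction k with
    | zero => intro P τ; simp [V]
    | succ k ih =>
      intro P τ
      have h1 : Ico τ (τ + (k + 1)) = insert τ (Ico (τ + 1) (τ + 1 + k)) := by
        ext y
        simp only [mem_Ico, mem_insert]
        omega
      have h2 : τ ∉ Ico (τ + 1) (τ + 1 + k) := by simp
      rw [V, ih, ih, h1, sum_powerset_insert h2, mul_sum]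
      congr 1
      refine sum_congr rfl fun F hF => ?_
      rw [card_insert_of_notMem fun h => h2 (mem_powerset.1 hF h), union_insert, insert_union,
        pow_succ]
      ring
  · induction k generalizing P τ with
    | zero => exact ⟨hφ P, le_rfl⟩
    | succ k ih =>
      have h1 := ih P (τ + 1)
      have h2 := mul_nonneg hx (ih (insert τ P) (τ + 1)).1
      rw [V]
      exact ⟨by linarith [h1.1], by linarith [h1.2]⟩

end Pool.Agent.MP_6a06cd_co.KL
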