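import Pool.Agent.MP_6a06cd_co.KL.Spec

/-! Basic facts on connections and on the words of the lazy machine. -/

namespace Pool.Agent.MP_6a06cd_co.KL

open Finset H45 Filter Topology
open scoped NNReal ENNReal Classical

namespace W

theorem mono {P P' : Finset ℕ} {a b : ℕ} (h : P ⊆ P') (hc : C P a b) : C P' a b := by
  obtain ⟨ha, hr⟩ := hc
  refine ⟨h ha, ?_⟩
  induction hr with
  | refl => exact Relation.ReflTransGen.refl
  | tail _ hcd ih => exact ih.tail ⟨hcd.1, h hcd.2⟩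

theorem symm {P : Finset ℕ} {a b : ℕ} (hc : C P a b) : C P b a ∧ b ∈ P := by
  obtain ⟨ha, hr⟩ := hc
  induction hr with
  | refl => exact ⟨⟨ha, Relation.ReflTransGen.refl⟩, ha⟩
  | tail _ hcd ih =>
    exact ⟨⟨hcd.2, Relation.ReflTransGen.head ⟨Or.symm hcd.1, ih.2⟩ ih.1.2⟩, hcd.2⟩

theorem trans {P : Finset ℕ} {a b c : ℕ} (h1 : C P a b) (h2 : C P b c) : C P a c :=
  ⟨h1.1, h1.2.trans h2.2⟩

theorem lt21 {c : ℕ} (h : aB c < 6) : c < 21 := by
  by_contra hc
  have : aB c = 6 := by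
    unfold aB
    exact List.getD_eq_default _ _ (by simpa using not_lt.1 hc)
  omega

theorem tab : ∀ c < 21, (xB (aB c) = true → occ c = true) ∧
    (hB (aB c) = true → keep c = true ∧
      ((aZ c = 4 ∧ xB (rB (aZ c)) = true) ∨ hB (rB (aZ c)) = true)) ∧
    (aB c = 4 → c = 19) ∧ (aB c = 5 → c = 20) := by decide

theorem wmono {P P' : Finset ℕ} (h : P ⊆ P') : ∀ (w : List ℕ) (e β α : ℕ), Wb P w e β α → Wb P' w e β α
  | [], e, β, α, hw => by
    rcases hw with hw | ⟨hw, τ, hτ, ht⟩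
    · exact Or.inl hw
    · exact Or.inr ⟨hw, τ, h hτ, ht⟩
  | c :: w, e, β, α, hw => by
    obtain ⟨h1, h2, h3, h4, α', h5, h6, h7, h8, h9⟩ := hw
    exact ⟨h1, h2, h3, fun ho => h (h4 ho), α', wmono h w _ _ _ h5, fun x => mono h (h6 x),
      fun x => mono h (h7 x), fun x => mono h (h8 x), fun x => mono h (h9 x)⟩

theorem wx {P : Finset ℕ} : ∀ (w : List ℕ) (e β α : ℕ), Wb P w e β α → xB β = true →
    w ≠ [] ∧ Rec w e (e - 1) ∧ e - 1 ∈ P
  | [], e, β, α, hw, hx => by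
    rcases hw with rfl | ⟨rfl, _⟩ <;> exact absurd hx (by decide)
  | c :: w, e, β, α, hw, hx => by
    obtain ⟨rfl, h2, _, h4, _⟩ := hw
    have ho := (tab c (lt21 h2)).1 hx
    exact ⟨List.cons_ne_nil _ _, Or.inl ⟨ho, rfl⟩, h4 ho⟩

theorem wh {P : Finset ℕ} : ∀ (w : List ℕ) (e β α : ℕ), Wb P w e β α → hB β = true →
    ∃ y, Rec w e y ∧ C P α y
  | [], e, β, α, hw, hx => by
    rcases hw with rfl | ⟨rfl, _⟩ <;> exact absurd hx (by decide)
  | c :: w, e, β, α, hw, hx => by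
    obtain ⟨rfl, h2, _, _, α', h5, h6, h7, _⟩ := hw
    obtain ⟨hk, ⟨hz, hx'⟩ | hh⟩ := (tab c (lt21 h2)).2.1 hx
    · exact ⟨e - 1 - 1, Or.inr (wx w _ _ _ h5 hx').2.1, trans (symm (h7 hk)).1 (h6 hz)⟩
    · obtain ⟨y, hy, hc⟩ := wh w _ _ _ h5 hh
      exact ⟨y, Or.inr hy, trans (symm (h7 hk)).1 hc⟩

theorem wshape {P : Finset ℕ} : ∀ (w : List ℕ) (e β α : ℕ), Wb P w e β α →
    Shape w β ∧ w.length ≤ e ∧ (β = 5 → Tch P (e - w.length))
  | [], e, β, α, hw => by
    rcases hw with rfl | ⟨rfl, ht⟩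
    · exact ⟨Or.inl rfl, Nat.zero_le _, fun h => absurd h (by decide)⟩
    · exact ⟨Or.inr rfl, Nat.zero_le _, fun _ => ht⟩
  | c :: w, e, β, α, hw => by
    obtain ⟨h1, h2, h3, _, α', h5, _⟩ := hw
    obtain ⟨i1, i2, i3⟩ := wshape w _ _ _ h5
    refine ⟨⟨h1, h2, i1⟩, by simp only [List.length_cons]; omega, fun h => ?_⟩
    have hc : c = 20 := (tab c (lt21 (h1 ▸ h2))).2.2.2 (h1.trans h)
    subst hc
    have := i3 (by decide)
    rwa [show e - 1 - w.length = e - (20 :: w).length by simp only [List.length_cons]; omega] at this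

theorem sh4 : ∀ w : List ℕ, Shape w 4 → w = List.replicate w.length 19
  | [], _ => rfl
  | c :: w, h => by
    obtain ⟨h1, _, h3⟩ := h
    have hc : c = 19 := (tab c (lt21 (by omega))).2.2.1 h1
    subst hc
    rw [List.length_cons, List.replicate_succ, ← sh4 w h3]

theorem sh5 : ∀ w : List ℕ, Shape w 5 → w = List.replicate w.length 20
  | [], _ => rfl
  | c :: w, h => by
    obtain ⟨h1, _, h3⟩ := h
    have hc : c = 20 := (tab c (lt21 (by omega))).2.2.2 h1
    subst hc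
    rw [List.length_cons, List.replicate_succ, ← sh5 w h3]

theorem norec {c : ℕ} (hc : occ c = false) : ∀ n e y : ℕ, ¬ Rec (List.replicate n c) e y
  | 0, _, _, h => h
  | n + 1, e, y, h => by
    rw [List.replicate_succ] at h
    rcases h with ⟨h, _⟩ | h
    · rw [hc] at h
      exact Bool.false_ne_true h
    · exact norec hc n _ _ h

theorem recb : ∀ (w : List ℕ) (e y : ℕ), w.length ≤ e → Rec w e y → y < e ∧ e ≤ y + w.length
  | [], _, _, _, h => h.elim
  | c :: w, e, y, hl, h => by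
    simp only [List.length_cons] at hl ⊢
    rcases h with ⟨_, rfl⟩ | h
    · omega
    · have := recb w (e - 1) y (by omega) h
      omega

end W

theorem rowW : SW :=
  ⟨fun _ _ _ _ => W.mono, fun _ _ _ => W.symm, fun _ _ _ _ => W.trans,
    fun _ _ w e β α h => W.wmono h w e β α, fun _ => W.wx, fun _ => W.wh, fun _ => W.wshape,
    fun w => ⟨W.sh4 w, W.sh5 w⟩,
    fun n e y => ⟨W.norec (by decide) n e y, W.norec (by decide) n e y⟩, W.recb⟩

end Pool.Agent.MP_6a06cd_co.KL
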