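import Pool.Agent.MP_6a06cd_co.KL.Spec2

/-! The empty move of the exact machine. -/

namespace Pool.Agent.MP_6a06cd_co.KL

open Finset H45 X

namespace Xe

variable {n : ℕ} {P : Finset ℕ} {a b c : ℕ}

theorem cn_symm (h : Cn (E n) P a b) : Cn (E n) P b a := by
  obtain ⟨ha, h⟩ := h
  induction h with
  | refl => exact ⟨ha, .refl⟩
  | tail _ h2 ih => exact ⟨h2.2, .head ⟨h2.1.symm, ih.1⟩ ih.2⟩

theorem cn_trans (h : Cn (E n) P a b) (h' : Cn (E n) P b c) : Cn (E n) P a c :=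
  ⟨h.1, h.2.trans h'.2⟩

theorem cn_refl (h : a ∈ P) : Cn (E n) P a a := ⟨h, .refl⟩

end Xe

open Xe in
theorem rowXe : OfXe := by
  intro hF hB n lo τ p s P h1 h2 h3 ⟨r1, r2, r3, r4, r5, _⟩
  obtain ⟨f1, -, -, f4, -⟩ := hF n τ p h1 h2 h3
  obtain ⟨b1, b2, b3, b4, b5, b6⟩ := hB n p s h1 f1
  have hτ : τ ∉ P := fun h => lt_irrefl _ (r1 τ h).1
  rcases b5 with ⟨e, h⟩ | ⟨e, h⟩
  · have hc : fc n τ (sl n p) ∈ P := ((r2 _ _ f1 f1).1 ((h _ f1).2 rfl)).1
    have hu : ∀ i, i < n → Cn (E n) P (fc n τ (sl n p)) (fc n τ i) → i = sl n p :=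
      fun i hi h' => (h i hi).1 ((r2 _ _ f1 hi).2 h')
    refine Or.inr ⟨e, ⟨_, hc⟩, ?_, fun F hF' hC => eq_empty_of_forall_notMem fun f hf => ?_⟩
    · rw [(b6 _ b4).1, b2, b3, r4, r5]
      refine and_congr_left' ⟨fun h' => ?_, fun h' i j hi hj h4 => ?_⟩
      · have h4 : ∀ q ∈ P, Cn (E n) P q (fc n τ (sl n p)) := fun q hq => by
          obtain ⟨i, hi, h5⟩ := r3 q hq
          by_cases e' : i = sl n p
          · rwa [e'] at h5
          · exact absurd ((b1 i i hi hi).2 ⟨(r2 i i hi hi).2 (cn_refl (cn_symm h5).1), e', e'⟩)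
              (h' i i hi hi)
        exact fun a ha b hb => cn_trans (h4 a ha) (cn_symm (h4 b hb))
      · obtain ⟨h5, h6, -⟩ := (b1 i j hi hj).1 h4
        exact h6 (hu i hi (h' _ hc _ ((r2 i j hi hj).1 h5).1))
    · have h4 := Nat.mod_lt (τ + 1) (show 0 < 2 * n by omega)
      obtain ⟨-, -, -, -, -, -, -, g8, g9, -⟩ :=
        hF n (τ + 1) (2 * n - 1 - (τ + 1) % (2 * n)) h1 (by omega) (by omega)
      have h5 : ∀ v, Relation.ReflTransGen (fun u v => E n u v ∧ v ∈ P ∪ F) (fc n τ (sl n p)) v →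
          Cn (E n) P (fc n τ (sl n p)) v := fun v hv => by
        induction hv with
        | refl => exact cn_refl hc
        | @tail u v _ h6 ih =>
          refine ⟨hc, ih.2.tail ⟨h6.1, (mem_union.1 h6.2).resolve_right fun h7 => ?_⟩⟩
          have h8 := (cn_symm ih).1
          obtain ⟨i, hi, rfl⟩ := (g8 u).1
            (g9 u v (Nat.lt_succ_of_lt (r1 u h8).1) (hF' v h7) h6.1.symm)
          rw [f4 i hi] at ih h8
          split_ifs at ih h8 with e'
          · exact hτ h8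
          · exact e' (hu i hi ih)
      exact (hF' f hf).not_gt (r1 f (cn_symm (h5 f
        (hC _ (mem_union_left _ hc) f (mem_union_right _ hf)).2)).1).1
  · refine Or.inl ⟨e, fun q hq => ⟨Nat.lt_succ_of_lt (r1 q hq).1, (r1 q hq).2⟩,
      fun i j hi hj => ?_, fun q hq => ?_, b2.trans r4, b3.trans r5, b4⟩
    · rw [b1 i j hi hj, r2 i j hi hj, f4 i hi, f4 j hj]
      by_cases e1 : i = sl n p
      · rw [if_pos e1]
        exact iff_of_false (fun h' => h'.2.1 e1) fun h' => hτ h'.1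
      · by_cases e2 : j = sl n p
        · rw [if_pos e2]
          exact iff_of_false (fun h' => h'.2.2 e2) fun h' => hτ (cn_symm h').1
        · rw [if_neg e1, if_neg e2]
          exact and_iff_left ⟨e1, e2⟩
    · obtain ⟨i, hi, h4⟩ := r3 q hq
      by_cases e1 : i = sl n p
      · by_contra h5
        refine h fun j hj => ⟨fun h6 => by_contra fun e2 => h5 ⟨j, hj, ?_⟩, fun e2 => ?_⟩
        · rw [f4 j hj, if_neg e2]
          exact cn_trans (e1 ▸ h4) ((r2 _ _ f1 hj).1 h6)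
        · rw [e2, r2 _ _ f1 f1, ← e1]
          exact cn_refl (cn_symm h4).1
      · exact ⟨i, hi, by rwa [f4 i hi, if_neg e1]⟩

end Pool.Agent.MP_6a06cd_co.KL
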