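import Pool.Agent.MP_6a06cd_co.KL.Spec2

/-! The checker of the exact machine gives bounds for narrow strips. -/

namespace Pool.Agent.MP_6a06cd_co.KL

open Finset H45 X
open scoped NNReal ENNReal

namespace Xf

theorem cn_mem {α : Type} {R : α → α → Prop} {S : Finset α} {a b : α} (h : Cn R S a b) : b ∈ S := by
  obtain ⟨h1, h2⟩ := h
  induction h2 with
  | refl => exact h1
  | tail _ h _ => exact h.2

theorem down' {W G D v a' b' a b : ℕ} {y1 y2 : ℝ} (hW : 0 < W) (hD : 0 < D) (e : v = a + W * b)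
    (h1 : (a : ℝ) ≤ D * y1) (h2 : G * D ≤ b ∨ D * y2 ≤ b) (k1 : b' < G) (k2 : a' * D ≤ v % W)
    (k3 : v / W ≤ b' * D) : (a' : ℝ) ≤ y1 ∧ y2 ≤ b' := by
  have d : (0 : ℝ) < D := by exact_mod_cast hD
  rw [e, Nat.add_mul_mod_self_left] at k2
  rw [e, Nat.add_mul_div_left _ _ hW] at k3
  have k4 : b ≤ b' * D := (Nat.le_add_left _ _).trans k3
  refine ⟨le_of_mul_le_mul_left (le_trans ?_ h1) d, le_of_mul_le_mul_left (le_trans
    (h2.resolve_left (k4.trans_lt (Nat.mul_lt_mul_of_pos_right k1 hD)).not_ge) ?_) d⟩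
  · exact_mod_cast (mul_comm D a').trans_le (k2.trans (Nat.mod_le _ _))
  · exact_mod_cast k4.trans_eq (mul_comm _ _)

theorem down {n den v a' b' : ℕ} {y1 y2 : ℝ} (hd : 1 ≤ den)
    (h : VB (2 ^ 44 * den ^ (2 * n)) v (2 ^ 36 * den ^ (2 * n) * y1) (2 ^ 36 * den ^ (2 * n) * y2))
    (k : Ok2 n den v a' b') : (a' : ℝ) ≤ 2 ^ 36 * y1 ∧ 2 ^ 36 * y2 ≤ b' := by
  obtain ⟨a, b, e, h1, h2⟩ := h
  refine down' (W := 2 ^ 320) (Nat.pow_pos two_pos) (Nat.pow_pos hd) e (h1.trans_eq ?_)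
    (h2.imp_right fun h => le_of_eq_of_le ?_ h) k.1 k.2.1 k.2.2 <;> rw [Nat.cast_pow] <;> ring

theorem ne_zero {n lo τ s q : ℕ} {P : Finset ℕ} (h : RelX n lo τ P s) (hq : q ∈ P) : s ≠ 0 := by
  obtain ⟨i, hi, c⟩ := h.2.2.1 q hq
  have := (h.2.1 i i hi hi).2 ⟨cn_mem c, .refl⟩
  rintro rfl
  simp [bt] at this

theorem pL {n lo t0 len e : ℕ} {M : ℝ} (hM : 0 ≤ M) (S : Finset ℕ) : 0 ≤ φL n lo t0 len e M S ∧
    (Gd n lo t0 len S → 1 ≤ φL n lo t0 len e M S) ∧
      (Alive n t0 len e S → M ≤ φL n lo t0 len e M S) := by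
  unfold φL
  split_ifs <;> simp [*, add_nonneg zero_le_one hM]

theorem pU {n lo t0 len e : ℕ} (S : Finset ℕ) : 0 ≤ φU n lo t0 len e S ∧ φU n lo t0 len e S ≤ 1 ∧
    (φU n lo t0 len e S ≠ 0 → Gd n lo t0 len S ∧ ∀ y ∈ S, ¬ Fr n e y) := by
  unfold φU
  split_ifs with h
  · exact ⟨zero_le_one, le_rfl, fun _ => h⟩
  · exact ⟨le_rfl, zero_le_one, fun h => (h rfl).elim⟩

end Xf

open Xf in
theorem rowXf : OfXf := by
  intro vs tr low upp fcs be xv xk n lo num den t a b x hn hlo hnum hden hx fin ck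
  obtain ⟨k1, k2, k3, k4⟩ := xk n lo num den t a b ck
  rw [k3] at k4
  generalize lk n den t = L at *
  have x0 : (0 : ℝ) < num / den := by positivity
  have main : ∀ N, 1 ≤ N →
      (a : ℝ) ≤ 2 ^ 36 * V (num / den) (φL n lo (2 * n) (2 * n) (2 * n + 2 * n * N) 256)
        (2 * n * N) ∅ (2 * n) ∧
      2 ^ 36 * V (num / den) (φU n lo (2 * n) (2 * n) (2 * n + 2 * n * N)) (2 * n * N) ∅ (2 * n)
        ≤ b := fun N hN => by
    obtain ⟨N, rfl⟩ := Nat.exists_eq_add_of_le' hN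
    obtain ⟨e, he⟩ : ∃ e, e = 2 * n + 2 * n * (N + 1) := ⟨_, rfl⟩
    rw [← he]
    have p1 := pL (n := n) (lo := lo) (t0 := 2 * n) (len := 2 * n) (e := e) (M := 256) (by norm_num)
    have p2 := pU (n := n) (lo := lo) (t0 := 2 * n) (len := 2 * n) (e := e)
    generalize φL n lo (2 * n) (2 * n) e 256 = φ1 at *
    generalize φU n lo (2 * n) (2 * n) e = φ2 at *
    have v0 : ∀ K P τ, 0 ≤ 2 ^ 36 * V (num / den) φ1 K P τ := fun K P τ =>
      mul_nonneg (by positivity) (vs.2 _ _ K P τ x0.le fun S => (p1 S).1).1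
    have X := fun j K win => xv n lo num den (2 * n) (2 * n * (j + 2)) K (2 ^ 44 * den ^ (2 * n))
      win φ1 φ2 L hn hnum hden (Nat.mul_mod_right _ _) (by nlinarith)
    have f := fcs n e (2 * n - 1) hn (by omega) (by
      rw [he, Nat.add_mul_mod_self_left, Nat.mod_self]
      omega)
    have A : ∀ i j, i + j = N → ∀ P s, RelW n lo (2 * n) False (2 * n * (j + 2)) P s →
        VB (2 ^ 44 * den ^ (2 * n)) (L s)
          (2 ^ 36 * V (num / den) φ1 (2 * n * i) P (2 * n * (j + 2)))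
          (2 ^ 36 * V (num / den) φ2 (2 * n * i) P (2 * n * (j + 2))) := fun i => by
      induction i with
      | zero =>
        intro j hj P s h
        obtain rfl : j = N := by omega
        rw [show 2 * n * (j + 2) = e by rw [he]; ring] at h ⊢
        obtain ⟨q, q1, q2⟩ := h.2.2.2.resolve_right fun h => h.2
        rcases k4 s (ne_zero h.1 q1) with k | ⟨a', b', k5, k6, -⟩
        · exact ⟨0, _, k.trans (zero_add _).symm, Nat.cast_zero.trans_le (v0 _ _ _), .inl le_rfl⟩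
        have c : ∀ p ∈ P, ∃ y, Fr n e y ∧ Cn (E n) P p y := fun p hp => by
          obtain ⟨i, hi, c⟩ := h.1.2.2.1 p hp
          exact ⟨_, (f.2.2.2.2.2.2.2.1 _).2 ⟨i, hi, rfl⟩, c⟩
        have c1 := (p1 P).2.2 ⟨fun τ hτ => ⟨h.2.2.1 τ hτ, (h.1.1 τ hτ).1⟩, c, q, q1, q2⟩
        have c2 : φ2 P = 0 := by_contra fun h0 => by
          obtain ⟨y, y1, y2⟩ := c q q1
          exact ((p2 P).2.2 h0).2 y (cn_mem y2) y1
        have c3 : (a' : ℝ) < 2 ^ 44 := by exact_mod_cast k5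
        refine ⟨a', b', k6, ?_, .inr ?_⟩
        · change _ ≤ _ * φ1 P
          linarith
        · change _ * φ2 P ≤ _
          rw [c2, mul_zero]
          exact Nat.cast_nonneg _
      | succ i ih =>
        intro j hj P s h
        obtain ⟨q, q1, q2⟩ := h.2.2.2.resolve_right fun h => h.2
        rcases k4 s (ne_zero h.1 q1) with k | ⟨a', b', -, k6, k7⟩
        · exact ⟨0, _, k.trans (zero_add _).symm, Nat.cast_zero.trans_le (v0 _ _ _), .inl le_rfl⟩
        have := X (j + 1) _ False False.elim (fun S => ⟨(p1 S).1, (p1 S).2.1⟩)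
          (fun S => ⟨(p2 S).1, (p2 S).2.1, fun h => ((p2 S).2.2 h).1⟩) (ih (j + 1) (by omega))
          (2 * n) le_rfl P s
        rw [show j + 1 + 2 = j + 2 + 1 from rfl, Nat.mul_succ, Nat.add_sub_cancel] at this
        exact ⟨a', b', k6, (down hden (this h) k7).imp_right .inr⟩
    have := X 0 (2 * n * N) True (fun _ => by omega) (fun S => ⟨(p1 S).1, (p1 S).2.1⟩)
      (fun S => ⟨(p2 S).1, (p2 S).2.1, fun h => ((p2 S).2.2 h).1⟩) (fun P s h => by
        rcases h.2.2.2 with h1 | ⟨rfl, -⟩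
        · exact A N 0 rfl P s ⟨h.1, h.2.1, h.2.2.1, .inl h1⟩
        obtain ⟨-, r1, -, r2, r3, r4⟩ := h.1
        obtain rfl : s = 0 := ((be n _ s hn f.1).2.2.2.2.2 s r4).2.2
          ⟨fun i j hi hj c => by simpa using ((r1 i j hi hj).1 c).1, by simp [r2], by simp [r3]⟩
        refine ⟨0, 0, by rw [k2, Nat.mul_zero], Nat.cast_zero.trans_le (v0 _ _ _), .inr ?_⟩
        rw [vs.1, sum_eq_zero fun F hF => ?_, mul_zero, Nat.cast_zero]
        refine mul_eq_zero_of_right _ (by_contra fun h0 => ?_)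
        obtain ⟨q, q1, q2⟩ := ((p2 _).2.2 h0).1.2.2.2.2
        have := (mem_Ico.1 (mem_powerset.1 hF (by simpa using q1))).1
        omega) (2 * n) le_rfl ∅ 0
    rw [show 2 * n * (0 + 2) - 2 * n = 2 * n by omega] at this
    exact down hden (this ⟨⟨by simp, by simp [bt, Cn], by simp, by simp [bt], by simp [bt],
      Nat.two_pow_pos _⟩, le_rfl, by simp, .inr ⟨rfl, trivial⟩⟩) k1
  rw [tr x n lo (2 * n) hn hlo]
  refine ⟨low x n lo _ _ (2 * n) 256 _ hn (by omega) (NNReal.coe_pos.1 (hx ▸ x0)) fin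
    (by norm_num) fun N hN => ?_, upp x n lo _ _ (2 * n) _ hn (by omega) fun N hN => ?_⟩
  · rw [hx]
    exact (div_le_iff₀' (by positivity)).2 (main N hN).1
  · rw [hx]
    exact (le_div_iff₀' (by positivity)).2 (main N hN).2

end Pool.Agent.MP_6a06cd_co.KL
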