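import Pool.Agent.MP_6a06cd_co.KL.Spec2

/-! Soundness of the table lookup. -/

namespace Pool.Agent.MP_6a06cd_co.KL

open X

namespace Xk

theorem pw_eq (e : ℕ) : pw e = 2 ^ e := Nat.one_shiftLeft e

theorem pk_eq (a b : ℕ) : pk a b = a + 2 ^ 320 * b :=
  congrArg (a + ·) ((Nat.shiftLeft_eq b 320).trans (Nat.mul_comm _ _))

theorem land_lt (x : ℕ) : Nat.land x (nat_lit 17592186044415) < 2 ^ 44 :=
  Nat.lt_succ_of_le Nat.and_le_right

theorem ct {a b : Bool} (h : cond a b false = true) : a = true ∧ b = true := by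
  cases a
  · cases h
  · exact ⟨rfl, h⟩

theorem ok {n den v a b : ℕ} (hb : b < 2 ^ 44) (h : ok2 n den v a b = true) : Ok2 n den v a b := by
  obtain ⟨h1, h2⟩ := ct h
  have h1 := Nat.le_of_ble_eq_true h1
  have h2 := Nat.le_of_ble_eq_true h2
  rw [pw_eq] at h1
  exact ⟨hb, h1.trans_eq (Nat.and_two_pow_sub_one_eq_mod v 320),
    (Nat.shiftRight_eq_div_pow v 320).ge.trans h2⟩

/-- the possible results of a search -/
def Res (f : ℕ → Bool) (miss s r : ℕ) : Prop :=
  r = miss ∨ ∃ y, key y = s ∧ f y = true ∧ r = pk (vlo y) (vhi y)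

theorem scan_succ (miss s m x : ℕ) : scan miss s (m + 1) x =
    cond (Nat.beq (key x) s) (pk (vlo x) (vhi x)) (scan miss s m (Nat.shiftRight x 160)) := rfl

theorem scan_zero {s : ℕ} (hs : s ≠ 0) (miss m : ℕ) : scan miss s m 0 = miss := by
  induction m with
  | zero => rfl
  | succ m ih =>
    have e : Nat.beq (key 0) s = false :=
      Bool.eq_false_iff.2 fun h => hs (Nat.eq_of_beq_eq_true h).symm
    rw [scan_succ, e]
    exact ih

theorem scan_ok (f : ℕ → Bool) (miss : ℕ) {s : ℕ} (hs : s ≠ 0) (m : ℕ) :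
    ∀ x, okL f m x = true → Res f miss s (scan miss s m x) := by
  induction m with
  | zero => exact fun _ _ => Or.inl rfl
  | succ m ih =>
    intro x h
    change cond (Nat.beq x 0) true (cond (f x) (okL f m (Nat.shiftRight x 160)) false) = true at h
    cases e : Nat.beq x 0
    · rw [e] at h
      obtain ⟨h1, h2⟩ := ct h
      rw [scan_succ]
      cases e' : Nat.beq (key x) s
      · exact ih _ h2
      · exact Or.inr ⟨x, Nat.eq_of_beq_eq_true e', h1, cond_true _ _⟩
    · rw [Nat.eq_of_beq_eq_true e]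
      exact Or.inl (scan_zero hs _ _)

theorem find_ok (f : ℕ → Bool) (miss : ℕ) {s : ℕ} (hs : s ≠ 0) (t : BT) :
    okT f t = true → ∀ h, Res f miss s (find miss s t h) := by
  induction t with
  | lf x => exact fun e _ => scan_ok f miss hs 40 x e
  | nd l r il ir =>
    intro e h
    obtain ⟨h1, h2⟩ := ct (a := okT f l) (b := okT f r) e
    change Res f miss s (cond (Nat.beq (Nat.land h 1) 0) (find miss s l (Nat.shiftRight h 1))
      (find miss s r (Nat.shiftRight h 1)))
    cases Nat.beq (Nat.land h 1) 0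
    exacts [ir h2 _, il h1 _]

end Xk

open Xk in
theorem rowXk : SXk := by
  intro n lo num den t a b h
  obtain ⟨h1, h2⟩ := ct h
  obtain ⟨h2, h3⟩ := ct h2
  have h2 : b < 2 ^ 44 := pw_eq 44 ▸ Nat.le_of_ble_eq_true h2
  refine ⟨ok h2 h3, rfl, congrArg (· * den ^ (2 * n)) (pw_eq 44), fun s hs => ?_⟩
  have e : lk n den t s = find (pk 0 (big n den)) s t (s % 1000003) := by
    have : Nat.beq s (nat_lit 0) = false :=
      Bool.eq_false_iff.2 fun h => hs (Nat.eq_of_beq_eq_true h)
    rw [lk, this]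
    rfl
  obtain h4 | ⟨y, rfl, h5, h6⟩ := find_ok _ (pk 0 (big n den)) hs t h1 (s % 1000003)
  · exact Or.inl (by rw [e, h4, pk_eq, Nat.zero_add])
  · exact Or.inr ⟨vlo y, vhi y, land_lt _, by rw [e, h6, pk_eq], ok (land_lt _) h5⟩

end Pool.Agent.MP_6a06cd_co.KL
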