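import Pool.Agent.MP_6a06cd_co.KL.Spec2

/-! The occupied move of the exact machine. -/

namespace Pool.Agent.MP_6a06cd_co.KL

open Finset H45 X

namespace Xo

variable {n τ : ℕ} {P : Finset ℕ}

theorem symm' {a b : ℕ} (h : Cn (E n) P a b) : Cn (E n) P b a := by
  obtain ⟨h1, h2⟩ := h
  induction h2 with
  | refl => exact ⟨h1, .refl⟩
  | tail _ k ih => exact ⟨k.2, .head ⟨Or.symm k.1, ih.1⟩ ih.2⟩

theorem trans' {a b c : ℕ} (h : Cn (E n) P a b) (k : Cn (E n) P b c) : Cn (E n) P a c :=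
  ⟨h.1, h.2.trans k.2⟩

theorem mono' {a b : ℕ} (k : Cn (E n) P a b) : Cn (E n) (insert τ P) a b :=
  ⟨mem_insert_of_mem k.1,
    Relation.ReflTransGen.mono (fun _ _ e => ⟨e.1, mem_insert_of_mem e.2⟩) _ _ k.2⟩

/-- connections after one more cell -/
theorem ins {a b : ℕ} {w : Prop} (hN : ∀ σ ∈ P, E n τ σ ↔ σ = a ∨ (w ∧ σ = b)) (x y : ℕ) :
    Cn (E n) (insert τ P) x y ↔ Cn (E n) P x y ∨
      ((x = τ ∨ Cn (E n) P x a ∨ (w ∧ Cn (E n) P x b)) ∧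
        (y = τ ∨ Cn (E n) P y a ∨ (w ∧ Cn (E n) P y b))) := by
  have up : ∀ x, (x = τ ∨ Cn (E n) P x a ∨ (w ∧ Cn (E n) P x b)) → Cn (E n) (insert τ P) x τ := by
    rintro x (rfl | h | ⟨hw, h⟩)
    · exact ⟨mem_insert_self _ _, .refl⟩
    · exact ⟨(mono' h).1, (mono' h).2.tail
        ⟨Or.symm ((hN a (symm' h).1).2 (Or.inl rfl)), mem_insert_self _ _⟩⟩
    · exact ⟨(mono' h).1, (mono' h).2.tail
        ⟨Or.symm ((hN b (symm' h).1).2 (Or.inr ⟨hw, rfl⟩)), mem_insert_self _ _⟩⟩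
  have nbr : ∀ x σ, Cn (E n) P x σ → E n τ σ →
      (x = τ ∨ Cn (E n) P x a ∨ (w ∧ Cn (E n) P x b)) := fun x σ h e => by
    rcases (hN σ (symm' h).1).1 e with rfl | ⟨hw, rfl⟩
    exacts [Or.inr (Or.inl h), Or.inr (Or.inr ⟨hw, h⟩)]
  refine ⟨?_, fun h => h.elim mono' fun k => trans' (up x k.1) (symm' (up y k.2))⟩
  rintro ⟨h1, h2⟩
  induction h2 with
  | refl =>
    rcases mem_insert.1 h1 with h | h
    exacts [Or.inr ⟨Or.inl h, Or.inl h⟩, Or.inl ⟨h, .refl⟩]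
  | @tail u v _ k ih =>
    rcases mem_insert.1 k.2 with rfl | hv
    · exact Or.inr ⟨ih.elim (fun h => nbr x u h (Or.symm k.1)) And.left, Or.inl rfl⟩
    · have st : ∀ c, Cn (E n) P u c → Cn (E n) P v c := fun c h =>
        ⟨hv, .head ⟨Or.symm k.1, h.1⟩ h.2⟩
      rcases ih with h | ⟨h, rfl | h' | ⟨hw, h'⟩⟩
      · exact Or.inl (symm' (st x (symm' h)))
      · exact Or.inr ⟨h, nbr v v ⟨hv, .refl⟩ k.1⟩
      · exact Or.inr ⟨h, Or.inr (Or.inl (st a h'))⟩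
      · exact Or.inr ⟨h, Or.inr (Or.inr ⟨hw, st b h'⟩)⟩

end Xo

open Xo

theorem rowXo : OfXo := by
  rintro hF hB n lo τ p s P hn1 hτ hp ⟨r1, r2, r3, r4, r5, r6⟩
  obtain ⟨f1, f2, f3, f4, f5, -, f7, -⟩ := hF n τ p hn1 hτ hp
  obtain ⟨b1, b2, b3, b4, b5⟩ := hB n lo p s hn1 f1 (f2.imp_right fun h => ⟨h.1, h.2.1⟩) r6
  rw [← f3] at b2 b3 b5
  refine b5.imp_right fun b5 => ⟨b5.1, fun q hq => ?_, fun i j hi hj => ?_, fun q hq => ?_,
    by rw [b2, r4, exists_mem_insert, or_comm], by rw [b3, r5, exists_mem_insert, or_comm], b4⟩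
  · rcases mem_insert.1 hq with rfl | hq
    exacts [⟨Nat.lt_succ_self _, b5.2⟩, ⟨Nat.lt_succ_of_lt (r1 q hq).1, (r1 q hq).2⟩]
  · have nτ : τ ∉ P := fun h => lt_irrefl _ (r1 τ h).1
    have sy : ∀ i j, i < n → j < n → (bt n s i j ↔ bt n s j i) := fun i j hi hj => by
      rw [r2 i j hi hj, r2 j i hj hi]
      exact ⟨symm', symm'⟩
    have nbl : hn n p = 1 → nb n p < n := fun h => (f2.resolve_left (by omega)).2.1
    have key : ∀ i, i < n → ((fc n (τ + 1) i = τ ∨ Cn (E n) P (fc n (τ + 1) i) (fc n τ (sl n p)) ∨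
        (hn n p = 1 ∧ Cn (E n) P (fc n (τ + 1) i) (fc n τ (nb n p)))) ↔
        (i = sl n p ∨ bt n s i (sl n p) ∨ (hn n p = 1 ∧ bt n s i (nb n p)))) := fun i hi => by
      rw [f4 i hi]
      split_ifs with h
      · exact iff_of_true (Or.inl rfl) (Or.inl h)
      · rw [r2 i _ hi f1]
        exact or_congr (iff_of_false (f5 i hi).ne h)
          (or_congr_right (and_congr_right fun k => (r2 i _ hi (nbl k)).symm))
    rw [b1 i j hi hj, ins (fun σ h => f7 σ (r1 σ h).1), key i hi, key j hj, sy _ j f1 hj,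
      and_congr_right fun k => sy _ j (nbl k) hj, f4 i hi, f4 j hj]
    by_cases h1 : i = sl n p
    · rw [if_pos h1]
      exact ⟨fun h => Or.inr (h.elim (fun h => ⟨Or.inl h1, Or.inr (Or.inl
        ((sy _ _ hj f1).2 (h1 ▸ h)))⟩) id), fun h => Or.inr (h.resolve_left fun k => nτ k.1)⟩
    by_cases h2 : j = sl n p
    · rw [if_pos h2]
      exact ⟨fun h => Or.inr (h.elim (fun h => ⟨Or.inr (Or.inl (h2 ▸ h)), Or.inl h2⟩) id),
        fun h => Or.inr (h.resolve_left fun k => nτ (symm' k).1)⟩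
    rw [if_neg h1, if_neg h2, r2 i j hi hj]
  · have s0 : fc n (τ + 1) (sl n p) = τ := by rw [f4 _ f1, if_pos rfl]
    rcases mem_insert.1 hq with rfl | hq
    · exact ⟨_, f1, s0.symm ▸ ⟨hq, .refl⟩⟩
    obtain ⟨i, hi, h⟩ := r3 q hq
    refine ⟨i, hi, ?_⟩
    rw [f4 i hi]
    split_ifs with e
    · exact (ins (fun σ h => f7 σ (r1 σ h).1) _ _).2
        (Or.inr ⟨Or.inr (Or.inl (e ▸ h)), Or.inl rfl⟩)
    · exact mono' h

end Pool.Agent.MP_6a06cd_co.KL
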