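import Pool.Agent.MP_6a06cd_co.KL.Spec2

/-! The values of the exact machine bound the weighted sums. -/

namespace Pool.Agent.MP_6a06cd_co.KL

open Finset H45 X

namespace Xv

theorem vb_add {bg v v' : ℕ} {y1 y2 z1 z2 : ℝ} (h : VB bg v y1 y2) (h' : VB bg v' z1 z2) :
    VB bg (v + v') (y1 + z1) (y2 + z2) := by
  obtain ⟨a, b, e, h1, h2⟩ := h
  obtain ⟨a', b', e', h3, h4⟩ := h'
  refine ⟨a + a', b + b', ?_, ?_, ?_⟩
  · rw [e, e', Nat.mul_add, Nat.add_add_add_comm]
  · push_cast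
    exact add_le_add h1 h3
  · rcases h2 with h2 | h2
    · exact Or.inl (h2.trans (Nat.le_add_right _ _))
    · rcases h4 with h4 | h4
      · exact Or.inl (h4.trans (Nat.le_add_left _ _))
      · push_cast
        exact Or.inr (add_le_add h2 h4)

theorem vb_mul {bg v c : ℕ} {y1 y2 : ℝ} (hc : 1 ≤ c) (h : VB bg v y1 y2) :
    VB bg (c * v) (c * y1) (c * y2) := by
  obtain ⟨a, b, e, h1, h2⟩ := h
  refine ⟨c * a, c * b, ?_, ?_, h2.imp (fun h => h.trans (Nat.le_mul_of_pos_left b hc)) fun h => ?_⟩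
  · rw [e, Nat.mul_add, Nat.mul_left_comm]
  · push_cast
    exact mul_le_mul_of_nonneg_left h1 (Nat.cast_nonneg c)
  · push_cast
    exact mul_le_mul_of_nonneg_left h (Nat.cast_nonneg c)

theorem vb_zero (bg : ℕ) {y1 y2 : ℝ} (h1 : 0 ≤ y1) (h2 : y2 ≤ 0) : VB bg 0 y1 y2 :=
  ⟨0, 0, by rw [Nat.mul_zero], by rwa [Nat.cast_zero], Or.inr (by rwa [Nat.cast_zero])⟩

theorem pw_eq (e : ℕ) : pw e = 2 ^ e := Nat.one_shiftLeft e

theorem vb_one (bg den p : ℕ) {y1 y2 : ℝ} (h1 : (2 : ℝ) ^ 36 * den ^ p ≤ y1)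
    (h2 : y2 ≤ (2 : ℝ) ^ 36 * den ^ p) : VB bg (one den p) y1 y2 := by
  have e : ((2 ^ 36 * den ^ p : ℕ) : ℝ) = (2 : ℝ) ^ 36 * den ^ p := by
    rw [Nat.cast_mul, Nat.cast_pow, Nat.cast_pow, Nat.cast_ofNat]
  refine ⟨2 ^ 36 * den ^ p, 2 ^ 36 * den ^ p, ?_, e ▸ h1, Or.inr (e ▸ h2)⟩
  show pw 36 * den ^ p * (pw 320 + 1) = _
  rw [pw_eq, pw_eq, Nat.mul_add_one, Nat.add_comm, Nat.mul_comm _ (2 ^ 320)]

theorem ph_eq (n lo num den p : ℕ) (f : ℕ → ℕ) (s : ℕ) : ph n lo num den p f s =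
    (Nat.rec (tE n den p s) (fun e _ => den * f e) (seE n p s) : ℕ) +
      (Nat.rec 0 (fun o _ => num * f o) (seO n lo p s) : ℕ) := by
  unfold ph
  cases seE n p s <;> cases seO n lo p s <;> rfl

theorem tE_eq (n den p s : ℕ) :
    tE n den p s = if stE n p s = 3 * pw (n * n) then one den (p + 1) else 0 := by
  show cond (Nat.beq (stE n p s) (3 * pw (n * n))) (one den (p + 1)) 0 = _
  split_ifs with h
  · rw [h, Nat.beq_refl]
    rfl
  · rw [Bool.eq_false_iff.2 fun k => h (Nat.eq_of_beq_eq_true k)]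
    rfl

theorem time {n te p : ℕ} (hn : 1 ≤ n) (h1 : te % (2 * n) = 0) (h2 : 4 * n ≤ te)
    (hp : p + 1 ≤ 2 * n) : (te - (p + 1)) % (2 * n) + p + 1 = 2 * n ∧
      te - p = te - (p + 1) + 1 ∧ te - (p + 1) < te ∧ n ≤ te - (p + 1) := by
  refine ⟨?_, by omega, by omega, by omega⟩
  obtain ⟨m, rfl⟩ := Nat.dvd_of_mod_eq_zero h1
  rcases m with _ | m
  · omega
  · rw [show 2 * n * (m + 1) - (p + 1) = 2 * n * m + (2 * n - (p + 1)) by
      rw [Nat.mul_add_one]; omega, Nat.mul_add_mod, Nat.mod_eq_of_lt (by omega)]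
    omega

end Xv

open Xv in
theorem rowXv : OfXv := by
  intro hV hE hO n lo num den t0 te K bg win φ1 φ2 lk hn hnum hden h1 h2 hw g1 g2 h0 p
  induction p with
  | zero =>
    intro _ P s h
    rw [pow_zero, mul_one]
    exact h0 P s h
  | succ p ih =>
    intro hp P s ⟨hX, w1, w2, w3⟩
    replace ih := ih (Nat.le_of_succ_le hp)
    obtain ⟨ht, e1, e2, e3⟩ := time hn h1 h2 hp
    rw [e1] at ih
    generalize te - (p + 1) = τ at *
    have d0 : (0 : ℝ) < den := by exact_mod_cast hden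
    have x0 : (0 : ℝ) ≤ (num : ℝ) / den := by positivity
    have c0 : (0 : ℝ) ≤ 2 ^ 36 * den ^ p := by positivity
    have e4 : ∀ φ : Finset ℕ → ℝ, 2 ^ 36 * (den : ℝ) ^ (p + 1) * V (num / den) φ (K + (p + 1)) P τ =
        den * (2 ^ 36 * den ^ p * V (num / den) φ (K + p) P (τ + 1)) +
          num * (2 ^ 36 * den ^ p * V (num / den) φ (K + p) (insert τ P) (τ + 1)) := fun φ => by
      rw [← Nat.add_assoc, V]
      generalize (2 : ℝ) ^ 36 = c
      field_simp
      ring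
    rw [e4, e4, show val n lo num den lk (p + 1) s =
      ph n lo num den p (val n lo num den lk p) s from rfl, ph_eq]
    have n1 := fun S => hV.2 _ φ1 (K + p) S (τ + 1) x0 fun S => (g1 S).1
    refine vb_add ?_ ?_
    · rcases hE n lo τ p s P hn e3 ht hX with ⟨a1, a2⟩ | ⟨a1, a2, a3, a4⟩
      · rw [a1]
        exact vb_mul hden (ih P _ ⟨a2, Nat.le_succ_of_le w1, w2, w3⟩)
      · have a5 : V (num / den) φ2 (K + p) P (τ + 1) = φ2 P := by
          rw [hV.1, sum_eq_single ∅ (fun F hF hF' => ?_) (by simp)]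
          · simp
          · refine mul_eq_zero_of_right _ (by_contra fun k => hF' (a4 F (fun q hq => ?_)
              ((g2 _).2.2 k).1))
            exact (mem_Ico.1 (mem_powerset.1 hF hq)).1
        rw [a1, a5]
        show VB bg (tE n den p s) _ _
        rw [tE_eq]
        split_ifs with h
        · obtain ⟨b1, b2, b3⟩ := a3.1 h
          have b4 : Gd n lo t0 (2 * n) P := ⟨b1, fun q hq => ⟨w2 q hq, (hX.1 q hq).2⟩, b2, b3,
            w3.resolve_right fun k => a2.ne_empty k.1⟩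
          have b5 := mul_le_mul_of_nonneg_left (((g1 P).2 b4).trans (n1 P).2) c0
          have b6 := mul_le_mul_of_nonneg_left (g2 P).2.1 c0
          rw [mul_one] at b5 b6
          refine vb_one bg den (p + 1) ?_ ?_ <;>
            rw [pow_succ' (den : ℝ), mul_left_comm _ (den : ℝ) (den ^ p)]
          · exact mul_le_mul_of_nonneg_left b5 d0.le
          · exact mul_le_mul_of_nonneg_left b6 d0.le
        · refine vb_zero bg (mul_nonneg d0.le (mul_nonneg c0 (n1 P).1)) (le_of_eq ?_)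
          rw [show φ2 P = 0 from by_contra fun k => h (a3.2
            ⟨((g2 P).2.2 k).1, ((g2 P).2.2 k).2.2.1, ((g2 P).2.2 k).2.2.2.1⟩), mul_zero, mul_zero]
    · rcases hO n lo τ p s P hn e3 ht hX with ⟨a1, a2⟩ | ⟨a1, a2⟩
      · rw [a1]
        refine vb_zero bg (mul_nonneg (Nat.cast_nonneg _) (mul_nonneg c0 (n1 _).1)) (le_of_eq ?_)
        rw [hV.1, sum_eq_zero fun F _ => ?_, mul_zero, mul_zero]
        exact mul_eq_zero_of_right _ (by_contra fun k => not_le.2 a2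
          (((g2 _).2.2 k).2.1 τ (mem_union_left _ (mem_insert_self _ _))).2)
      · rw [a1]
        refine vb_mul hnum (ih _ _ ⟨a2, Nat.le_succ_of_le w1, fun q hq => ?_, Or.inl ?_⟩)
        · rcases mem_insert.1 hq with rfl | hq
          exacts [w1, w2 q hq]
        · rcases w3 with ⟨q, hq, hq'⟩ | ⟨-, k⟩
          · exact ⟨q, mem_insert_of_mem hq, hq'⟩
          · exact ⟨τ, mem_insert_self _ _, e2.trans_le (hw k)⟩

end Pool.Agent.MP_6a06cd_co.KL
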